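import Pool.Agent.MP_4d76c1_gt.Low.St

set_option autoImplicit false

namespace Pool.Agent.MP_4d76c1_gt.Low

open Filter Topology Set

variable {n : ℕ} {X : Type} [MetricSpace X] [AddAction (G n) X]

theorem a_pf (hSM : SM_st n X) (hDR : DR_st n X) (hP : P_st n X) (hPL1 : PL1_st) (hPL2 : PL2_st)
    (hG1 : G1_st) (hG2 : G2_st) (hFR : FR_st n X) (hZ : Z0_st n X) (h2 : GY2_st n X)
    (h3 : GY3_st n X) (hC0 : C0_st n X) (hC1 : C1_st n X) (hCOV : COV_st n X) : A_st n X := by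
  intro hn h hfree M π hπ S hS
  obtain ⟨T, τ, hτ, hcard⟩ := hCOV h hfree M π hπ S hS
  obtain ⟨F, hF⟩ := hSM h
  have hfin := hτ.finite (fun c w => Dir F c w) (fun _ _ _ => tendsto_nhds_unique)
    fun c c' w hc hr hw => ((hDR h F hF c hc.lipschitz).2 w hw).1 c' hr
  obtain ⟨Q, hQ⟩ := hPL1 n _ _ hfin (hP h F hF)
  have key : ∀ v l₀, Exp (B n X) v l₀ → ∃ (S₁ S₂ S₃ : Set T) (y₂ y₃ : T → E n), 1 ≤ S₁.ncard ∧
      S₂.Finite ∧ S₃.Finite ∧ Guard (B n X) v l₀ S₂ y₂ ∧ (S₁.ncard ≤ 1 → Pos (B n X) v S₂ y₂) ∧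
      Guard (B n X) v l₀ S₃ y₃ ∧ Pos (B n X) v S₃ y₃ ∧
      S₁.ncard + S₂.ncard + S₃.ncard ≤ (τ '' {c | Isometry c ∧ Dir F c v}).ncard := by
    intro v l₀ he
    obtain ⟨Ψ, A, f⟩ := hFR h v l₀ he
    obtain ⟨γ, hγ⟩ := hZ h v l₀ Ψ A f he
    obtain ⟨y₂, a1, a2⟩ := h2 h v l₀ Ψ A f T τ hτ ⟨γ, hγ⟩
    obtain ⟨y₃, a3, a4⟩ := h3 h v l₀ Ψ A f T τ hτ ⟨γ, hγ⟩ Q hQ
    refine ⟨_, _, _, y₂, y₃, ?_, hτ.fin.subset (image_mono fun c hc => hc.choose_spec.2.1),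
      hτ.fin.subset (image_mono fun c hc => hc.1), a1, a2, a3, a4, hC0 h v l₀ Ψ A f T τ hτ F hF⟩
    exact (Set.ncard_pos (hτ.fin.subset (image_mono fun c hc => hc.1))).2 ⟨_, γ, hγ, rfl⟩
  rcases hPL2 n _ Q hQ (B_bounded h) (fun l => B_neg h) with ⟨v, f, hc⟩ | ⟨V, hV, hV'⟩
  · classical
    obtain ⟨g1, g2⟩ := hG2 n _ v f hc
    have hs : ∀ b : Bool, (if b then (1 : ℝ) else -1) = 1 ∨ (if b then (1 : ℝ) else -1) = -1 :=
      fun b => by cases b <;> simp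
    have hinj : Function.Injective
        fun p : Fin n × Bool => (if p.2 then (1 : ℝ) else -1) • v p.1 := by
      rintro ⟨i, a⟩ ⟨j, b⟩ e
      obtain ⟨rfl, e2⟩ := g1 i j _ _ (hs a) (hs b) e
      cases a <;> cases b <;> first | rfl | (norm_num at e2)
    have h4 := hC1 h T τ hτ F hF (Finset.univ.image
      fun p : Fin n × Bool => (if p.2 then (1 : ℝ) else -1) • v p.1) (min (3 * n) (4 * n - 3))
      fun w hw => by
        obtain ⟨⟨i, a⟩, -, rfl⟩ := Finset.mem_image.1 hw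
        obtain ⟨he, hg⟩ := g2 i _ (hs a)
        obtain ⟨S₁, S₂, S₃, y₂, y₃, b1, b2, b3, b4, b5, b6, b7, b8⟩ := key _ _ he
        have c1 := hG1 n T _ _ _ S₂ y₂ hn (B_bounded h) B_closed he b2 b4
        have c3 := hg T S₃ y₃ b3 b6 b7
        refine le_trans ?_ b8
        by_cases e : S₁.ncard ≤ 1
        · have c2 := hg T S₂ y₂ b2 b4 (b5 e)
          omega
        · omega
    rw [Finset.card_image_of_injective _ hinj, Finset.card_univ, Fintype.card_prod,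
      Fintype.card_fin, Fintype.card_bool] at h4
    refine (min_le_left _ _).trans (Nat.le_of_mul_le_mul_left ?_ two_pos)
    calc 2 * (n * min (3 * n) (4 * n - 3)) = n * 2 * min (3 * n) (4 * n - 3) := by ring
      _ ≤ _ := h4.trans hcard
  · have h4 := hC1 h T τ hτ F hF V (2 * n + 1) fun w hw => by
      obtain ⟨l₀, he⟩ := hV' w hw
      obtain ⟨S₁, S₂, S₃, y₂, y₃, b1, b2, b3, b4, -, b6, -, b8⟩ := key _ _ he
      have c1 := hG1 n T _ _ _ S₂ y₂ hn (B_bounded h) B_closed he b2 b4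
      have c2 := hG1 n T _ _ _ S₃ y₃ hn (B_bounded h) B_closed he b3 b6
      omega
    refine (min_le_right _ _).trans (Nat.le_of_mul_le_mul_left ?_ two_pos)
    calc 2 * ((n + 1) * (2 * n + 1)) = (2 * n + 2) * (2 * n + 1) := by ring
      _ ≤ V.card * (2 * n + 1) := Nat.mul_le_mul_right _ hV
      _ ≤ _ := h4.trans hcard

end Pool.Agent.MP_4d76c1_gt.Low
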