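import Pool.Agent.MP_4d76c1_gt.Low.St

set_option autoImplicit false

namespace Pool.Agent.MP_4d76c1_gt.Low

open Filter Topology Set

variable {n : Nat} {X : Type} [MetricSpace X] [AddAction (G n) X]

theorem dis_C {T : Type} {τ : (ℝ → X) → T} (hτ : Fint n τ) {P Q : Set (ℝ → X)}
    (hP : ∀ c ∈ P, Isometry c) (hQ : ∀ c ∈ Q, Isometry c)
    (h : ∀ c ∈ P, ∀ c' ∈ Q, ¬ Rel n c c') : Disjoint (τ '' P) (τ '' Q) := by
  rw [Set.disjoint_left]
  rintro _ ⟨c, hc, rfl⟩ ⟨c', hc', e⟩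
  exact h c hc c' hc' (hτ.rel c c' (hP c hc) (hQ c' hc') e.symm)

theorem fin_C {T : Type} {τ : (ℝ → X) → T} (hτ : Fint n τ) {P : Set (ℝ → X)}
    (hP : ∀ c ∈ P, Isometry c) : (τ '' P).Finite := hτ.fin.subset (image_mono hP)

theorem dir_C (hDR : DR_st n X) (h : Sp n X) {v l₀ : E n} {Ψ : X → E n} {A : ℝ}
    (f : Fr v l₀ Ψ A) {c : ℝ → X} (hc : Isometry c) (hb : Bd (fun x => l₀ ⬝ᵥ Ψ x) c) :
    Dir Ψ c v := by
  obtain ⟨⟨w, hw⟩, h2⟩ := hDR h Ψ f.isEqv c hc.lipschitz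
  obtain ⟨M, hM⟩ := hb
  have h3 := (h2 w hw).2.2.2 v 0 (A * M) fun t ht => by
    have a1 := f.De_le hc.lipschitz (show -t ≤ 0 by linarith)
    have a2 := hM (-t) 0 (by linarith)
    rw [f.dot_De f.one, f.dot_De f.one] at a1
    have e : t • v - (Ψ (c 0) - Ψ (c (-t))) = De v Ψ c 0 - De v Ψ c (-t) := by
      simp only [De, zero_smul, neg_smul]
      abel
    rw [e, zero_mul, zero_add]
    exact a1.trans (mul_le_mul_of_nonneg_left (by linarith) f.pos.le)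
  rwa [sub_eq_zero.1 (norm_le_zero_iff.1 h3)]

theorem c0_pf (hDR : DR_st n X) : C0_st n X := by
  intro h v l₀ Ψ A f T τ hτ F hF
  have i1 : ∀ c ∈ {c | Zer v Ψ c}, Isometry c := fun _ hc => hc.1
  have i2 : ∀ c ∈ {c | ∃ y, y ≠ 0 ∧ Fi v Ψ c y}, Isometry c := fun _ ⟨_, hc⟩ => hc.2.1
  have i3 : ∀ c ∈ {c | Isometry c ∧ Dir Ψ c v ∧ ¬ Bd (fun x => l₀ ⬝ᵥ Ψ x) c}, Isometry c :=
    fun _ hc => hc.1
  have d12 := dis_C hτ i1 i2 fun c hc c' ⟨y, hy, hc'⟩ hr => hy (hc'.uniq (f.zer_rel h hr hc).fi)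
  have d13 := dis_C hτ i1 i3 fun c hc c' hc' hr => hc'.2.2 (f.cal.bd_rel hr (f.fi_bd (Zer.fi hc)))
  have d23 := dis_C hτ i2 i3 fun c ⟨y, _, hc⟩ c' hc' hr => hc'.2.2 (f.cal.bd_rel hr (f.fi_bd hc))
  have key : ∀ c, Isometry c → Dir Ψ c v → c ∈ {c | Isometry c ∧ Dir F c v} := fun c hc hd =>
    ⟨hc, ((hDR h Ψ f.isEqv c hc.lipschitz).2 v hd).2.1 F hF⟩
  rw [← ncard_union_eq d12 (fin_C hτ i1) (fin_C hτ i2), ← ncard_union_eq
    (disjoint_union_left.2 ⟨d13, d23⟩) ((fin_C hτ i1).union (fin_C hτ i2)) (fin_C hτ i3)]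
  refine ncard_le_ncard (union_subset (union_subset (image_mono fun c hc => ?_)
    (image_mono fun c ⟨y, _, hc⟩ => ?_)) (image_mono fun c hc => key c hc.1 hc.2.1))
    (fin_C hτ fun _ hc => hc.1)
  · exact key c hc.1 (dir_C hDR h f hc.1 (f.fi_bd (Zer.fi hc)))
  · exact key c hc.1 (dir_C hDR h f hc.1 (f.fi_bd hc))

theorem c1_pf (hDR : DR_st n X) : C1_st n X := by
  classical
  intro h T τ hτ F hF V N hV
  have key : V.card * N ≤ (τ '' {c | Isometry c ∧ ∃ v ∈ V, Dir F c v}).ncard := by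
    induction V using Finset.induction_on with
    | empty => simp
    | insert v V hv ih =>
      have i1 : ∀ c ∈ {c | Isometry c ∧ ∃ v ∈ V, Dir F c v}, Isometry c := fun _ hc => hc.1
      have i2 : ∀ c ∈ {c | Isometry c ∧ Dir F c v}, Isometry c := fun _ hc => hc.1
      have d := dis_C hτ i1 i2 fun c ⟨hc, w, hw, hd⟩ c' hc' hr =>
        hv (tendsto_nhds_unique (((hDR h F hF c hc.lipschitz).2 w hd).1 c' hr) hc'.2 ▸ hw)
      rw [Finset.card_insert_of_notMem hv, add_mul, one_mul]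
      refine (add_le_add (ih fun w hw => hV w (Finset.mem_insert_of_mem hw))
        (hV v (Finset.mem_insert_self _ _))).trans ?_
      rw [← ncard_union_eq d (fin_C hτ i1) (fin_C hτ i2)]
      exact ncard_le_ncard (union_subset
        (image_mono fun c ⟨hc, w, hw, hd⟩ => ⟨hc, w, Finset.mem_insert_of_mem hw, hd⟩)
        (image_mono fun c hc => ⟨hc.1, v, Finset.mem_insert_self _ _, hc.2⟩))
        (fin_C hτ fun _ hc => hc.1)
  exact key.trans (ncard_le_ncard (image_mono fun _ hc => hc.1) hτ.fin)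

theorem lift_C (h : Sp n X) (hf : ∀ (k : G n) (x : X), k +ᵥ x = x → k = 0) {c c' : ℝ → X}
    (hc : Isometry c) (hc' : Isometry c') {β : ℝ} (e : ∀ t, ∃ k : G n, c' t = k +ᵥ c (t + β)) :
    Rel n c c' := by
  choose k hk using e
  have hl : IsLocallyConstant k := by
    refine (IsLocallyConstant.iff_eventually_eq k).2 fun t => ?_
    have hd : ∀ s, dist (c (t + β)) ((k s - k t) +ᵥ c (t + β)) ≤ 2 * dist s t := fun s => by
      rw [← h.iso (k t), ← add_vadd, add_sub_cancel, ← hk t]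
      have a1 := dist_triangle (c' t) (c' s) (k s +ᵥ c (t + β))
      rw [hc'.dist_eq, hk s, h.iso, hc.dist_eq, dist_add_right, dist_comm t s] at a1
      linarith
    have ev : ∀ r : ℝ, 0 < r → ∀ᶠ s in 𝓝 t, 2 * dist s t < r := fun r hr => by
      filter_upwards [Metric.ball_mem_nhds t (half_pos hr)] with s hs
      linarith [Metric.mem_ball.1 hs]
    have e1 : ∀ᶠ s in 𝓝 t, ∀ j ∈ {j : G n | dist (c (t + β)) (j +ᵥ c (t + β)) ≤ 1},
        j ≠ 0 → 2 * dist s t < dist (c (t + β)) (j +ᵥ c (t + β)) := by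
      refine (eventually_all_finite (h.pd _ 1)).2 fun j _ => ?_
      by_cases hj : j = 0
      · exact Eventually.of_forall fun _ k => absurd hj k
      · exact (ev _ (dist_pos.2 fun k => hj (hf j _ k.symm))).mono fun _ hs _ => hs
    filter_upwards [e1, ev 1 one_pos] with s h1 h2
    by_contra hn
    exact absurd (h1 _ ((hd s).trans h2.le) (sub_ne_zero.2 hn)) (not_lt.2 (hd s))
  exact ⟨k 0, β, fun t => by rw [hk t, hl.apply_eq_of_preconnectedSpace t 0]⟩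

theorem cov_pf : COV_st n X := by
  classical
  intro h hf M π hπ S hS
  obtain ⟨x₀, -⟩ := h.coc
  have : Nonempty M := ⟨π x₀⟩
  choose! c0 h0 a b ha hc using hS
  have hsub : (fun c => (c0 c, a c)) '' {c | Isometry c} ⊆
      ((S ×ˢ ({1, -1} : Finset ℝ) : Finset _) : Set ((ℝ → M) × ℝ)) := by
    rintro _ ⟨c, hi, rfl⟩
    simpa using ⟨h0 c hi, ha c hi⟩
  refine ⟨(ℝ → M) × ℝ, fun c => (c0 c, a c), ⟨(Finset.finite_toSet _).subset hsub,
    fun c c' i1 i2 e => lift_C h hf i1 i2 (β := a c * (b c' - b c)) fun t => hπ _ _ ?_⟩, ?_⟩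
  · obtain ⟨e1, e2⟩ := Prod.mk.inj e
    rw [hc c i1, hc c' i2, ← e1, ← e2]
    congr 1
    rcases ha c i1 with k | k <;> rw [k] <;> ring
  · refine (ncard_le_ncard hsub (Finset.finite_toSet _)).trans ?_
    rw [ncard_coe_finset, Finset.card_product, mul_comm]
    exact Nat.mul_le_mul_right _ Finset.card_le_two

end Pool.Agent.MP_4d76c1_gt.Low
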