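import Pool.Agent.MP_4d76c1_gt.Low.St

set_option autoImplicit false

namespace Pool.Agent.MP_4d76c1_gt.Low

open Filter Topology Set

variable {n : Nat} {X : Type} [MetricSpace X] [AddAction (G n) X]

theorem inv_DR : Tendsto (fun j : ℕ => (j : ℝ)⁻¹) UU (𝓝 0) :=
  tendsto_inv_atTop_nhds_zero_nat.mono_left UU_le

theorem same_DR {a b : ℕ → E n} {C : ℝ} {w : E n} (h : ∀ j, ‖b j - a j‖ ≤ C)
    (ha : Tendsto (fun j : ℕ => (j : ℝ)⁻¹ • a j) UU (𝓝 w)) :
    Tendsto (fun j : ℕ => (j : ℝ)⁻¹ • b j) UU (𝓝 w) := by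
  have h1 : Tendsto (fun j : ℕ => (j : ℝ)⁻¹ • (b j - a j)) UU (𝓝 0) := by
    have h2 := inv_DR.mul_const C
    rw [zero_mul] at h2
    refine squeeze_zero_norm (fun j => ?_) h2
    rw [norm_smul, Real.norm_of_nonneg (by positivity)]
    exact mul_le_mul_of_nonneg_left (h j) (by positivity)
  have h3 := ha.add h1
  rw [add_zero] at h3
  exact h3.congr fun j => by rw [← smul_add, add_sub_cancel]

theorem lim_DR {f : ℕ → ℝ} {a C x : ℝ} (h : ∀ j : ℕ, f j ≤ a * j + C)
    (hf : Tendsto (fun j : ℕ => (j : ℝ)⁻¹ * f j) UU (𝓝 x)) : x ≤ a := by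
  have h2 := (inv_DR.mul_const C).const_add a
  rw [zero_mul, add_zero] at h2
  refine le_of_tendsto_of_tendsto hf h2 ?_
  filter_upwards [UU_le (eventually_gt_atTop 0)] with j hj
  have hj' : (0 : ℝ) < j := by exact_mod_cast hj
  refine (mul_le_mul_of_nonneg_left (h j) (by positivity)).trans (le_of_eq ?_)
  field_simp

theorem dr_pf : DR_st n X := by
  intro h F hF c hc
  obtain ⟨K, hK⟩ := hF.1
  have hL : ∀ s t, ‖F (c s) - F (c t)‖ ≤ K * |s - t| := fun s t => by
    have h1 := hK.dist_le_mul (c s) (c t)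
    have h2 := hc.dist_le_mul s t
    rw [NNReal.coe_one, one_mul, Real.dist_eq] at h2
    rw [dist_eq_norm] at h1
    exact h1.trans (mul_le_mul_of_nonneg_left h2 K.coe_nonneg)
  refine ⟨?_, fun w hw => ⟨?_, fun F' hF' => ?_, fun l a C hl => ?_, fun v a C hv => ?_⟩⟩
  · obtain ⟨w, -, hw⟩ := ulim (x := fun j : ℕ => (j : ℝ)⁻¹ • (F (c 0) - F (c (-j))))
      (isCompact_closedBall (0 : E n) K) (Eventually.of_forall fun j => by
        rw [mem_closedBall_zero_iff, norm_smul, Real.norm_of_nonneg (by positivity)]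
        refine (mul_le_mul_of_nonneg_left (hL 0 (-j)) (by positivity)).trans ?_
        rw [zero_sub, neg_neg, Nat.abs_cast, mul_comm (K : ℝ), ← mul_assoc]
        exact mul_le_of_le_one_left K.coe_nonneg (inv_mul_le_one_of_le₀ le_rfl (by positivity)))
    exact ⟨w, hw⟩
  · rintro c' ⟨k, b, e⟩
    refine same_DR (C := K * |b| + K * |b|) (fun j => ?_) hw
    have h1 := hL (0 + b) 0
    have h2 := hL (-j + b) (-j)
    rw [add_sub_cancel_left] at h1 h2
    rw [e, e, hF.2, hF.2]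
    have e2 : F (c (0 + b)) + cv k - (F (c (-j + b)) + cv k) - (F (c 0) - F (c (-j))) =
        (F (c (0 + b)) - F (c 0)) - (F (c (-j + b)) - F (c (-j))) := by abel
    rw [e2]
    exact (norm_sub_le _ _).trans (add_le_add h1 h2)
  · obtain ⟨C, -, hC⟩ := h.bdd_eqv hF' hF
    refine same_DR (C := C + C) (fun j => ?_) hw
    have e2 : F' (c 0) - F' (c (-j)) - (F (c 0) - F (c (-j))) =
        (F' (c 0) - F (c 0)) - (F' (c (-j)) - F (c (-j))) := by abel
    rw [e2]
    exact (norm_sub_le _ _).trans (add_le_add (hC _) (hC _))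
  · refine lim_DR (fun j => hl j j.cast_nonneg) ?_
    exact (((cont_dot l).tendsto w).comp hw).congr fun j => by
      simp only [Function.comp, dotProduct_smul, smul_eq_mul]
  · refine lim_DR (fun j => hv j j.cast_nonneg) ?_
    refine (hw.const_sub v).norm.congr' ?_
    filter_upwards [UU_le (eventually_gt_atTop 0)] with j hj
    have hj' : (0 : ℝ) < j := by exact_mod_cast hj
    rw [← Real.norm_of_nonneg (inv_nonneg.2 hj'.le), ← norm_smul, Real.norm_of_nonneg
      (inv_nonneg.2 hj'.le), smul_sub (j : ℝ)⁻¹ ((j : ℝ) • v), inv_smul_smul₀ hj'.ne']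

end Pool.Agent.MP_4d76c1_gt.Low
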