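import Pool.Agent.MP_4d76c1_gt.Low.St

/-! Calibrated lines at boundary points of the dual ball. -/

set_option autoImplicit false

namespace Pool.Agent.MP_4d76c1_gt.Low

open Filter Topology Set

variable {n : Nat} {X : Type} [MetricSpace X] [AddAction (G n) X]

theorem win_E1 (h : Sp n X) {l : E n} {u : X → ℝ} (hu : Cal l u)
    (hb : ∀ η : ℝ, 0 < η → (1 + η) • l ∉ B n X) {W ε : ℝ} (hW : 0 < W) (hε : 0 < ε) :
    ∃ p : ℝ → X, LipschitzWith 1 p ∧ W - ε ≤ u (p W) - u (p 0) := by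
  obtain ⟨η, η0, hη⟩ : ∃ η : ℝ, 0 < η ∧ η * W = ε / 2 :=
    ⟨ε / (2 * W), by positivity, by field_simp⟩
  obtain ⟨x, k, hk⟩ : ∃ (x : X) (k : G n), dist x (k +ᵥ x) < (1 + η) * (l ⬝ᵥ cv k) := by
    by_contra hn
    push Not at hn
    exact hb η η0 fun x k => by rw [smul_dotProduct]; exact hn x k
  obtain ⟨a, ha⟩ : ∃ a, a = l ⬝ᵥ cv k := ⟨_, rfl⟩
  rw [← ha] at hk
  have a0 : 0 < a := (mul_pos_iff_of_pos_left (by positivity)).1 (dist_nonneg.trans_lt hk)
  have hN : ∀ N : ℕ, dist x ((N • k) +ᵥ x) ≤ N * dist x (k +ᵥ x) ∧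
      u ((N • k) +ᵥ x) = u x + N * a := fun N => by
    induction N with
    | zero => simp
    | succ N ih =>
      constructor
      · have := dist_triangle x ((N • k) +ᵥ x) ((N • k) +ᵥ (k +ᵥ x))
        rw [h.iso] at this
        rw [succ_nsmul, add_vadd]
        push_cast
        linarith [ih.1]
      · rw [succ_nsmul', add_vadd, hu.2, ih.2, ← ha]
        push_cast
        ring
  obtain ⟨N, hN'⟩ := exists_nat_gt (2 * W ^ 2 / (ε * a))
  have N0 : (0 : ℝ) < N := lt_of_le_of_lt (by positivity) hN'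
  rw [div_lt_iff₀ (by positivity)] at hN'
  obtain ⟨J, J1, J2⟩ : ∃ J : ℕ, N * ((1 + η) * a) ≤ J * W ∧ J * W < N * ((1 + η) * a) + W := by
    refine ⟨⌈N * ((1 + η) * a) / W⌉₊, (div_le_iff₀ hW).1 (Nat.le_ceil _), ?_⟩
    have := mul_lt_mul_of_pos_right
      (Nat.ceil_lt_add_one (show 0 ≤ N * ((1 + η) * a) / W by positivity)) hW
    rwa [add_mul _ 1 W, div_mul_cancel₀ _ hW.ne', one_mul W] at this
  obtain ⟨p, hp, p0, p1⟩ := h.len x ((N • k) +ᵥ x) (J * W)
    ((hN N).1.trans_lt ((mul_lt_mul_of_pos_left hk N0).trans_le J1))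
  by_contra hn
  push Not at hn
  have key : ∀ j : ℕ, u (p (j * W)) - u (p 0) ≤ j * (W - ε) := fun j => by
    induction j with
    | zero => simp
    | succ j ih =>
      have := hn _ (lip_shift hp (j * W))
      rw [zero_add] at this
      push_cast
      rw [add_mul, one_mul, add_comm _ W]
      linarith
  have e := key J
  rw [p1, p0, (hN N).2] at e
  have h1 : N * a ≤ J * W := by nlinarith [mul_pos N0 (mul_pos η0 a0)]
  have h2 : J * ε * W < (N * η * a + W) * W := mul_lt_mul_of_pos_right (by linarith) hW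
  have h3 : N * a * ε ≤ J * W * ε := mul_le_mul_of_nonneg_right h1 hε.le
  have h4 : N * η * a * W = N * a * (ε / 2) := by rw [← hη]; ring
  nlinarith

theorem e1_pf : E1_st n X := fun h l u hu hb => by
  have hq : ∀ m : ℕ, ∃ q : ℝ → X, LipschitzWith 1 q ∧ ∀ s t : ℝ, -((m : ℝ) + 1) ≤ s → s ≤ t →
      t ≤ m + 1 → t - s - 1 / ((m : ℝ) + 1) ≤ u (q t) - u (q s) := fun m => by
    obtain ⟨p, hp, e⟩ := win_E1 h hu hb (W := 2 * ((m : ℝ) + 1)) (ε := 1 / ((m : ℝ) + 1))
      (by positivity) (by positivity)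
    refine ⟨_, lip_shift hp (m + 1), fun s t h1 _ h3 => ?_⟩
    have a := (lip_sub hu.1 _ _).trans (lip_path hp (show 0 ≤ s + (m + 1) by linarith))
    have b := (lip_sub hu.1 _ _).trans
      (lip_path hp (show t + (m + 1) ≤ 2 * ((m : ℝ) + 1) by linarith))
    linarith
  choose q q1 q2 using hq
  obtain ⟨k, c, hc, hl⟩ := h.lim q q1
  have low : ∀ s t, s ≤ t → t - s ≤ u (c t) - u (c s) := fun s t e => by
    have a := ((hu.1.continuous.tendsto _).comp (hl t)).sub ((hu.1.continuous.tendsto _).comp (hl s))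
    have b := (tendsto_const_nhds (x := t - s)).sub
      ((tendsto_one_div_add_atTop_nhds_zero_nat (𝕜 := ℝ)).mono_left UU_le)
    rw [sub_zero] at b
    refine le_of_tendsto_of_tendsto b a ?_
    filter_upwards [UU_le ((tendsto_natCast_atTop_atTop (R := ℝ)).eventually_ge_atTop
      (max (-s) t))] with m hm
    have := q2 m s t (by linarith [le_max_left (-s) t]) e (by linarith [le_max_right (-s) t])
    simp only [Function.comp, hu.2]
    linarith
  have eq : ∀ s t, s ≤ t → u (c t) - u (c s) = t - s := fun s t e =>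
    le_antisymm ((lip_sub hu.1 _ _).trans (lip_path hc e)) (low s t e)
  refine ⟨c, isometry_of_le hc fun s t e => (low s t e).trans (lip_sub hu.1 _ _), fun s t => ?_⟩
  rcases le_total s t with e | e
  · exact eq s t e
  · linarith [eq t s e]

theorem z0_pf (hE : E1_st n X) : Z0_st n X := fun h v l₀ Ψ A f hx => by
  obtain ⟨c, hc, e⟩ := hE h l₀ _ f.cal fun η hη hB => by
    have := hx.1 _ hB
    rw [smul_dotProduct, f.one, smul_eq_mul] at this
    linarith
  have key : ∀ s t, s ≤ t → De v Ψ c s = De v Ψ c t := fun s t r => by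
    have h1 := f.De_le hc.lipschitz r
    have h2 := e s t
    rw [f.dot_De f.one, f.dot_De f.one,
      show t - l₀ ⬝ᵥ Ψ (c t) - (s - l₀ ⬝ᵥ Ψ (c s)) = 0 by linarith, mul_zero] at h1
    exact (sub_eq_zero.1 (norm_le_zero_iff.1 h1)).symm
  exact ⟨c, hc, fun s t => (le_total s t).elim (key s t) fun r => (key t s r).symm⟩

end Pool.Agent.MP_4d76c1_gt.Low
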