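import Pool.Agent.MP_4d76c1_gt.Low.St

/-! Lines of finite defect and the positions of the lines without defect. -/

set_option autoImplicit false

namespace Pool.Agent.MP_4d76c1_gt.Low

open Filter Topology Set

variable {n : ℕ} {X : Type} [MetricSpace X] [AddAction (G n) X]

theorem cau_FI {D : ℝ → E n} {φ : ℝ → ℝ} {A a : ℝ} {L : Filter ℝ} [L.NeBot]
    (h : ∀ s t, dist (D s) (D t) ≤ A * |φ s - φ t|) (hφ : Tendsto φ L (𝓝 a)) :
    ∃ b, Tendsto D L (𝓝 b) := by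
  refine cauchy_map_iff_exists_tendsto.1 (cauchy_map_iff'.2
    (tendsto_uniformity_iff_dist_tendsto_zero.2
      (squeeze_zero (fun _ => dist_nonneg) (fun p => h p.1 p.2) ?_)))
  simpa using (((hφ.comp tendsto_fst).sub (hφ.comp tendsto_snd)).abs).const_mul A

theorem lim_FI (h : Sp n X) {v l₀ : E n} {Ψ : X → E n} {A : ℝ} (f : Fr v l₀ Ψ A)
    (p : ℕ → ℝ → X) (hp : ∀ m, Isometry (p m))
    (hz : ∀ s t, Tendsto (fun m => De v Ψ (p m) s - De v Ψ (p m) t) UU (𝓝 0)) :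
    ∃ (k : ℕ → G n) (c : ℝ → X), Zer v Ψ c ∧
      ∀ t, Tendsto (fun m => k m +ᵥ p m t) UU (𝓝 (c t)) := by
  obtain ⟨k, c, -, hc⟩ := h.lim p fun m => (hp m).lipschitz
  obtain ⟨K, hK⟩ := f.isEqv.1
  have hΨ := fun t => (hK.continuous.tendsto _).comp (hc t)
  refine ⟨k, c, ⟨Isometry.of_dist_eq fun s t => ?_, fun s t => sub_eq_zero.1 ?_⟩, hc⟩
  · exact tendsto_nhds_unique ((hc s).dist (hc t))
      (tendsto_const_nhds.congr fun m => by rw [h.iso, (hp m).dist_eq])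
  · refine tendsto_nhds_unique (((hΨ s).const_sub (s • v)).sub ((hΨ t).const_sub (t • v)))
      ((hz s t).congr fun m => ?_)
    simp only [De, Function.comp, f.eqv]
    abel

theorem near_FI (h : Sp n X) {v l₀ : E n} {Ψ : X → E n} {A : ℝ} (f : Fr v l₀ Ψ A) {c : ℝ → X}
    (hc : Isometry c) (s : ℕ → ℝ) {a : E n}
    (ha : ∀ t, Tendsto (fun m => De v Ψ c (t + s m)) UU (𝓝 a)) {ε : ℝ} (hε : 0 < ε) :
    ∃ m c', Zer v Ψ c' ∧ dist (c (s m)) (c' 0) < ε := by
  obtain ⟨k, c', z, hk⟩ := lim_FI h f (fun m t => c (t + s m))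
    (fun m => Isometry.of_dist_eq fun x y => by rw [hc.dist_eq, dist_add_right]) fun x y => by
      refine (sub_self a ▸ (ha x).sub (ha y)).congr fun m => ?_
      simp only [De, add_smul]
      abel
  obtain ⟨m, hm⟩ := (Metric.tendsto_nhds.1 (hk 0) ε hε).exists
  refine ⟨m, fun t => -k m +ᵥ c' (t + 0), f.zer_rel h ⟨-k m, 0, fun _ => rfl⟩ z, ?_⟩
  rw [← h.iso (k m), vadd_neg_vadd]
  simpa using hm

theorem fi_pf : FI_st n X := by
  intro h v l₀ Ψ A f c
  refine ⟨fun hc ⟨M, hM⟩ => ?_, ?_⟩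
  · have hm := f.De_mono hc.lipschitz
    have hb : ∀ s t, s ≤ t → l₀ ⬝ᵥ De v Ψ c t - l₀ ⬝ᵥ De v Ψ c s ≤ M := fun s t e => by
      have := hM s t e
      rw [f.dot_De f.one, f.dot_De f.one]
      linarith
    have hM0 : 0 ≤ M := by simpa using hb 0 0 le_rfl
    have hd : ∀ s t, dist (De v Ψ c s) (De v Ψ c t) ≤
        A * |l₀ ⬝ᵥ De v Ψ c s - l₀ ⬝ᵥ De v Ψ c t| := fun s t => by
      rcases le_total s t with e | e
      · rw [dist_comm, dist_eq_norm, abs_sub_comm]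
        exact (f.De_le hc.lipschitz e).trans (mul_le_mul_of_nonneg_left (le_abs_self _) f.pos.le)
      · rw [dist_eq_norm]
        exact (f.De_le hc.lipschitz e).trans (mul_le_mul_of_nonneg_left (le_abs_self _) f.pos.le)
    obtain ⟨a, ha⟩ := cau_FI hd (tendsto_atBot_ciInf hm ⟨l₀ ⬝ᵥ De v Ψ c 0 - M, by
      rintro _ ⟨t, rfl⟩
      rcases le_total t 0 with e | e
      · linarith [hb t 0 e]
      · linarith [hm e]⟩)
    obtain ⟨b, hb⟩ := cau_FI hd (tendsto_atTop_ciSup hm ⟨l₀ ⬝ᵥ De v Ψ c 0 + M, by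
      rintro _ ⟨t, rfl⟩
      rcases le_total t 0 with e | e
      · linarith [hm e]
      · linarith [hb 0 t e]⟩)
    exact ⟨b - a, hc, a, b, ha, hb, rfl⟩
  · rintro y ⟨hc, a, b, ha, hb, -⟩ ε T hε
    have hn : Tendsto (fun m : ℕ => (m : ℝ)) UU atTop := tendsto_natCast_atTop_atTop.mono_left UU_le
    constructor
    · obtain ⟨m, c', hz⟩ := near_FI h f hc (fun m => T + -(m : ℝ)) (fun t => ha.comp
        (tendsto_atBot_add_const_left _ t (tendsto_atBot_add_const_left _ T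
          (tendsto_neg_atTop_atBot.comp hn)))) hε
      exact ⟨_, by simp, c', hz⟩
    · obtain ⟨m, c', hz⟩ := near_FI h f hc (fun m => T + (m : ℝ)) (fun t => hb.comp
        (tendsto_atTop_add_const_left _ t (tendsto_atTop_add_const_left _ T hn))) hε
      exact ⟨_, by simp, c', hz⟩

theorem zc_pf : ZC_st n X := by
  intro h v l₀ Ψ A f T τ hτ
  constructor
  · refine (hτ.fin.countable.biUnion (t := fun t _ =>
      {z | ∃ c, Zer v Ψ c ∧ τ c = t ∧ z = Ψ (c 0) - (l₀ ⬝ᵥ Ψ (c 0)) • v}) fun t _ => ?_).mono ?_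
    · by_cases e : ∃ c₀, Zer v Ψ c₀ ∧ τ c₀ = t
      · obtain ⟨c₀, z₀, e⟩ := e
        refine (countable_range fun k : G n =>
          Ψ (c₀ 0) + cv k - (l₀ ⬝ᵥ Ψ (c₀ 0) + l₀ ⬝ᵥ cv k) • v).mono ?_
        rintro _ ⟨c, z, e', rfl⟩
        obtain ⟨k, b, r⟩ := hτ.rel c₀ c z₀.1 z.1 (e.trans e'.symm)
        refine ⟨k, ?_⟩
        simp only [r, f.eqv, z₀.eq (0 + b), dotProduct_add, dotProduct_smul, f.one, smul_eq_mul,
          mul_one, add_smul]
        abel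
      · refine countable_empty.mono ?_
        rintro _ ⟨c, z, e', -⟩
        exact e ⟨c, z, e'⟩
    · rintro _ ⟨c, z, rfl⟩
      exact mem_iUnion₂.2 ⟨τ c, ⟨c, z.1, rfl⟩, c, z, rfl, rfl⟩
  · intro z z' hz hl
    choose c hc e using hz
    have hp : ∀ m, Zer v Ψ fun t => c m (t + -(l₀ ⬝ᵥ Ψ (c m 0))) := fun m =>
      f.zer_rel h ⟨0, _, fun _ => (zero_vadd _ _).symm⟩ (hc m)
    obtain ⟨k, c', z₀, hk⟩ := lim_FI h f _ (fun m => (hp m).1) fun s t =>
      tendsto_const_nhds.congr fun m => (sub_eq_zero.2 ((hp m).2 s t)).symm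
    obtain ⟨K, hK⟩ := f.isEqv.1
    have h1 : Tendsto (fun m => cv (k m)) UU (𝓝 (Ψ (c' 0) - z')) :=
      (((hK.continuous.tendsto _).comp (hk 0)).sub hl).congr fun m => by
        simp only [Function.comp, f.eqv, e m]
        rw [(hc m).eq (0 + _), zero_add, neg_smul]
        abel
    choose k₀ hk₀ using fun i => Int.isClosedEmbedding_coe_real.isClosed_range.mem_of_tendsto
      (tendsto_pi_nhds.1 h1 i) (Eventually.of_forall fun m => ⟨k m i, rfl⟩)
    have h2 : cv k₀ = Ψ (c' 0) - z' := funext hk₀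
    have h3 : l₀ ⬝ᵥ z' = 0 := tendsto_nhds_unique (((cont_dot l₀).tendsto _).comp hl)
      (tendsto_const_nhds.congr fun m => by
        simp only [Function.comp, e m, dotProduct_sub, dotProduct_smul, f.one, smul_eq_mul, mul_one,
          sub_self])
    refine ⟨fun t => -k₀ +ᵥ c' (t + 0), f.zer_rel h ⟨-k₀, 0, fun _ => rfl⟩ z₀, ?_⟩
    have h4 : Ψ (-k₀ +ᵥ c' (0 + 0)) = z' := by
      rw [f.eqv, cv_neg, h2, add_zero]
      abel
    simp only [h4, h3, zero_smul, sub_zero]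

end Pool.Agent.MP_4d76c1_gt.Low
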