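import Pool.Agent.MP_4d76c1_gt.Low.St

/-! A frame adapted to an exposed facet. -/

set_option autoImplicit false

namespace Pool.Agent.MP_4d76c1_gt.Low

open Filter Topology Set

variable {n : Nat} {X : Type} [MetricSpace X] [AddAction (G n) X]

theorem norm_FR (v l₀ d : E n) {m D : ℝ} (hm : 0 ≤ m) (hd : ‖d‖ ≤ D) :
    ‖m • v - d + (l₀ ⬝ᵥ d) • v‖ ≤ ‖v‖ * m + (1 + n * ‖l₀‖ * ‖v‖) * D := by
  have h1 := norm_add_le (m • v - d) ((l₀ ⬝ᵥ d) • v)
  have h2 := norm_sub_le (m • v) d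
  rw [norm_smul, Real.norm_eq_abs] at h1 h2
  rw [abs_of_nonneg hm] at h2
  have h3 : |l₀ ⬝ᵥ d| ≤ n * ‖l₀‖ * D :=
    (abs_dot_le l₀ d).trans (mul_le_mul_of_nonneg_left hd (by positivity))
  have h4 := mul_le_mul_of_nonneg_right h3 (norm_nonneg v)
  linarith

theorem fr_pf : FR_st n X := by
  intro h v l₀ ⟨_, h1, ρ, hρ, hB⟩
  have hn : (0 : ℝ) < n := by
    rcases Nat.eq_zero_or_pos n with rfl | hn
    · simp at h1
    · exact_mod_cast hn
  obtain ⟨lam, hlam⟩ : ∃ lam : Fin n → E n, ∀ i y, lam i ⬝ᵥ y = y i - v i * (l₀ ⬝ᵥ y) :=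
    ⟨fun i => Pi.single i 1 - v i • l₀, fun i y => by
      rw [sub_dotProduct, single_dotProduct, smul_dotProduct, one_mul, smul_eq_mul]⟩
  have hM : 0 < ‖lam‖ + 1 := by positivity
  obtain ⟨r, hr⟩ : ∃ r : ℝ, r = ρ / (‖lam‖ + 1) := ⟨_, rfl⟩
  have hr0 : 0 < r := by rw [hr]; positivity
  have hn1 : ∀ i, ‖r • lam i‖ ≤ ρ := fun i => by
    rw [norm_smul, Real.norm_eq_abs, abs_of_pos hr0]
    have h2 := norm_le_pi_norm lam i
    have h3 : r * (‖lam‖ + 1) = ρ := by rw [hr]; field_simp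
    nlinarith
  have hv : ∀ i, (r • lam i) ⬝ᵥ v = 0 := fun i => by
    rw [smul_dotProduct, hlam, h1]; simp
  choose up hup using fun i => h.cal' (hB (r • lam i) (hv i) (hn1 i))
  choose um hum using fun i => h.cal' (hB (-(r • lam i)) (by rw [neg_dotProduct, hv, neg_zero])
    (by rw [norm_neg]; exact hn1 i))
  obtain ⟨u0, hu0⟩ : ∃ u0 : X → ℝ, ∀ x, 2 * n * u0 x = ∑ i, (up i x + um i x) :=
    ⟨fun x => (∑ i, (up i x + um i x)) / (2 * n), fun x => by field_simp⟩
  have e0 : ∀ (k : G n) (x : X), u0 (k +ᵥ x) = u0 x + l₀ ⬝ᵥ cv k := fun k x => by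
    have h2 : ∀ i, up i (k +ᵥ x) + um i (k +ᵥ x) = up i x + um i x + 2 * (l₀ ⬝ᵥ cv k) := fun i => by
      rw [(hup i).2, (hum i).2, add_dotProduct, add_dotProduct, neg_dotProduct]; ring
    have h3 := hu0 (k +ᵥ x)
    simp only [h2] at h3
    rw [Finset.sum_add_distrib, ← hu0, Finset.sum_const, Finset.card_univ, Fintype.card_fin,
      nsmul_eq_mul] at h3
    refine mul_left_cancel₀ (show 2 * (n : ℝ) ≠ 0 by positivity) ?_
    rw [h3]; ring
  obtain ⟨g, hg⟩ : ∃ g : X → E n, ∀ x i, g x i = (up i x - u0 x) / r :=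
    ⟨fun x i => (up i x - u0 x) / r, fun _ _ => rfl⟩
  have eg : ∀ (k : G n) (x : X), g (k +ᵥ x) = g x + cv k - (l₀ ⬝ᵥ cv k) • v := fun k x => by
    ext i
    simp only [Pi.sub_apply, Pi.add_apply, Pi.smul_apply, smul_eq_mul, hg]
    rw [(hup i).2, e0, add_dotProduct, smul_dotProduct, hlam, smul_eq_mul]
    field_simp
    ring
  refine ⟨fun x => g x + (u0 x - l₀ ⬝ᵥ g x) • v,
    ‖v‖ + (1 + n * ‖l₀‖ * ‖v‖) * ((2 * n + 1) / r) + 1, h1, by positivity, fun k x => ?_,
    fun x y τ hτ => ?_⟩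
  · rw [eg, e0, dotProduct_sub, dotProduct_add, dotProduct_smul, h1]
    ext i
    simp only [Pi.sub_apply, Pi.add_apply, Pi.smul_apply, smul_eq_mul]
    ring
  · obtain ⟨m, hm⟩ : ∃ m, m = τ - (u0 y - u0 x) := ⟨_, rfl⟩
    have ha : ∀ i, 0 ≤ τ - (up i y - up i x) := fun i => by linarith [lip_sub (hup i).1 x y]
    have ha' : ∀ i, 0 ≤ τ - (um i y - um i x) := fun i => by linarith [lip_sub (hum i).1 x y]
    have hs : ∑ i, ((τ - (up i y - up i x)) + (τ - (um i y - um i x))) = 2 * n * m := by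
      have h2 : ∀ i, (τ - (up i y - up i x)) + (τ - (um i y - um i x))
          = 2 * τ - (up i y + um i y) + (up i x + um i x) := fun i => by ring
      simp only [h2]
      rw [Finset.sum_add_distrib, Finset.sum_sub_distrib, ← hu0, ← hu0, Finset.sum_const,
        Finset.card_univ, Fintype.card_fin, nsmul_eq_mul, hm]
      ring
    have hle : ∀ i, τ - (up i y - up i x) ≤ 2 * n * m := fun i => by
      rw [← hs]
      refine le_trans ?_ (Finset.single_le_sum
        (f := fun i => (τ - (up i y - up i x)) + (τ - (um i y - um i x)))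
        (fun j _ => add_nonneg (ha j) (ha' j)) (Finset.mem_univ i))
      linarith [ha' i]
    have hm0 : 0 ≤ m := by
      have h2 : 0 ≤ 2 * n * m := by
        rw [← hs]; exact Finset.sum_nonneg fun j _ => add_nonneg (ha j) (ha' j)
      exact nonneg_of_mul_nonneg_right h2 (by positivity)
    have hd : ‖g y - g x‖ ≤ (2 * n + 1) / r * m := by
      refine (pi_norm_le_iff_of_nonneg (by positivity)).2 fun i => ?_
      have h2 : (g y - g x) i = (m - (τ - (up i y - up i x))) / r := by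
        rw [Pi.sub_apply, hg, hg, hm]; ring
      rw [h2, Real.norm_eq_abs, abs_div, abs_of_pos hr0, div_mul_eq_mul_div]
      refine div_le_div_of_nonneg_right (abs_le.2 ⟨?_, ?_⟩) hr0.le
      · linarith [hle i]
      · have : 0 ≤ n * m := by positivity
        linarith [ha i]
    have e1 : τ • v - (g y + (u0 y - l₀ ⬝ᵥ g y) • v - (g x + (u0 x - l₀ ⬝ᵥ g x) • v))
        = m • v - (g y - g x) + (l₀ ⬝ᵥ (g y - g x)) • v := by
      rw [dotProduct_sub, hm]
      ext i
      simp only [Pi.sub_apply, Pi.add_apply, Pi.smul_apply, smul_eq_mul]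
      ring
    have e2 : τ - l₀ ⬝ᵥ (g y + (u0 y - l₀ ⬝ᵥ g y) • v - (g x + (u0 x - l₀ ⬝ᵥ g x) • v)) = m := by
      rw [dotProduct_sub, dotProduct_add, dotProduct_add, dotProduct_smul, dotProduct_smul, h1, hm]
      simp only [smul_eq_mul]
      ring
    rw [e1, e2]
    refine (norm_FR v l₀ _ hm0 hd).trans ?_
    linarith

end Pool.Agent.MP_4d76c1_gt.Low
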