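import Pool.Agent.MP_4d76c1_gt.Low.St

/-! Counting the vectors which guard a facet. -/

set_option autoImplicit false

namespace Pool.Agent.MP_4d76c1_gt.Low

open Filter Topology Set

variable {n : Nat} {X : Type} [MetricSpace X] [AddAction (G n) X]

theorem neg_G {T : Type} {Bs : Set (E n)} {v l₀ : E n} {S : Set T} {y : T → E n}
    (hb : Bornology.IsBounded Bs) (hc : IsClosed Bs) (he : Exp Bs v l₀) (hg : Guard Bs v l₀ S y)
    {μ : E n} (h0 : μ ≠ 0) (hμ : μ ⬝ᵥ v = 0) : ∃ t ∈ S, μ ⬝ᵥ y t < 0 := by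
  obtain ⟨-, -, ρ, hρ, hE⟩ := he
  obtain ⟨C, hC⟩ := isBounded_iff_forall_norm_le.1 hb
  have hn : 0 < ‖μ‖ := norm_pos_iff.2 h0
  set A : Set ℝ := {r | 0 ≤ r ∧ l₀ + r • μ ∈ Bs} with hA
  have hcl : IsClosed A :=
    isClosed_Ici.inter (hc.preimage (f := fun r : ℝ => l₀ + r • μ) (by fun_prop))
  have hbd : BddAbove A := ⟨(C + ‖l₀‖) / ‖μ‖, fun r hr => by
    rw [le_div_iff₀ hn]
    have h1 := hC _ hr.2
    have h2 := norm_sub_le (l₀ + r • μ) l₀
    rw [add_sub_cancel_left, norm_smul, Real.norm_of_nonneg hr.1] at h2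
    linarith⟩
  have hr0 : ρ / ‖μ‖ ∈ A := ⟨by positivity, hE _ (by rw [smul_dotProduct, hμ, smul_zero]) (by
    rw [norm_smul, Real.norm_of_nonneg (by positivity), div_mul_cancel₀ _ hn.ne'])⟩
  have hR : sSup A ∈ A := hcl.csSup_mem ⟨_, hr0⟩ hbd
  have hRp : 0 < sSup A := lt_of_lt_of_le (by positivity) (le_csSup hbd hr0)
  obtain ⟨t, ht, h⟩ := hg.2 (sSup A • μ) (by rw [smul_dotProduct, hμ, smul_zero]) hR.2
    fun η hη hm => by
      rw [smul_smul] at hm
      have h1 : (1 + η) * sSup A ∈ A := ⟨by positivity, hm⟩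
      have h2 := le_csSup hbd h1
      nlinarith
  refine ⟨t, ht, ?_⟩
  have h1 := hg.1 t ht
  rw [add_dotProduct, smul_dotProduct, smul_eq_mul] at h
  by_contra hcon
  have := mul_nonneg hRp.le (not_lt.1 hcon)
  linarith

theorem orth_G (W : Finset (E n)) (hW : W.card < n) : ∃ μ : E n, μ ≠ 0 ∧ ∀ w ∈ W, μ ⬝ᵥ w = 0 := by
  have h := LinearMap.ker_ne_bot_of_finrank_lt
    (f := Matrix.mulVecLin (Matrix.of fun (w : W) (i : Fin n) => w.1 i)) (by simpa using hW)
  obtain ⟨μ, hμ, h0⟩ := Submodule.exists_mem_ne_zero_of_ne_bot h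
  refine ⟨μ, h0, fun w hw => ?_⟩
  have := congrFun (LinearMap.mem_ker.1 hμ) ⟨w, hw⟩
  rw [dotProduct_comm]
  exact this

theorem g1_pf : G1_st := by
  intro n T Bs v l₀ S y hn hb hc he hS hg
  classical
  by_contra hlt
  rw [not_le] at hlt
  rcases S.eq_empty_or_nonempty with rfl | ⟨t₀, ht₀⟩
  · obtain ⟨μ, h0, hμ⟩ := orth_G {v} (by rw [Finset.card_singleton]; omega)
    obtain ⟨t, ht, -⟩ := neg_G hb hc he hg h0 (hμ v (Finset.mem_singleton_self v))
    exact ht
  · have hcard : (insert v ((hS.toFinset.erase t₀).image y)).card < n := by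
      have h1 := Finset.card_insert_le v ((hS.toFinset.erase t₀).image y)
      have h2 := Finset.card_image_le (s := hS.toFinset.erase t₀) (f := y)
      have h3 := Finset.card_erase_add_one (hS.mem_toFinset.2 ht₀)
      rw [Set.ncard_eq_toFinset_card S hS] at hlt
      omega
    obtain ⟨μ, h0, hμ⟩ := orth_G _ hcard
    have hv : μ ⬝ᵥ v = 0 := hμ v (Finset.mem_insert_self _ _)
    have hy : ∀ t ∈ S, t ≠ t₀ → μ ⬝ᵥ y t = 0 := fun t ht e => hμ _ (Finset.mem_insert_of_mem
      (Finset.mem_image_of_mem y (Finset.mem_erase.2 ⟨e, hS.mem_toFinset.2 ht⟩)))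
    obtain ⟨t, ht, h⟩ := neg_G hb hc he hg h0 hv
    obtain ⟨t', ht', h'⟩ := neg_G hb hc he hg (neg_ne_zero.2 h0)
      (by rw [neg_dotProduct, hv, neg_zero])
    rw [neg_dotProduct] at h'
    have e1 : t = t₀ := by
      by_contra e
      exact h.ne (hy t ht e)
    have e2 : t' = t₀ := by
      by_contra e
      rw [hy t' ht' e] at h'
      simp at h'
    rw [e1] at h
    rw [e2] at h'
    linarith

theorem sgn_G (b : Bool) : |(if b then 1 else -1 : ℝ)| = 1 := by cases b <;> simp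

theorem g2_pf : G2_st := by
  intro n Bs v f hC
  obtain ⟨hd, rfl⟩ := hC
  have hii : ∀ i, f i ⬝ᵥ v i = 1 := fun i => by rw [hd, if_pos rfl]
  have hij : ∀ i j, i ≠ j → f i ⬝ᵥ v j = 0 := fun i j e => by rw [hd, if_neg e]
  refine ⟨fun i j σ σ' hσ _ e => ?_, fun i σ hσ => ?_⟩
  · have h := congrArg (fun w => f i ⬝ᵥ w) e
    simp only [dotProduct_smul, smul_eq_mul, hii, mul_one] at h
    by_cases hh : i = j
    · subst hh
      rw [hii, mul_one] at h
      exact ⟨rfl, h⟩
    · rw [hij i j hh, mul_zero] at h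
      rcases hσ with h' | h' <;> rw [h'] at h <;> norm_num at h
  have hσa : |σ| = 1 := by rcases hσ with h | h <;> simp [h]
  have hσ2 : σ * σ = 1 := by rcases hσ with h | h <;> simp [h]
  have hσ0 : σ ≠ 0 := by rcases hσ with h | h <;> simp [h]
  refine ⟨⟨fun l hl => ?_, ?_, 1 / (n * ‖v‖ + 1), by positivity, fun μ hμ hρ j => ?_⟩, ?_⟩
  · rw [dotProduct_smul, smul_eq_mul]
    refine (le_abs_self _).trans ?_
    rw [abs_mul, hσa, one_mul]
    exact hl i
  · rw [dotProduct_smul, smul_dotProduct, hii, smul_eq_mul, smul_eq_mul, mul_one, hσ2]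
  · rw [dotProduct_smul, smul_eq_mul, mul_eq_zero] at hμ
    rw [add_dotProduct, smul_dotProduct, smul_eq_mul]
    by_cases hh : i = j
    · subst hh
      rw [hii, hμ.resolve_left hσ0, mul_one, add_zero, hσa]
    · rw [hij i j hh, mul_zero, zero_add]
      refine (abs_dot_le _ _).trans ?_
      have h1 : ‖v j‖ ≤ ‖v‖ := norm_le_pi_norm v j
      have h2 : (0 : ℝ) < n * ‖v‖ + 1 := by positivity
      rw [le_div_iff₀ h2] at hρ
      have h3 : (n : ℝ) * ‖μ‖ * ‖v j‖ ≤ n * ‖μ‖ * ‖v‖ :=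
        mul_le_mul_of_nonneg_left h1 (by positivity)
      nlinarith [norm_nonneg μ]
  intro T S y hS hg hp
  have hex : ∀ p : {j : Fin n // j ≠ i} × Bool, ∃ t ∈ S,
      (σ • f i + (if p.2 then 1 else -1 : ℝ) • f p.1) ⬝ᵥ y t ≤ 0 := fun p => by
    refine hg.2 _ ?_ (fun k => ?_) fun η hη hm => ?_
    · rw [dotProduct_smul, smul_dotProduct, hij _ _ p.1.2, smul_zero, smul_zero]
    · rw [add_dotProduct, smul_dotProduct, smul_dotProduct, smul_eq_mul, smul_eq_mul]
      by_cases hk : i = k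
      · subst hk
        rw [hii, hij _ _ p.1.2, mul_one, mul_zero, add_zero, hσa]
      · rw [hij _ _ hk, mul_zero, zero_add, abs_mul, sgn_G, one_mul, hd]
        split_ifs <;> simp
    · have := hm p.1
      rw [add_dotProduct, smul_dotProduct, smul_dotProduct, smul_dotProduct, hii,
        hij _ _ p.1.2.symm, smul_zero, zero_add, smul_eq_mul, smul_eq_mul, mul_one, abs_mul,
        sgn_G, mul_one, abs_of_pos (by positivity)] at this
      linarith
  choose t ht hle using hex
  have hinj : Function.Injective t := by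
    rintro ⟨⟨j, hj⟩, b⟩ ⟨⟨j', hj'⟩, b'⟩ e
    have h1 := hle ⟨⟨j, hj⟩, b⟩
    have h2 := hle ⟨⟨j', hj'⟩, b'⟩
    have h3 := hg.1 _ (ht ⟨⟨j', hj'⟩, b'⟩)
    have h4 := hp _ (ht ⟨⟨j', hj'⟩, b'⟩)
    rw [e] at h1
    generalize y (t ⟨⟨j', hj'⟩, b'⟩) = w at h1 h2 h3 h4
    simp only [add_dotProduct, smul_dotProduct, smul_eq_mul] at h1 h2 h3
    by_cases hh : j = j'
    · subst hh
      by_contra hne
      have hb : b ≠ b' := fun e' => hne (by rw [e'])
      cases b <;> cases b' <;> simp at hb h1 h2 <;> linarith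
    · exfalso
      have h5 := h4 (σ • f i + (if b then 1 else -1 : ℝ) • f j + (if b' then 1 else -1 : ℝ) • f j')
        (fun k => by
          simp only [add_dotProduct, smul_dotProduct, smul_eq_mul]
          by_cases hk : i = k
          · subst hk
            rw [hii, hij _ _ hj, hij _ _ hj', mul_one, mul_zero, mul_zero, add_zero, add_zero, hσa]
          · rw [hij _ _ hk, mul_zero, zero_add]
            by_cases hk' : j = k
            · subst hk'
              rw [hii, hij _ _ (Ne.symm hh), mul_zero, add_zero, mul_one, sgn_G]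
            · rw [hij _ _ hk', mul_zero, zero_add, abs_mul, sgn_G, one_mul, hd]
              split_ifs <;> simp)
        (by
          simp only [add_dotProduct, smul_dotProduct, dotProduct_smul, smul_eq_mul]
          rw [hii, hij _ _ hj, hij _ _ hj']
          linarith)
      simp only [add_dotProduct, smul_dotProduct, smul_eq_mul] at h5
      linarith
  have h := Set.ncard_le_ncard_of_injOn (s := univ) t (fun p _ => ht p) hinj.injOn hS
  rw [Set.ncard_univ, Nat.card_prod, Nat.card_eq_fintype_card, Nat.card_eq_fintype_card,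
    Fintype.card_bool, Fintype.card_subtype_compl, Fintype.card_fin, Fintype.card_subtype_eq] at h
  omega

end Pool.Agent.MP_4d76c1_gt.Low
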