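import Pool.Agent.MP_4d76c1_gt.Low.St

/-! The defect vectors guard the facet. -/

set_option autoImplicit false

namespace Pool.Agent.MP_4d76c1_gt.Low

open Filter Topology Set

variable {n : ℕ} {X : Type} [MetricSpace X] [AddAction (G n) X]

theorem eta_GY {T : Type} {S : Set T} (hS : S.Finite) (a b : T → ℝ)
    (h : ∀ t ∈ S, 0 < a t ∨ (0 ≤ a t ∧ 0 ≤ b t)) : ∃ η : ℝ, 0 < η ∧ ∀ t ∈ S, 0 ≤ a t + η * b t := by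
  have h1 : ∀ᶠ η : ℝ in 𝓝[>] 0, ∀ t ∈ S, 0 ≤ a t + η * b t := by
    refine (eventually_all_finite hS).2 fun t ht => ?_
    rcases h t ht with k | k
    · have c : Continuous fun η : ℝ => a t + η * b t := by fun_prop
      exact ((c.tendsto' 0 (a t) (by simp)).eventually (le_mem_nhds k)).filter_mono
        nhdsWithin_le_nhds
    · filter_upwards [self_mem_nhdsWithin] with η hη
      exact add_nonneg k.1 (mul_nonneg (le_of_lt hη) k.2)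
  obtain ⟨η, h2, h3⟩ := (h1.and self_mem_nhdsWithin).exists
  exact ⟨η, h3, h2⟩

theorem dot_GY (l₀ μ y : E n) (η : ℝ) :
    (l₀ + (1 + η) • μ) ⬝ᵥ y = (l₀ + μ) ⬝ᵥ y + η * (μ ⬝ᵥ y) := by
  simp only [add_dotProduct, smul_dotProduct, smul_eq_mul]
  ring

theorem gy2_pf (hKL : KL_st n X) (hM : M1_st n X) : GY2_st n X := by
  rintro h v l₀ Ψ A f T τ hτ ⟨γ, hγ⟩
  obtain ⟨y, hy⟩ : ∃ y : T → E n, ∀ c y', Fi v Ψ c y' → y (τ c) = y' := by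
    refine ⟨fun t => Classical.epsilon fun y => ∃ c, τ c = t ∧ Fi v Ψ c y, fun c y' hc => ?_⟩
    obtain ⟨c', e, hc'⟩ := Classical.epsilon_spec (p := fun y => ∃ c', τ c' = τ c ∧ Fi v Ψ c' y)
      ⟨y', c, rfl, hc⟩
    exact (f.fi_rel h (hτ.rel c' c hc'.1 hc.1 e) hc').uniq hc
  refine ⟨y, ⟨?_, fun μ h1 _ h3 => ?_⟩, fun hn => ?_⟩
  · rintro _ ⟨c, ⟨y', h0, hc⟩, rfl⟩
    rw [hy c y' hc]
    exact not_le.1 fun k => h0 (hc.uniq (f.fi_zer hc k).fi)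
  · by_contra hc
    obtain ⟨η, hη, k⟩ := eta_GY (S := τ '' {c | ∃ y, y ≠ 0 ∧ Fi v Ψ c y})
      (hτ.fin.subset (image_mono fun c ⟨_, _, hc⟩ => hc.1)) (fun t => (l₀ + μ) ⬝ᵥ y t)
      (fun t => μ ⬝ᵥ y t) fun t ht => Or.inl (not_le.1 fun e => hc ⟨t, ht, e⟩)
    refine h3 η hη (hKL h v l₀ Ψ A f T τ hτ γ hγ _ ?_ fun c y' hc => ?_)
    · rw [dot_GY, add_dotProduct, h1, f.one]
      simp
    · by_cases h0 : y' = 0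
      · rw [h0, dotProduct_zero]
      · rw [dot_GY, ← hy c y' hc]
        exact k _ ⟨c, ⟨y', h0, hc⟩, rfl⟩
  · rintro _ ⟨c, ⟨y', -, hc⟩, rfl⟩ l hl h1
    obtain ⟨u, hu⟩ := h.cal' hl
    rw [hy c y' hc]
    refine hM h v l₀ Ψ A f γ hγ (fun c' hc' => hτ.rel γ c' hγ.1 hc'.1 ?_) c y' hc l u hu h1
    exact (ncard_le_one (hτ.fin.subset (image_mono fun c hc => hc.1))).1 hn _ ⟨γ, hγ, rfl⟩ _
      ⟨c', hc', rfl⟩

theorem gy3_pf (hHT : HT_st n X) (hY : Y3_st n X) (hFR : FR_st n X) (hZ : Z0_st n X) :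
    GY3_st n X := by
  rintro h v l₀ Ψ A f T τ hτ ⟨γ, hγ⟩ Q hQ
  have key : ∀ t : T, ∃ y : E n,
      t ∈ τ '' {c | Isometry c ∧ Dir Ψ c v ∧ ¬ Bd (fun x => l₀ ⬝ᵥ Ψ x) c} →
      ∃ c, Isometry c ∧ τ c = t ∧ l₀ ⬝ᵥ y = 1 ∧ ∀ (l : E n) (u : X → ℝ), Cal l u → l ⬝ᵥ v = 1 →
        0 ≤ l ⬝ᵥ y ∧ (Bd u c → l ⬝ᵥ y ≤ 0) := fun t => by
    by_cases ht : t ∈ τ '' {c | Isometry c ∧ Dir Ψ c v ∧ ¬ Bd (fun x => l₀ ⬝ᵥ Ψ x) c}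
    · obtain ⟨c, hc, e⟩ := ht
      obtain ⟨y, hy⟩ := hY h v l₀ Ψ A f c hc.1 hc.2.2
      exact ⟨y, fun _ => ⟨c, hc.1, e, hy⟩⟩
    · exact ⟨0, fun k => absurd k ht⟩
  choose y hy using key
  refine ⟨y, ⟨fun t ht => ?_, fun μ h1 h2 h3 => ?_⟩, fun t ht l hl h1 => ?_⟩
  · obtain ⟨c, -, -, k, -⟩ := hy t ht
    rw [k]
    exact one_pos
  · have h4 : ∀ q ∈ Q, (l₀ + μ) ⬝ᵥ q ≤ 1 := by rwa [hQ.2] at h2
    obtain ⟨q, hq, q1, q2⟩ : ∃ q ∈ Q, (l₀ + μ) ⬝ᵥ q = 1 ∧ 0 < μ ⬝ᵥ q := by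
      by_contra hc
      obtain ⟨η, hη, k⟩ := eta_GY Q.finite_toSet (fun q => 1 - (l₀ + μ) ⬝ᵥ q)
        (fun q => -(μ ⬝ᵥ q)) fun q hq => by
          rcases (h4 q hq).eq_or_lt with e | e
          · exact Or.inr ⟨by linarith, neg_nonneg.2 (not_lt.1 fun e' => hc ⟨q, hq, e, e'⟩)⟩
          · exact Or.inl (by linarith)
      refine h3 η hη ?_
      rw [hQ.2]
      intro q hq
      have := k q hq
      rw [dot_GY]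
      linarith
    obtain ⟨l₁, e₁⟩ := hQ.1 q hq
    obtain ⟨Ψ', A', f'⟩ := hFR h q l₁ e₁
    obtain ⟨γ', hγ'⟩ := hZ h q l₁ Ψ' A' f' e₁
    obtain ⟨C, -, hC⟩ := h.bdd_eqv f.isEqv f'.isEqv
    obtain ⟨u, hu⟩ := h.cal' h2
    have h5 : (l₀ + μ) ⬝ᵥ v = 1 := by rw [add_dotProduct, h1, f.one, add_zero]
    obtain ⟨c, c1, c2, c3, c4⟩ := hHT h v l₀ Ψ A f T τ hτ γ hγ _ u hu h5 q γ' hγ'.1.lipschitz
      ⟨C + ‖Ψ' (γ' 0)‖, fun t => by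
        have e : Ψ (γ' t) - t • q = (Ψ (γ' t) - Ψ' (γ' t)) + Ψ' (γ' 0) := by
          rw [hγ'.eq t]
          abel
        rw [e]
        exact norm_add_le_of_le (hC _) le_rfl⟩ q1 (by
        rw [add_dotProduct] at q1
        linarith)
    obtain ⟨c', d1, d2, -, d3⟩ := hy (τ c) ⟨c, ⟨c1, c2, c3⟩, rfl⟩
    exact ⟨τ c, ⟨c, ⟨c1, c2, c3⟩, rfl⟩,
      (d3 _ u hu h5).2 (hu.bd_rel (hτ.rel c c' c1 d1 d2.symm) c4)⟩
  · obtain ⟨c, -, -, -, k⟩ := hy t ht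
    obtain ⟨u, hu⟩ := h.cal' hl
    exact (k l u hu h1).1

end Pool.Agent.MP_4d76c1_gt.Low
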