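import Pool.Agent.MP_4d76c1_gt.Low.St

/-! A line of infinite mass and bounded defect for a second calibration. -/

set_option autoImplicit false

namespace Pool.Agent.MP_4d76c1_gt.Low

open Filter Topology Set

variable {n : Nat} {X : Type} [MetricSpace X] [AddAction (G n) X]

theorem cut_HT {g : ℝ → ℝ} (hg : Continuous g) {M a a' : ℝ} (h1 : M ≤ g a')
    (h2 : ∀ t ≤ a, g t < M) : ∃ t₀, M ≤ g t₀ ∧ ∀ t < t₀, g t < M := by
  have hb : BddBelow {t | M ≤ g t} :=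
    ⟨a, fun t ht => le_of_not_ge fun e => absurd ht (not_le.2 (h2 t e))⟩
  refine ⟨sInf {t | M ≤ g t}, (isClosed_le continuous_const hg).csInf_mem ⟨a', h1⟩ hb,
    fun t ht => lt_of_not_ge fun e => absurd ht (not_lt.2 (csInf_le hb e))⟩

theorem growth_HT {φ : ℝ → ℝ} (hm : Monotone φ) {R L : ℝ} (hR : 0 < R) (hL : 0 ≤ L)
    (h : ∀ t < 0, φ (t + R) - φ t ≤ L) (t : ℝ) (ht : 0 ≤ t) : φ 0 - φ (-t) ≤ L / R * t + L := by
  have h1 : ∀ j : ℕ, φ 0 - φ (-(j * R)) ≤ j * L := fun j => by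
    induction j with
    | zero => simp
    | succ j ih =>
      have h2 := h (-((j + 1 : ℕ) * R)) (by
        have : (0 : ℝ) < (j + 1 : ℕ) * R := by positivity
        linarith)
      have e : -(((j + 1 : ℕ) : ℝ) * R) + R = -(j * R) := by push_cast; ring
      rw [e] at h2
      have e2 : ((j + 1 : ℕ) : ℝ) * L = j * L + L := by push_cast; ring
      linarith
  have h2 : t / R ≤ (⌈t / R⌉₊ : ℝ) := Nat.le_ceil _
  have h3 : (⌈t / R⌉₊ : ℝ) < t / R + 1 := Nat.ceil_lt_add_one (by positivity)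
  have h4 := hm (neg_le_neg ((div_le_iff₀ hR).1 h2))
  have h5 := h1 ⌈t / R⌉₊
  have h6 := mul_le_mul_of_nonneg_right h3.le hL
  have e : (t / R + 1) * L = L / R * t + L := by ring
  linarith

theorem incr_HT {l : E n} {u : X → ℝ} (hu : Cal l u) {k : ℕ → G n} {q : ℕ → ℝ → X} {c : ℝ → X}
    (hc : ∀ t, Tendsto (fun m => k m +ᵥ q m t) UU (𝓝 (c t))) (s t : ℝ) :
    Tendsto (fun m => u (q m t) - u (q m s)) UU (𝓝 (u (c t) - u (c s))) := by
  refine (((hu.1.continuous.tendsto _).comp (hc t)).sub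
    ((hu.1.continuous.tendsto _).comp (hc s))).congr fun m => ?_
  simp only [Function.comp, hu.2]
  ring

theorem near_HT {F : X → E n} {w : E n} {c : ℝ → X} {C : ℝ} (hC : ∀ t, ‖F (c t) - t • w‖ ≤ C)
    (l : E n) : ∃ K : ℝ, ∀ t, |l ⬝ᵥ F (c t) - t * (l ⬝ᵥ w)| ≤ K := by
  refine ⟨n * ‖l‖ * C, fun t => ?_⟩
  have h1 := abs_dot_le l (F (c t) - t • w)
  rw [dotProduct_sub, dotProduct_smul, smul_eq_mul] at h1
  exact h1.trans (mul_le_mul_of_nonneg_left (hC t) (by positivity))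

theorem ht_pf (hDR : DR_st n X) (hFI : FI_st n X) (hBU : BU_st X) (hPE : PE_st n X) :
    HT_st n X := by
  intro hS v l₀ Ψ A f T τ hτ γ hγ l u hu hlv w γ' hγ' ⟨C, hC⟩ hlw h0w
  obtain ⟨C0, -, hC0⟩ := hS.bdd_cal f.isEqv hu
  obtain ⟨b, hb1, hb2, hb3⟩ := hBU γ hγ.1
  obtain ⟨K, hK⟩ := near_HT hC l
  obtain ⟨K0, hK0⟩ := near_HT hC l₀
  have hγd : ∀ (l' : E n), l' ⬝ᵥ v = 1 → ∀ t, l' ⬝ᵥ Ψ (γ t) = l' ⬝ᵥ Ψ (γ 0) + t :=
    fun l' hl' t => by rw [hγ.eq t, dotProduct_add, dotProduct_smul, hl', smul_eq_mul, mul_one]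
  obtain ⟨C1, hC1⟩ : ∃ C1 : ℝ, ∀ x, u x ≤ b x + C1 := by
    refine ⟨1 + l ⬝ᵥ Ψ (γ 0) + C0, fun x => ?_⟩
    obtain ⟨T', hT⟩ := hb3 x 1 one_pos
    have h1 := lip_sub hu.1 (γ (-T')) x
    have h2 := (abs_le.1 (hC0 (γ (-T')))).1
    have h3 := hγd l hlv (-T')
    linarith
  have huγ : ∀ S, S - (K + C0) ≤ u (γ' S) := fun S => by
    have h1 := (abs_le.1 (hK S)).1
    have h2 := (abs_le.1 (hC0 (γ' S))).2
    rw [hlw, mul_one] at h1
    linarith
  have hex := fun m : ℕ => hPE hS γ γ' b hγ.1 hγ' ⟨hb1, hb2, hb3⟩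
    ⟨K + C0 + C1, fun S _ => by linarith [huγ S, hC1 (γ' S)]⟩ (1 / ((m : ℝ) + 1))
    Nat.one_div_pos_of_nat
  choose p a a' S hp hS0 hpa hpa' hpb using hex
  obtain ⟨C5, hC5⟩ : ∃ C5 : ℝ, ∀ m s t, t - s - (u (p m t) - u (p m s)) ≤ C5 := by
    refine ⟨b (γ' 0) + 1 + (K + C0) + C1, fun m s t => ?_⟩
    have h1 := hC1 (p m s)
    have h2 := (hpb m s).2
    have h3 := (lip_sub hu.1 _ _).trans (lip_path (hp m) (le_max_left t (a' m)))
    have h4 := (hpb m (max t (a' m))).1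
    have h5 := hpa' m _ (le_max_right t (a' m))
    have h6 : 0 ≤ S m + max t (a' m) - a' m := by linarith [hS0 m, le_max_right t (a' m)]
    have h7 := (lip_sub hb1 _ _).trans (lip_path hγ' h6)
    have h8 := huγ (S m + max t (a' m) - a' m)
    have h9 : 1 / ((m : ℝ) + 1) ≤ 1 := by
      rw [div_le_one (by positivity)]
      linarith [(Nat.cast_nonneg m : (0 : ℝ) ≤ m)]
    rw [← h5] at h7 h8
    linarith
  obtain ⟨M, hM0, hM⟩ : ∃ M : ℝ, 0 ≤ M ∧ ∀ c y, Fi v Ψ c y → l₀ ⬝ᵥ y ≤ M := by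
    obtain ⟨M, hM⟩ := ((hτ.finite (Fi v Ψ) (fun c z z' h h' => h.uniq h')
      fun c c' z _ hr h => f.fi_rel hS hr h).image fun y => l₀ ⬝ᵥ y).bddAbove
    exact ⟨max M 0, le_max_right _ _, fun c y h =>
      (hM (mem_image_of_mem _ ⟨c, h.1, h⟩)).trans (le_max_left _ _)⟩
  obtain ⟨δ, hδ, hδv⟩ : ∃ δ : ℝ, 0 < δ ∧
      ∀ c w', Isometry c → Dir Ψ c w' → ‖v - w'‖ < δ → w' = v := by
    have h1 := hτ.finite (Dir Ψ) (fun c z z' h h' => tendsto_nhds_unique h h')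
      fun c c' z hc hr h => ((hDR hS Ψ f.isEqv c hc.lipschitz).2 z h).1 c' hr
    obtain ⟨δ, hδ, h2⟩ := Metric.isOpen_iff.1
      (h1.subset (diff_subset (t := {v}))).isClosed.isOpen_compl v fun h => h.2 rfl
    refine ⟨δ, hδ, fun c w' hc hw h => by_contra fun e => h2 ?_ ⟨⟨c, hc, hw⟩, e⟩⟩
    rwa [Metric.mem_ball, dist_comm, dist_eq_norm]
  have hA := f.pos
  obtain ⟨R, hR1, hR2⟩ : ∃ R : ℝ, A * (M + 1) / δ < R ∧
      (M + 1 + 2 * K0) / (1 - l₀ ⬝ᵥ w) ≤ R :=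
    ⟨max (A * (M + 1) / δ + 1) _, (lt_add_one _).trans_le (le_max_left _ _), le_max_right _ _⟩
  have hR : 0 < R := lt_trans (by positivity) hR1
  rw [div_le_iff₀ (sub_pos.2 h0w)] at hR2
  have hcut : ∀ m, ∃ t₀, M + 1 ≤ R - (l₀ ⬝ᵥ Ψ (p m (t₀ + R)) - l₀ ⬝ᵥ Ψ (p m t₀)) ∧
      ∀ t < t₀, R - (l₀ ⬝ᵥ Ψ (p m (t + R)) - l₀ ⬝ᵥ Ψ (p m t)) < M + 1 := fun m => by
    have hc := f.cal.1.continuous.comp (hp m).continuous
    refine cut_HT (g := fun t => R - (l₀ ⬝ᵥ Ψ (p m (t + R)) - l₀ ⬝ᵥ Ψ (p m t)))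
      (a := a m - R) (a' := a' m)
      (continuous_const.sub ((hc.comp (continuous_add_right R)).sub hc)) ?_ fun t ht => ?_
    · beta_reduce
      rw [hpa' m (a' m + R) (by linarith), hpa' m (a' m) le_rfl]
      have h1 := (abs_le.1 (hK0 (S m + (a' m + R) - a' m))).2
      have h2 := (abs_le.1 (hK0 (S m + a' m - a' m))).1
      linarith
    · beta_reduce
      rw [hpa m (t + R) (by linarith), hpa m t (by linarith), hγd l₀ f.one (t + R),
        hγd l₀ f.one t]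
      linarith
  choose t₀ ht1 ht2 using hcut
  obtain ⟨k, c, hc, hlim⟩ := hS.lim (fun m t => p m (t + t₀ m)) fun m => lip_shift (hp m) _
  have hiso : Isometry c := isometry_of_le hc fun s t _ => by
    have h1 : Tendsto (fun m : ℕ => t - s - 1 / ((m : ℝ) + 1)) UU (𝓝 (t - s - 0)) :=
      (tendsto_one_div_add_atTop_nhds_zero_nat.mono_left UU_le).const_sub _
    rw [sub_zero] at h1
    refine le_of_tendsto_of_tendsto' h1 ((hlim s).dist (hlim t)) fun m => ?_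
    have h2 := lip_sub hb1 (p m (s + t₀ m)) (p m (t + t₀ m))
    have h3 := (hpb m (s + t₀ m)).2
    have h4 := (hpb m (t + t₀ m)).1
    simp only [hS.iso]
    linarith
  refine ⟨c, hiso, ?_, fun hB => ?_, C5, fun s t _ => ?_⟩
  · obtain ⟨⟨w', hw⟩, h1⟩ := hDR hS Ψ f.isEqv c hc
    have h2 : ∀ t < 0, l₀ ⬝ᵥ De v Ψ c (t + R) - l₀ ⬝ᵥ De v Ψ c t ≤ M + 1 := fun t ht => by
      have h3 := le_of_tendsto' ((incr_HT f.cal hlim t (t + R)).const_sub R) fun m => by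
        have h4 := ht2 m (t + t₀ m) (by linarith)
        rw [add_right_comm] at h4
        exact h4.le
      rw [f.dot_De f.one, f.dot_De f.one]
      linarith
    have h3 := (h1 w' hw).2.2.2 v (A * (M + 1) / R) (A * (M + 1)) fun t ht => by
      have h4 := f.De_le hc (neg_nonpos.2 ht)
      have h5 := mul_le_mul_of_nonneg_left
        (growth_HT (f.De_mono hc) hR (by linarith) h2 t ht) hA.le
      have e : De v Ψ c 0 - De v Ψ c (-t) = t • v - (Ψ (c 0) - Ψ (c (-t))) := by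
        simp only [De, zero_smul, neg_smul]
        abel
      rw [e] at h4
      have e2 : A * ((M + 1) / R * t + (M + 1)) = A * (M + 1) / R * t + A * (M + 1) := by ring
      exact h4.trans (h5.trans e2.le)
    have h4 : A * (M + 1) / R < δ := by
      rw [div_lt_iff₀ hδ] at hR1
      rw [div_lt_iff₀ hR]
      linarith
    exact hδv c w' hiso hw (h3.trans_lt h4) ▸ hw
  · obtain ⟨y, hy⟩ := (hFI hS v l₀ Ψ A f c).1 hiso hB
    have h1 := (f.fi_le hy 0 R).trans (hM c y hy)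
    have h2 := ge_of_tendsto' ((incr_HT f.cal hlim 0 R).const_sub R) fun m => by
      have h3 := ht1 m
      rw [add_comm (t₀ m) R] at h3
      rw [zero_add]
      exact h3
    rw [f.dot_De f.one, f.dot_De f.one] at h1
    linarith
  · refine le_of_tendsto' ((incr_HT hu hlim s t).const_sub (t - s)) fun m => ?_
    have h1 := hC5 m (s + t₀ m) (t + t₀ m)
    linarith

end Pool.Agent.MP_4d76c1_gt.Low
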