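import Pool.Agent.MP_4d76c1_gt.Low.St

set_option autoImplicit false

namespace Pool.Agent.MP_4d76c1_gt.Low

open Filter Topology Set

variable {n : ℕ} {X : Type} [MetricSpace X] [AddAction (G n) X]

theorem last_KL {g : ℝ → ℝ} (hg : Continuous g) {η a a' : ℝ} (ha : η ≤ g a)
    (ha' : ∀ t ≥ a', g t < η) : ∃ t₀, g t₀ = η ∧ ∀ t ≥ t₀, g t ≤ η := by
  have hb : BddAbove {t | η ≤ g t} :=
    ⟨a', fun t ht => le_of_not_gt fun e => (ha' t e.le).not_ge ht⟩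
  have hm := (isClosed_le continuous_const hg).csSup_mem ⟨a, ha⟩ hb
  have h1 : Ioi (sSup {t | η ≤ g t}) ⊆ {t | g t ≤ η} := fun t ht =>
    show g t ≤ η from le_of_not_gt fun e => (le_csSup hb (show t ∈ {t | η ≤ g t} from e.le)).not_gt ht
  have h2 := (isClosed_le hg continuous_const).closure_subset_iff.2 h1
  rw [closure_Ioi] at h2
  exact ⟨_, le_antisymm (h2 (mem_Ici.2 le_rfl)) hm, fun t ht => h2 ht⟩

/-- the transverse part -/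
def Nt_KL (v l₀ : E n) (Ψ : X → E n) (x : X) : E n := Ψ x - (l₀ ⬝ᵥ Ψ x) • v

section
variable {v l₀ : E n} {Ψ : X → E n} {A : ℝ} (f : Fr v l₀ Ψ A)
include f

theorem zdot_KL {c : ℝ → X} (hc : Zer v Ψ c) {l : E n} (hl : l ⬝ᵥ v = 1) (t : ℝ) :
    l ⬝ᵥ Ψ (c t) = l ⬝ᵥ Ψ (c 0) + t := by
  have _ := f
  rw [hc.eq t, dotProduct_add, dotProduct_smul, hl, smul_eq_mul, mul_one]

theorem Nz_KL {c : ℝ → X} (hc : Zer v Ψ c) (t : ℝ) : Nt_KL v l₀ Ψ (c t) = Nt_KL v l₀ Ψ (c 0) := by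
  rw [Nt_KL, Nt_KL, zdot_KL f hc f.one, hc.eq t, add_smul]; abel

theorem Ndot_KL {l : E n} (hl : l ⬝ᵥ v = 1) (x : X) :
    (l - l₀) ⬝ᵥ Nt_KL v l₀ Ψ x = l ⬝ᵥ Ψ x - l₀ ⬝ᵥ Ψ x := by
  simp only [Nt_KL, sub_dotProduct, dotProduct_sub, dotProduct_smul, hl, f.one, smul_eq_mul]
  ring

theorem Ncont_KL : Continuous (Nt_KL v l₀ Ψ) := by
  obtain ⟨K, hK⟩ := f.isEqv.1
  exact hK.continuous.sub (((cont_dot l₀).comp hK.continuous).smul continuous_const)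

theorem Nadd_KL (k : G n) (x y : X) : Nt_KL v l₀ Ψ (k +ᵥ x) =
    Nt_KL v l₀ Ψ x - Nt_KL v l₀ Ψ y + Nt_KL v l₀ Ψ (k +ᵥ y) := by
  simp only [Nt_KL, f.eqv, dotProduct_add, add_smul]; abel

theorem mu_KL {γ : ℝ → X} (hγ : Zer v Ψ γ) {b : X → ℝ} (hb : Bus γ b) (x : X) :
    l₀ ⬝ᵥ Ψ x - l₀ ⬝ᵥ Ψ (γ 0) ≤ b x := by
  refine le_of_forall_pos_le_add fun ε hε => ?_
  obtain ⟨T, hT⟩ := hb.2.2 x ε hε
  have h1 := f.le (γ (-T)) x
  rw [zdot_KL f hγ f.one] at h1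
  linarith

theorem step_KL (hFI : FI_st n X) (hZC : ZC_st n X) (hPE : PE_st n X) (h : Sp n X)
    {T : Type} {τ : (ℝ → X) → T} (hτ : Fint n τ) {γ : ℝ → X} (hγ : Zer v Ψ γ) {b : X → ℝ}
    (hb : Bus γ b) {l : E n} (hl : l ⬝ᵥ v = 1) (hy : ∀ c y, Fi v Ψ c y → 0 ≤ l ⬝ᵥ y) {δ : ℝ}
    (hδ : 0 < δ) (hδ' : ∀ c y, Fi v Ψ c y → ¬ Zer v Ψ c → δ ≤ l₀ ⬝ᵥ y) {c : ℝ → X}
    (hc : Zer v Ψ c) (hβ : b (c 0) < l ⬝ᵥ Ψ (c 0) - l ⬝ᵥ Ψ (γ 0)) :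
    ∃ c', Zer v Ψ c' ∧ b (c' 0) < l ⬝ᵥ Ψ (c' 0) - l ⬝ᵥ Ψ (γ 0) ∧
      b (c' 0) - l₀ ⬝ᵥ Ψ (c' 0) ≤ b (c 0) - l₀ ⬝ᵥ Ψ (c 0) - δ / 2 := by
  have hμ := mu_KL f hγ hb
  obtain ⟨hZ1, hZ2⟩ := hZC h v l₀ Ψ A f T τ hτ
  obtain ⟨K, hK⟩ := f.isEqv.lip_dot l
  obtain ⟨K', hK'⟩ := f.isEqv.1
  obtain ⟨θ, hθ⟩ : ∃ θ, θ = l ⬝ᵥ Ψ (c 0) - l ⬝ᵥ Ψ (γ 0) - b (c 0) := ⟨_, rfl⟩
  have hθ0 : 0 < θ := by linarith
  have hz : Nt_KL v l₀ Ψ (γ 0) - Nt_KL v l₀ Ψ (c 0) ≠ 0 := fun e => by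
    have h1 := Ndot_KL f hl (γ 0)
    have h2 := Ndot_KL f hl (c 0)
    rw [sub_eq_zero.1 e] at h1
    linarith [hμ (c 0)]
  have hL : 0 < n * ‖l - l₀‖ + 1 := by positivity
  obtain ⟨η, hηD, hη0, hη1⟩ := ((hZ1.image2 hZ1 fun a b => ‖a - b‖).dense_compl ℝ).exists_between
    (lt_min (norm_pos_iff.2 hz) (div_pos hθ0 (mul_pos four_pos hL)))
  obtain ⟨hη1, hη2⟩ := lt_min_iff.1 hη1
  have hη3 : n * ‖l - l₀‖ * η ≤ θ / 4 := by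
    rw [lt_div_iff₀ (mul_pos four_pos hL)] at hη2
    nlinarith
  have hcb : ∀ t, 0 ≤ t → b (c t) ≤ b (c 0) + t := fun t ht => by
    have h1 := lip_sub hb.1 (c 0) (c t)
    have h2 := lip_path hc.1.lipschitz ht
    linarith
  choose p a a' S hp hS hpa hpa' hpb using fun m : ℕ => hPE h γ c b hγ.1 hc.1.lipschitz hb
    ⟨l₀ ⬝ᵥ Ψ (γ 0) - l₀ ⬝ᵥ Ψ (c 0), fun S _ => by
      have h1 := hμ (c S)
      rw [zdot_KL f hc f.one] at h1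
      linarith⟩ (1 / (m + 1)) Nat.one_div_pos_of_nat
  choose t₀ ht₀ ht₁ using fun m : ℕ => last_KL (η := η) (a := a m) (a' := a' m)
    (g := fun t => ‖Nt_KL v l₀ Ψ (p m t) - Nt_KL v l₀ Ψ (c 0)‖)
    ((((Ncont_KL f).comp (hp m).continuous).sub continuous_const).norm)
    (by simp only [hpa m _ le_rfl, Nz_KL f hγ (a m)]; exact hη1.le)
    (fun t ht => by simp only [hpa' m t ht, Nz_KL f hc (S m + t - a' m), sub_self, norm_zero, hη0])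
  have hε : Tendsto (fun m : ℕ => (1 : ℝ) / (m + 1)) UU (𝓝 0) :=
    tendsto_one_div_add_atTop_nhds_zero_nat.mono_left UU_le
  have hmono : ∀ m s t, s ≤ t → s - l₀ ⬝ᵥ Ψ (p m s) ≤ t - l₀ ⬝ᵥ Ψ (p m t) := fun m s t e => by
    have := f.De_mono (hp m) e
    simpa only [f.dot_De f.one] using this
  have hend : ∀ m t, a' m ≤ t → ∀ l' : E n, l' ⬝ᵥ v = 1 →
      t - l' ⬝ᵥ Ψ (p m t) ≤ 1 / (m + 1) + (b (c 0) - l' ⬝ᵥ Ψ (c 0)) := fun m t e l' hl' => by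
    have h1 := (hpb m t).1
    have h2 := hcb (S m + t - a' m) (by linarith [hS m])
    rw [hpa' m t e] at h1 ⊢
    rw [zdot_KL f hc hl']
    linarith
  have hup : ∀ m t, t - l₀ ⬝ᵥ Ψ (p m t) ≤ 1 / (m + 1) + (b (c 0) - l₀ ⬝ᵥ Ψ (c 0)) := fun m t =>
    (hmono m t _ (le_max_left t (a' m))).trans (hend m _ (le_max_right _ _) l₀ f.one)
  obtain ⟨k, d, hd, hlim⟩ := h.lim (fun m s => p m (s + t₀ m)) fun m => lip_shift (hp m) _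
  have hdiff : ∀ (l' : E n) (s t : ℝ),
      Tendsto (fun m => l' ⬝ᵥ Ψ (p m (t + t₀ m)) - l' ⬝ᵥ Ψ (p m (s + t₀ m))) UU
        (𝓝 (l' ⬝ᵥ Ψ (d t) - l' ⬝ᵥ Ψ (d s))) := fun l' s t => by
    have hc' := (cont_dot l').comp hK'.continuous
    refine (((hc'.tendsto _).comp (hlim t)).sub ((hc'.tendsto _).comp (hlim s))).congr fun m => ?_
    simp only [Function.comp, f.eqv, dotProduct_add]
    ring
  have hdi : Isometry d := isometry_of_le hd fun s t _ => by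
    refine le_of_tendsto_of_tendsto' (by simpa using hε.const_sub (t - s))
      ((hlim s).dist (hlim t)) fun m => ?_
    have h1 := lip_sub hb.1 (p m (s + t₀ m)) (p m (t + t₀ m))
    have h2 := (hpb m (t + t₀ m)).1
    have h3 := (hpb m (s + t₀ m)).2
    rw [h.iso, ← one_div]
    linarith
  obtain ⟨y, hdy⟩ := (hFI h v l₀ Ψ A f d).1 hdi
    ⟨1 + (b (c 0) - l₀ ⬝ᵥ Ψ (c 0)) + l₀ ⬝ᵥ Ψ (γ 0), fun s t _ => by
      refine le_of_tendsto ((hdiff l₀ s t).const_sub (t - s)) (Eventually.of_forall fun m => ?_)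
      have h1 := hup m (t + t₀ m)
      have h2 := hμ (p m (s + t₀ m))
      have h3 := (hpb m (s + t₀ m)).2
      have h4 : (1 : ℝ) / (m + 1) ≤ 1 := by
        rw [div_le_one (by positivity)]; linarith [m.cast_nonneg (α := ℝ)]
      linarith⟩
  have hnz : ¬ Zer v Ψ d := fun hzd => by
    obtain ⟨e, -, he⟩ := ulim (isCompact_closedBall (0 : E n) η)
      (x := fun m => Nt_KL v l₀ Ψ (p m (0 + t₀ m)) - Nt_KL v l₀ Ψ (c 0))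
      (Eventually.of_forall fun m => by rw [mem_closedBall_zero_iff, zero_add, ht₀])
    have he1 : ‖e‖ = η := tendsto_nhds_unique he.norm
      (tendsto_const_nhds.congr fun m => by rw [zero_add, ht₀])
    have h1 := (((Ncont_KL f).tendsto _).comp (hlim 0)).sub he
    have h2 := hZ2 (fun m => Nt_KL v l₀ Ψ (k m +ᵥ c 0)) (Nt_KL v l₀ Ψ (d 0) - e)
      (fun m => ⟨fun t => k m +ᵥ c t, f.zer_rel h ⟨k m, 0, fun t => by rw [add_zero]⟩ hc, rfl⟩)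
      (h1.congr fun m => by
        simp only [Function.comp]
        rw [Nadd_KL f (k m) _ (c 0)]; abel)
    exact hηD ⟨_, ⟨d, hzd, rfl⟩, _, h2, by rw [← he1]; exact congrArg _ (sub_sub_cancel _ _)⟩
  have hyδ := hδ' d y hdy hnz
  have hyl := hy d y hdy
  obtain ⟨ε, hε0, hε1, hε2⟩ : ∃ ε : ℝ, 0 < ε ∧ 9 * ε ≤ δ / 2 ∧ (7 + 2 * K) * ε ≤ θ / 4 := by
    have hK0 : (0 : ℝ) < 7 + 2 * K := by positivity
    have := min_le_left (δ / 18) (θ / 4 / (7 + 2 * K))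
    refine ⟨min (δ / 18) (θ / 4 / (7 + 2 * K)), by positivity, by linarith, ?_⟩
    rw [mul_comm, ← le_div_iff₀ hK0]
    exact min_le_right _ _
  obtain ⟨-, α, ω, hα, hω, rfl⟩ := id hdy
  have eα : ∀ l' : E n, ∀ᶠ s in atBot, l' ⬝ᵥ De v Ψ d s < l' ⬝ᵥ α + ε := fun l' =>
    (((cont_dot l').tendsto _).comp hα).eventually (gt_mem_nhds (lt_add_of_pos_right _ hε0))
  have eω : ∀ l' : E n, ∀ᶠ s in atTop, l' ⬝ᵥ ω - ε < l' ⬝ᵥ De v Ψ d s := fun l' =>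
    (((cont_dot l').tendsto _).comp hω).eventually (lt_mem_nhds (sub_lt_self _ hε0))
  obtain ⟨T₁, hT₁⟩ := eventually_atBot.1 ((eα l₀).and (eα l))
  obtain ⟨s₁, ⟨g1, g2⟩, hs₁⟩ := (((eω l₀).and (eω l)).and (eventually_ge_atTop 0)).exists
  obtain ⟨s, hs, c'', hc'', hcs⟩ := ((hFI h v l₀ Ψ A f d).2 _ hdy ε T₁ hε0).1
  obtain ⟨g3, g4⟩ := hT₁ s hs
  rw [f.dot_De f.one] at g1 g3
  rw [f.dot_De hl] at g2 g4
  rw [dotProduct_sub] at hyδ hyl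
  obtain ⟨m, ⟨m1, m2⟩, m3, m4⟩ := (((Metric.tendsto_nhds.1 (hlim s) ε hε0).and
    (hε.eventually (gt_mem_nhds hε0))).and
    (((hdiff l₀ s s₁).eventually (gt_mem_nhds (lt_add_of_pos_right _ hε0))).and
      ((hdiff l s s₁).eventually (gt_mem_nhds (lt_add_of_pos_right _ hε0))))).exists
  have hx : dist (p m (s + t₀ m)) (-k m +ᵥ c'' 0) < 2 * ε := by
    rw [← h.iso (k m), vadd_neg_vadd]
    linarith [dist_triangle (k m +ᵥ p m (s + t₀ m)) (d s) (c'' 0)]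
  have b1 := lip_sub hb.1 (p m (s + t₀ m)) (-k m +ᵥ c'' 0)
  have b2 := (hpb m (s + t₀ m)).2
  refine ⟨fun t => -k m +ᵥ c'' t, f.zer_rel h ⟨-k m, 0, fun t => by rw [add_zero]⟩ hc'', ?_, ?_⟩
  · have a1 := hK.dist_le_mul (p m (s + t₀ m)) (-k m +ᵥ c'' 0)
    have a2 := (le_abs_self _).trans (a1.trans (mul_le_mul_of_nonneg_left hx.le K.coe_nonneg))
    have a3 := hend m _ (le_max_right (s₁ + t₀ m) (a' m)) l hl
    have a4 := hmono m _ _ (le_max_left (s₁ + t₀ m) (a' m))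
    have a5 := Ndot_KL f hl (p m (max (s₁ + t₀ m) (a' m)))
    rw [hpa' m _ (le_max_right _ _), Nz_KL f hc, ← hpa' m _ (le_max_right _ _)] at a5
    have a6 := Ndot_KL f hl (p m (s₁ + t₀ m))
    have a7 := (abs_dot_le (l - l₀) _).trans (mul_le_mul_of_nonneg_left
      (ht₁ m (s₁ + t₀ m) (le_add_of_nonneg_left hs₁)) (by positivity))
    rw [dotProduct_sub, abs_le] at a7
    linarith [a7.1]
  · have a1 := f.le (-k m +ᵥ c'' 0) (p m (s + t₀ m))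
    rw [dist_comm] at a1
    have a3 := hup m (s₁ + t₀ m)
    linarith

end

theorem kl_pf (hFI : FI_st n X) (hZC : ZC_st n X) (hBU : BU_st X) (hPE : PE_st n X) :
    KL_st n X := by
  intro h v l₀ Ψ A f T τ hτ γ hγ l hl hy
  obtain ⟨b, hb⟩ := hBU γ hγ.1
  have hfin := hτ.finite (fun c y => Fi v Ψ c y) (fun _ _ _ => Fi.uniq)
    fun _ _ _ _ hr => f.fi_rel h hr
  obtain ⟨δ, hδ, hδ'⟩ := (hfin.subset (t := {y | ∃ c, Fi v Ψ c y ∧ ¬ Zer v Ψ c})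
    fun y ⟨c, hc, _⟩ => ⟨c, hc.1, hc⟩).isCompact.exists_forall_le' (cont_dot l₀).continuousOn
    (a := 0) fun y ⟨c, hc, hn⟩ => lt_of_not_ge fun e => hn (f.fi_zer hc e)
  have key : ∀ (j : ℕ) (c : ℝ → X), Zer v Ψ c →
      b (c 0) - l₀ ⬝ᵥ Ψ (c 0) + l₀ ⬝ᵥ Ψ (γ 0) < j * (δ / 2) →
      l ⬝ᵥ Ψ (c 0) - l ⬝ᵥ Ψ (γ 0) ≤ b (c 0) := fun j => by
    induction j with
    | zero =>
      intro c _ hj
      have := mu_KL f hγ hb (c 0)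
      rw [Nat.cast_zero, zero_mul] at hj
      linarith
    | succ j ih =>
      intro c hc hj
      refine le_of_not_gt fun e => ?_
      obtain ⟨c', h1, h2, h3⟩ := step_KL f hFI hZC hPE h hτ hγ hb hl hy hδ
        (fun c y hc hn => hδ' y ⟨c, hc, hn⟩) hc e
      refine h2.not_ge (ih c' h1 ?_)
      push_cast at hj
      linarith
  obtain ⟨u, hu⟩ := h.cal (l := l) (x₁ := γ 0) fun k => by
    obtain ⟨j, hj⟩ := exists_nat_gt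
      ((b (k +ᵥ γ 0) - l₀ ⬝ᵥ Ψ (k +ᵥ γ 0) + l₀ ⬝ᵥ Ψ (γ 0)) / (δ / 2))
    have h1 := key j (fun t => k +ᵥ γ t) (f.zer_rel h ⟨k, 0, fun t => by rw [add_zero]⟩ hγ)
      ((div_lt_iff₀ (half_pos hδ)).1 hj)
    have h2 := lip_sub hb.1 (γ 0) (k +ᵥ γ 0)
    rw [hb.2.1 0] at h2
    simp only [f.eqv, dotProduct_add] at h1
    linarith
  exact hu.mem

end Pool.Agent.MP_4d76c1_gt.Low
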