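import Pool.Agent.MP_4d76c1_gt.Low.St

set_option autoImplicit false

namespace Pool.Agent.MP_4d76c1_gt.Low

open Filter Topology Set

variable {n : Nat} {X : Type} [MetricSpace X] [AddAction (G n) X]

theorem star_P {l : E n} (hl : l ∈ B n X) {r : ℝ} (h0 : 0 ≤ r) (h1 : r ≤ 1) : r • l ∈ B n X :=
  fun x k => by
    have a := mul_le_mul_of_nonneg_left (hl x k) h0
    have b := mul_le_of_le_one_left (dist_nonneg (x := x) (y := k +ᵥ x)) h1
    rw [smul_dotProduct, smul_eq_mul]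
    linarith

theorem p_pf (hE : E1_st n X) (hDR : DR_st n X) : P_st n X := by
  intro h F hF
  ext l
  constructor
  · rintro hl w ⟨c, hc, hw⟩
    obtain ⟨u, hu⟩ := h.cal' hl
    obtain ⟨C, -, hC⟩ := h.bdd_cal hF hu
    refine ((hDR h F hF c hc.lipschitz).2 w hw).2.2.1 l 1 (2 * C) fun t ht => ?_
    have a := abs_le.1 (hC (c 0))
    have b := abs_le.1 (hC (c (-t)))
    have d := lip_sub hu.1 (c (-t)) (c 0)
    have e := lip_path hc.lipschitz (show -t ≤ 0 by linarith)
    rw [dotProduct_sub]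
    linarith [a.2, b.1]
  · intro hl
    by_contra hn
    have hK : IsCompact (Icc (0 : ℝ) 1 ∩ (fun t : ℝ => t • l) ⁻¹' B n X) :=
      isCompact_Icc.inter_right (B_closed.preimage (continuous_id.smul continuous_const))
    obtain ⟨K, hK'⟩ := hF.lip_dot l
    have hK0 : (0 : ℝ) < K + 1 := by positivity
    have h0 : ((K : ℝ) + 1)⁻¹ ∈ Icc (0 : ℝ) 1 ∩ (fun t : ℝ => t • l) ⁻¹' B n X := by
      refine ⟨⟨by positivity, inv_le_one_of_one_le₀ (by linarith [K.coe_nonneg])⟩, fun x k => ?_⟩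
      have a := hK'.dist_le_mul (k +ᵥ x) x
      rw [hF.2, dotProduct_add, Real.dist_eq, add_sub_cancel_left, dist_comm] at a
      rw [smul_dotProduct, smul_eq_mul, inv_mul_le_iff₀ hK0]
      nlinarith [le_abs_self (l ⬝ᵥ cv k), dist_nonneg (x := x) (y := k +ᵥ x)]
    obtain ⟨s, ⟨⟨-, hs1⟩, hs⟩, hmax⟩ := hK.exists_isGreatest ⟨_, h0⟩
    have hs0 : 0 < s := (inv_pos.2 hK0).trans_le (hmax h0)
    have hs : s • l ∈ B n X := hs
    have hs2 : s < 1 := lt_of_le_of_ne hs1 fun e => hn (by rwa [e, one_smul] at hs)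
    obtain ⟨u, hu⟩ := h.cal' hs
    obtain ⟨c, hc, hcal⟩ := hE h _ u hu fun η hη hB => by
      have hp : 0 < (1 + η) * s := by positivity
      have hr : s < min ((1 + η) * s) 1 := lt_min (by nlinarith) hs2
      have a := star_P hB (r := min ((1 + η) * s) 1 / ((1 + η) * s))
        (div_nonneg (hs0.trans hr).le hp.le) ((div_le_one hp).2 (min_le_left _ _))
      rw [smul_smul (1 + η), smul_smul, div_mul_cancel₀ _ hp.ne'] at a
      exact absurd (hmax ⟨⟨(hs0.trans hr).le, min_le_right _ _⟩, a⟩) (not_le.2 hr)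
    obtain ⟨⟨w, hw⟩, hd⟩ := hDR h F hF c hc.lipschitz
    obtain ⟨C, -, hC⟩ := h.bdd_cal hF hu
    have a := (hd w hw).2.2.1 (-(s • l)) (-1) (2 * C) fun t _ => by
      have a := abs_le.1 (hC (c 0))
      have b := abs_le.1 (hC (c (-t)))
      have d := hcal (-t) 0
      rw [neg_dotProduct, dotProduct_sub]
      linarith [a.1, b.2]
    have b := hl w ⟨c, hc, hw⟩
    rw [neg_dotProduct, smul_dotProduct, smul_eq_mul] at a
    nlinarith

end Pool.Agent.MP_4d76c1_gt.Low
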