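import Pool.Agent.MP_4d76c1_gt.Low.St

set_option autoImplicit false

namespace Pool.Agent.MP_4d76c1_gt.Low

open Filter Topology Set

variable {n : Nat} {X : Type} [MetricSpace X] [AddAction (G n) X]

theorem pl1_pf : PL1_st := by
  classical
  intro n Bs P hP hB
  have ex : ∃ k, ∃ Q : Finset (E n), Q.card = k ∧ Bs = {l | ∀ q ∈ Q, l ⬝ᵥ q ≤ 1} :=
    ⟨_, hP.toFinset, rfl, by simpa using hB⟩
  obtain ⟨Q, hQ, hBQ⟩ := Nat.find_spec ex
  refine ⟨Q, fun q hq => ?_, hBQ⟩
  obtain ⟨l, hl, hl'⟩ : ∃ l : E n, (∀ q' ∈ Q.erase q, l ⬝ᵥ q' ≤ 1) ∧ 1 < l ⬝ᵥ q := by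
    by_contra hc
    refine Nat.find_min ex (hQ ▸ Finset.card_erase_lt_of_mem hq) ⟨Q.erase q, rfl, ?_⟩
    rw [hBQ]
    refine Subset.antisymm (fun l hl q' hq' => hl q' (Finset.mem_of_mem_erase hq'))
      fun l hl q' hq' => ?_
    by_cases h : q' = q
    · rw [h]
      exact not_lt.1 fun h' => hc ⟨l, hl, h'⟩
    · exact hl q' (Finset.mem_erase.2 ⟨h, hq'⟩)
  have c0 : 0 < l ⬝ᵥ q := by linarith
  have e1 : ((l ⬝ᵥ q)⁻¹ • l) ⬝ᵥ q = 1 := by
    rw [smul_dotProduct, smul_eq_mul, inv_mul_cancel₀ c0.ne']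
  have ev : ∀ᶠ μ in 𝓝 (0 : E n), ∀ q' ∈ Q.erase q, ((l ⬝ᵥ q)⁻¹ • l + μ) ⬝ᵥ q' < 1 := by
    refine (eventually_all_finset _).2 fun q' hq' => ?_
    have hc : Continuous fun μ : E n => ((l ⬝ᵥ q)⁻¹ • l + μ) ⬝ᵥ q' :=
      (continuous_const.add continuous_id).dotProduct continuous_const
    refine hc.continuousAt.eventually_lt continuousAt_const ?_
    rw [add_zero, smul_dotProduct, smul_eq_mul, inv_mul_lt_iff₀ c0]
    linarith [hl q' hq']
  obtain ⟨ε, hε, h⟩ := Metric.eventually_nhds_iff.1 ev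
  refine ⟨(l ⬝ᵥ q)⁻¹ • l, fun m hm => ?_, e1, ε / 2, half_pos hε, fun μ h0 hμ => ?_⟩
  · rw [hBQ] at hm
    exact hm q hq
  · rw [hBQ]
    intro q' hq'
    by_cases h' : q' = q
    · rw [h', add_dotProduct, e1, h0, add_zero]
    · exact (h (by rw [dist_zero_right]; linarith) q' (Finset.mem_erase.2 ⟨h', hq'⟩)).le

theorem neg_PL {Bs : Set (E n)} (hs : ∀ l ∈ Bs, -l ∈ Bs) {q l₀ : E n} (h : Exp Bs q l₀) :
    Exp Bs (-q) (-l₀) := by
  obtain ⟨h1, h2, ρ, hρ, h3⟩ := h
  refine ⟨fun l hl => ?_, by simpa using h2, ρ, hρ, fun μ h0 hμ => ?_⟩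
  · simpa using h1 _ (hs l hl)
  · have := hs _ (h3 (-μ) (by simpa using h0) (by simpa using hμ))
    rwa [neg_add, neg_neg] at this

theorem dot_PL (φ : E n →ₗ[ℝ] ℝ) (x : E n) : (fun j => φ (Pi.single j 1)) ⬝ᵥ x = φ x := by
  conv_rhs => rw [pi_eq_sum_univ' x]
  simp [dotProduct, map_sum, mul_comm]

theorem pl2_pf : PL2_st := by
  classical
  intro n Bs Q ⟨hE, hB⟩ hbd hs
  have hspan : Submodule.span ℝ (Q : Set (E n)) = ⊤ := by
    by_contra h
    obtain ⟨φ, hφ, hle⟩ := Submodule.exists_le_ker_of_lt_top _ (lt_top_iff_ne_top.2 h)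
    obtain ⟨C, hC⟩ := hbd.exists_norm_le
    obtain ⟨l, hl⟩ : ∃ l : E n, ∀ x, l ⬝ᵥ x = φ x := ⟨_, dot_PL φ⟩
    have l0 : 0 < ‖l‖ := by
      refine norm_pos_iff.2 fun h0 => hφ (LinearMap.ext fun x => ?_)
      rw [← hl, h0]
      simp
    have h1 := hC (((|C| + 1) / ‖l‖) • l) (by
      rw [hB]
      intro q hq
      have : φ q = 0 := hle (Submodule.subset_span hq)
      rw [smul_dotProduct, hl, this]
      simp)
    rw [norm_smul, Real.norm_of_nonneg (by positivity), div_mul_cancel₀ _ l0.ne'] at h1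
    linarith [le_abs_self C]
  obtain ⟨s, hsQ, hsp, hli⟩ := exists_linearIndependent ℝ (Q : Set (E n))
  have : Fintype s := (Q.finite_toSet.subset hsQ).fintype
  let b0 : Module.Basis s ℝ (E n) := Module.Basis.mk hli (by
    rw [Subtype.range_coe, hsp, hspan])
  have hc : Fintype.card s = n := by
    rw [← Module.finrank_eq_card_basis b0]
    simp
  obtain ⟨v, f, hv, hf⟩ : ∃ v f : Fin n → E n, (∀ i, v i ∈ Q) ∧
      ∀ i j, f i ⬝ᵥ v j = if i = j then 1 else 0 := by
    refine ⟨b0.reindex (Fintype.equivFinOfCardEq hc),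
      fun i j => (b0.reindex (Fintype.equivFinOfCardEq hc)).coord i (Pi.single j 1),
      fun i => hsQ ?_, fun i j => ?_⟩
    · rw [Module.Basis.reindex_apply, Module.Basis.mk_apply]
      exact Subtype.coe_prop _
    · rw [dot_PL, Module.Basis.coord_apply, Module.Basis.repr_self, Finsupp.single_apply]
      exact if_congr eq_comm rfl rfl
  by_cases h : ∀ q ∈ Q, ∃ i, q = v i ∨ q = -v i
  · refine Or.inl ⟨v, f, hf, Subset.antisymm (fun l hl i => ?_) fun l hl => ?_⟩
    · have h1 := hs l hl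
      rw [hB] at hl h1
      have h2 := h1 _ (hv i)
      rw [neg_dotProduct] at h2
      exact abs_le.2 ⟨by linarith, hl _ (hv i)⟩
    · rw [hB]
      intro q hq
      obtain ⟨i, rfl | rfl⟩ := h q hq
      · exact (abs_le.1 (hl i)).2
      · rw [dotProduct_neg]
        linarith [(abs_le.1 (hl i)).1]
  · push Not at h
    obtain ⟨q, hq, h⟩ := h
    have vi : Function.Injective v := fun i j e => by
      by_contra hij
      have := hf i j
      rw [← e, hf i i, if_pos rfl, if_neg hij] at this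
      exact one_ne_zero this
    refine Or.inr ⟨insert q (insert (-q) (Finset.univ.image v ∪ Finset.univ.image fun i => -v i)),
      ?_, fun w hw => ?_⟩
    · rw [Finset.card_insert_of_notMem, Finset.card_insert_of_notMem, Finset.card_union_of_disjoint,
        Finset.card_image_of_injective _ vi,
        Finset.card_image_of_injective _ (f := fun i => -v i) fun i j e => vi (neg_injective e)]
      · simp only [Finset.card_univ, Fintype.card_fin]
        omega
      · refine Finset.disjoint_left.2 fun w h1 h2 => ?_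
        obtain ⟨i, -, rfl⟩ := Finset.mem_image.1 h1
        obtain ⟨j, -, e⟩ := Finset.mem_image.1 h2
        have := hf i i
        rw [← e, dotProduct_neg, hf i j, if_pos rfl] at this
        split_ifs at this <;> norm_num at this
      · intro h1
        rcases Finset.mem_union.1 h1 with h1 | h1 <;> obtain ⟨i, -, e⟩ := Finset.mem_image.1 h1
        · exact (h i).2 (by rw [e, neg_neg])
        · exact (h i).1 (neg_injective e).symm
      · intro h1
        rcases Finset.mem_insert.1 h1 with h1 | h1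
        · obtain ⟨l, -, h2, -⟩ := hE q hq
          have h3 : l ⬝ᵥ q = l ⬝ᵥ (-q) := congrArg _ h1
          rw [dotProduct_neg, h2] at h3
          norm_num at h3
        · rcases Finset.mem_union.1 h1 with h1 | h1 <;> obtain ⟨i, -, e⟩ := Finset.mem_image.1 h1
          · exact (h i).1 e.symm
          · exact (h i).2 e.symm
    · have ng : ∀ u ∈ Q, ∃ l₀, Exp Bs (-u) l₀ := fun u hu => by
        obtain ⟨l, hl⟩ := hE u hu
        exact ⟨_, neg_PL hs hl⟩
      rcases Finset.mem_insert.1 hw with rfl | hw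
      · exact hE _ hq
      rcases Finset.mem_insert.1 hw with rfl | hw
      · exact ng _ hq
      rcases Finset.mem_union.1 hw with hw | hw <;> obtain ⟨i, -, rfl⟩ := Finset.mem_image.1 hw
      exacts [hE _ (hv i), ng _ (hv i)]

end Pool.Agent.MP_4d76c1_gt.Low
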