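import Pool.Agent.MP_4d76c1_gt.Low.St

set_option autoImplicit false

namespace Pool.Agent.MP_4d76c1_gt.Low

open Filter Topology Set

variable {n : Nat} {X : Type} [MetricSpace X] [AddAction (G n) X]

theorem aff_SM (h : Sp n X) : ∃ (x₀ : X) (M : ℝ), 0 < M ∧
    ∀ k : G n, ‖cv k‖ ≤ M * (dist x₀ (k +ᵥ x₀) + 3) := by
  obtain ⟨x₀, R, hR⟩ := h.coc
  have hR0 : 0 ≤ R := (hR x₀).elim fun k hk => dist_nonneg.trans hk
  obtain ⟨M₀, hM₀⟩ := ((h.pd x₀ (2 * R + 1)).image fun k => ‖cv k‖).bddAbove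
  have hM : ∀ k : G n, dist (k +ᵥ x₀) x₀ ≤ 2 * R + 1 → ‖cv k‖ ≤ max M₀ 1 := fun k hk =>
    (hM₀ ⟨k, by rwa [mem_ofPred_eq, dist_comm], rfl⟩).trans (le_max_left _ _)
  have h0 : 0 < max M₀ 1 := one_pos.trans_le (le_max_right _ _)
  refine ⟨x₀, max M₀ 1, h0, fun k => ?_⟩
  generalize max M₀ 1 = M at hM h0
  have h1 := Nat.le_ceil (dist x₀ (k +ᵥ x₀))
  have h2 := Nat.ceil_lt_add_one (dist_nonneg (x := x₀) (y := k +ᵥ x₀))
  obtain ⟨p, hp, p0, p1⟩ := h.len x₀ (k +ᵥ x₀) ((⌈dist x₀ (k +ᵥ x₀)⌉₊ + 1 : ℕ) : ℝ)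
    (by push_cast; linarith)
  have key : ∀ (j : ℕ) (k : G n), dist (k +ᵥ p j) x₀ ≤ R → ‖cv k‖ ≤ M * (j + 1) := by
    intro j
    induction j with
    | zero =>
      intro k hk
      rw [Nat.cast_zero, p0] at hk
      simpa using hM k (by linarith)
    | succ j ih =>
      intro k hk
      obtain ⟨k', hk'⟩ := hR (p j)
      have a1 : dist ((k - k') +ᵥ x₀) (k +ᵥ p j) ≤ R := by
        rw [show k +ᵥ p j = (k - k') +ᵥ (k' +ᵥ p j) by rw [← add_vadd, sub_add_cancel], h.iso,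
          dist_comm]
        exact hk'
      have a2 : dist (k +ᵥ p j) (k +ᵥ p (j + 1 : ℕ)) ≤ 1 := by
        rw [h.iso]
        refine (lip_path hp (by push_cast; linarith)).trans_eq ?_
        push_cast; ring
      have a3 := dist_triangle4 ((k - k') +ᵥ x₀) (k +ᵥ p j) (k +ᵥ p (j + 1 : ℕ)) x₀
      have a4 := hM (k - k') (by linarith)
      have a5 := norm_add_le (cv (k - k')) (cv k')
      rw [← cv_add, sub_add_cancel] at a5
      have a6 := ih k' hk'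
      push_cast
      linarith
  have h3 := key _ (-k) (by rw [p1, neg_vadd_vadd, dist_self]; exact hR0)
  rw [cv_neg, norm_neg] at h3
  refine h3.trans (mul_le_mul_of_nonneg_left ?_ h0.le)
  push_cast
  linarith

theorem lin_SM (h : Sp n X) : ∃ (x₀ : X) (M : ℝ), 0 < M ∧
    ∀ k : G n, ‖cv k‖ ≤ M * dist x₀ (k +ᵥ x₀) := by
  obtain ⟨x₀, M, hM, h1⟩ := aff_SM h
  refine ⟨x₀, M, hM, fun k => ?_⟩
  have a1 : ∀ N : ℕ, dist x₀ ((N • k) +ᵥ x₀) ≤ N * dist x₀ (k +ᵥ x₀) := fun N => by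
    induction N with
    | zero => simp
    | succ N ih =>
      have := dist_triangle x₀ ((N • k) +ᵥ x₀) ((N • k) +ᵥ (k +ᵥ x₀))
      rw [h.iso] at this
      rw [succ_nsmul, add_vadd]
      push_cast
      linarith
  have a2 : ∀ N : ℕ, ‖cv (N • k)‖ = N * ‖cv k‖ := fun N => by
    have : cv (N • k) = (N : ℝ) • cv k := by ext i; simp [cv]
    rw [this, norm_smul, Real.norm_natCast]
  by_contra hc
  have hd := sub_pos.2 (not_le.1 hc)
  obtain ⟨N, hN⟩ := exists_nat_gt (3 * M / (‖cv k‖ - M * dist x₀ (k +ᵥ x₀)))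
  rw [div_lt_iff₀ hd] at hN
  have a3 := h1 (N • k)
  have a4 := mul_le_mul_of_nonneg_left (a1 N) hM.le
  rw [a2] at a3
  linarith

theorem sm_pf : SM_st n X := by
  intro h
  obtain ⟨x₀, M, hM, h1⟩ := lin_SM h
  have e : ∀ (i : Fin n) (k : G n), (Pi.single i M⁻¹ : E n) ⬝ᵥ cv k = M⁻¹ * cv k i :=
    fun i k => single_dotProduct _ _ _
  have h2 : ∀ i : Fin n, ∃ u : X → ℝ, Cal (Pi.single i M⁻¹ : E n) u := fun i =>
    h.cal (x₁ := x₀) fun k => by
      rw [e, inv_mul_le_iff₀ hM]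
      exact (le_abs_self _).trans ((norm_le_pi_norm (cv k) i).trans (h1 k))
  choose u hu using h2
  refine ⟨fun x i => M * u i x, ⟨⟨M, hM.le⟩, LipschitzWith.of_dist_le_mul fun x y => ?_⟩,
    fun k x => funext fun i => ?_⟩
  · change _ ≤ M * dist x y
    refine (dist_pi_le_iff (by positivity)).2 fun i => ?_
    have := (hu i).1.dist_le_mul x y
    rw [NNReal.coe_one, one_mul, Real.dist_eq] at this
    rw [Real.dist_eq, ← mul_sub, abs_mul, abs_of_pos hM]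
    exact mul_le_mul_of_nonneg_left this hM.le
  · change M * u i (k +ᵥ x) = M * u i x + cv k i
    rw [(hu i).2, e, mul_add, mul_inv_cancel_left₀ hM.ne']

end Pool.Agent.MP_4d76c1_gt.Low
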