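import Pool.Agent.MP_4d76c1_gt.Low.St

set_option autoImplicit false

namespace Pool.Agent.MP_4d76c1_gt.Low

open Filter Topology Set

variable {n : Nat} {X : Type} [MetricSpace X] [AddAction (G n) X]

theorem iso_le_Y3 {c : ℝ → X} (hc : Isometry c) {u : X → ℝ} (hu : LipschitzWith 1 u) {s t : ℝ}
    (h : s ≤ t) : u (c t) - u (c s) ≤ t - s :=
  (lip_sub hu _ _).trans (lip_path hc.lipschitz h)

theorem y3_pf : Y3_st n X := by
  intro h v l₀ Ψ A f c hc hb
  set d : ℕ → E n := fun j => De v Ψ c j - De v Ψ c (-j) with hd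
  set m : ℕ → ℝ := fun j => l₀ ⬝ᵥ De v Ψ c j - l₀ ⬝ᵥ De v Ψ c (-j) with hm
  have hj : ∀ j : ℕ, -(j : ℝ) ≤ j := fun j => neg_le_self (Nat.cast_nonneg j)
  have mono := f.De_mono hc.lipschitz
  have ht : Tendsto m UU atTop := by
    refine Tendsto.mono_left (tendsto_atTop_atTop.2 fun M => ?_) UU_le
    simp only [Bd, not_exists, not_forall, not_le] at hb
    obtain ⟨s, t, -, hst⟩ := hb M
    obtain ⟨N, hN⟩ := exists_nat_ge (max t (-s))
    refine ⟨N, fun j hNj => ?_⟩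
    have e : (N : ℝ) ≤ j := Nat.cast_le.2 hNj
    have h1 := mono (show t ≤ j from ((le_max_left _ _).trans hN).trans e)
    have h2 := mono (show -(j : ℝ) ≤ s by linarith [le_max_right t (-s)])
    simp only [hm]
    simp only [f.dot_De f.one] at h1 h2 ⊢
    linarith
  have hp : ∀ᶠ j in UU, 0 < m j := ht.eventually_gt_atTop 0
  obtain ⟨y, -, hy⟩ := ulim (isCompact_closedBall (0 : E n) A) (x := fun j => (m j)⁻¹ • d j)
    (hp.mono fun j h0 => by
      rw [mem_closedBall_zero_iff, norm_smul, Real.norm_of_nonneg (inv_nonneg.2 h0.le),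
        inv_mul_le_iff₀ h0, mul_comm]
      exact f.De_le hc.lipschitz (hj j))
  have hl : ∀ l : E n, Tendsto (fun j => (m j)⁻¹ * (l ⬝ᵥ d j)) UU (𝓝 (l ⬝ᵥ y)) := fun l =>
    (((cont_dot l).tendsto y).comp hy).congr fun j => by
      simp only [Function.comp, dotProduct_smul, smul_eq_mul]
  have h0 : ∀ a : ℝ, Tendsto (fun j => (m j)⁻¹ * a) UU (𝓝 0) := fun a => by
    simpa using ht.inv_tendsto_atTop.mul_const a
  refine ⟨y, tendsto_nhds_unique (hl l₀) (tendsto_const_nhds.congr' (hp.mono fun j h1 => ?_)),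
    fun l u hu hv => ?_⟩
  · simp only [hd, dotProduct_sub]
    exact (inv_mul_cancel₀ h1.ne').symm
  obtain ⟨C, -, hC⟩ := h.bdd_cal f.isEqv hu
  have e : ∀ j : ℕ, l ⬝ᵥ d j = j - l ⬝ᵥ Ψ (c j) - (-j - l ⬝ᵥ Ψ (c (-j))) := fun j => by
    simp only [hd, dotProduct_sub l (De v Ψ c j), f.dot_De hv]
  refine ⟨le_of_tendsto_of_tendsto (h0 (-(2 * C))) (hl l) (hp.mono fun j h1 => ?_), ?_⟩
  · refine mul_le_mul_of_nonneg_left ?_ (inv_nonneg.2 h1.le)
    have a1 := abs_le.1 (hC (c j))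
    have a2 := abs_le.1 (hC (c (-j)))
    have a3 := iso_le_Y3 hc hu.1 (hj j)
    rw [e]
    linarith [a1.2, a2.1]
  · rintro ⟨M, hM⟩
    refine le_of_tendsto_of_tendsto (hl l) (h0 (M + 2 * C)) (hp.mono fun j h1 => ?_)
    refine mul_le_mul_of_nonneg_left ?_ (inv_nonneg.2 h1.le)
    have a1 := abs_le.1 (hC (c j))
    have a2 := abs_le.1 (hC (c (-j)))
    have a3 := hM _ _ (hj j)
    rw [e]
    linarith [a1.1, a2.2]

theorem m1_pf (hFI : FI_st n X) : M1_st n X := by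
  intro h v l₀ Ψ A f γ hγ hall c y hc l u hu hv
  obtain ⟨K₀, hK₀⟩ := f.isEqv.lip_dot l
  obtain ⟨C, -, hC⟩ := h.bdd_cal f.isEqv hu
  set om : X → ℝ := fun x => l ⬝ᵥ Ψ x - u x with hom
  have hK : LipschitzWith (K₀ + 1) om := hK₀.sub hu.1
  have per : ∀ (k : G n) (x : X), om (k +ᵥ x) = om x := fun k x => by
    simp only [hom, f.eqv, hu.2, dotProduct_add]; ring
  have mono : Monotone fun t => om (γ t) := fun s t e => by
    have := iso_le_Y3 hγ.1 hu.1 e
    simp only [hom, hγ.eq s, hγ.eq t, dotProduct_add, dotProduct_smul, hv, smul_eq_mul]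
    linarith
  obtain ⟨L, hL⟩ : ∃ L, Tendsto (fun t => om (γ t)) atTop (𝓝 L) :=
    ⟨_, tendsto_atTop_ciSup mono ⟨C, by rintro _ ⟨t, rfl⟩; exact (abs_le.1 (hC _)).2⟩⟩
  obtain ⟨k, c₁, -, h1⟩ := h.lim (fun m t => γ (t + m)) fun m => lip_shift hγ.1.lipschitz m
  obtain ⟨K₁, hK₁⟩ := f.isEqv.1
  have z1 : Zer v Ψ c₁ := by
    refine ⟨Isometry.of_dist_eq fun s t => tendsto_nhds_unique ((h1 s).dist (h1 t))
      (tendsto_const_nhds.congr fun m => ?_), fun s t => ?_⟩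
    · rw [h.iso, hγ.1.dist_eq, dist_add_right]
    · have a := ((hK₁.continuous.tendsto _).comp (h1 t)).sub ((hK₁.continuous.tendsto _).comp (h1 s))
      have b : Ψ (c₁ t) - Ψ (c₁ s) = (t - s) • v :=
        tendsto_nhds_unique a (tendsto_const_nhds.congr fun m => by
          simp only [Function.comp, f.eqv, hγ.eq (t + m), hγ.eq (s + m), add_smul, sub_smul]
          abel)
      simp only [De]
      rw [sub_smul, sub_eq_sub_iff_sub_eq_sub] at b
      rw [← neg_inj, neg_sub, neg_sub, b]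
  have z2 : ∀ t, om (c₁ t) = L := fun t => by
    refine tendsto_nhds_unique ((hK.continuous.tendsto _).comp (h1 t)) ?_
    have : Tendsto (fun m : ℕ => t + m) UU atTop :=
      (tendsto_atTop_add_const_left _ t tendsto_natCast_atTop_atTop).mono_left UU_le
    exact (hL.comp this).congr fun m => (per _ _).symm
  have z3 : ∀ t, om (γ t) = L := fun t => by
    obtain ⟨j, b, e⟩ := hall c₁ z1
    have := z2 (t - b)
    rwa [e, per, sub_add_cancel] at this
  have z4 : ∀ c', Zer v Ψ c' → ∀ x ε, dist x (c' 0) < ε → |om x - L| ≤ (K₀ + 1) * ε := by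
    intro c' hc' x ε hx
    obtain ⟨j, b, e⟩ := hall c' hc'
    have a := hK.dist_le_mul x (c' 0)
    rw [Real.dist_eq, show om (c' 0) = L by rw [e, per, z3]] at a
    push_cast at a
    exact a.trans (mul_le_mul_of_nonneg_left hx.le (by positivity))
  have hfi := (hFI h v l₀ Ψ A f c).2 y hc
  obtain ⟨hc, a, b, ha, hb, rfl⟩ := hc
  refine le_of_forall_pos_le_add fun δ hδ => ?_
  have hk : (0 : ℝ) < 2 * (K₀ + 1) + 2 := by positivity
  obtain ⟨ε, hε, e⟩ : ∃ ε : ℝ, 0 < ε ∧ (2 * (K₀ + 1) + 2) * ε = δ :=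
    ⟨δ / (2 * (K₀ + 1) + 2), div_pos hδ hk, mul_div_cancel₀ _ hk.ne'⟩
  obtain ⟨T₁, hT₁⟩ := eventually_atBot.1
    ((Metric.tendsto_nhds.1 (((cont_dot l).tendsto a).comp ha)) ε hε)
  obtain ⟨T₂, hT₂⟩ := eventually_atTop.1
    ((Metric.tendsto_nhds.1 (((cont_dot l).tendsto b).comp hb)) ε hε)
  obtain ⟨s, hs, c₂, w1, w2⟩ := (hfi ε (min T₁ 0) hε).1
  obtain ⟨t, ht, c₃, w3, w4⟩ := (hfi ε (max T₂ 0) hε).2
  have a1 := hT₁ s (hs.trans (min_le_left _ _))
  have a2 := hT₂ t ((le_max_left _ _).trans ht)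
  have a3 := abs_le.1 (z4 c₂ w1 _ _ w2)
  have a4 := abs_le.1 (z4 c₃ w3 _ _ w4)
  have a5 := iso_le_Y3 hc hu.1
    ((hs.trans (min_le_right _ _)).trans ((le_max_right _ _).trans ht))
  simp only [Function.comp, Real.dist_eq, f.dot_De hv, abs_lt] at a1 a2
  simp only [hom] at a3 a4
  rw [dotProduct_sub]
  linarith [a1.1, a2.2, a3.1, a4.2]

end Pool.Agent.MP_4d76c1_gt.Low
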