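import Pool.Agent.MP_4d76c1_gt.Low.Asm
import Pool.Agent.MP_4d76c1_gt.Low.C
import Pool.Agent.MP_4d76c1_gt.Low.DR
import Pool.Agent.MP_4d76c1_gt.Low.E1
import Pool.Agent.MP_4d76c1_gt.Low.FI
import Pool.Agent.MP_4d76c1_gt.Low.FR
import Pool.Agent.MP_4d76c1_gt.Low.G
import Pool.Agent.MP_4d76c1_gt.Low.GY
import Pool.Agent.MP_4d76c1_gt.Low.HT
import Pool.Agent.MP_4d76c1_gt.Low.KL
import Pool.Agent.MP_4d76c1_gt.Low.P
import Pool.Agent.MP_4d76c1_gt.Low.PE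
import Pool.Agent.MP_4d76c1_gt.Low.PL
import Pool.Agent.MP_4d76c1_gt.Low.SM
import Pool.Agent.MP_4d76c1_gt.Low.Y3

set_option autoImplicit false

namespace Pool.Agent.MP_4d76c1_gt.Low

theorem a_main (n : ℕ) (X : Type) [MetricSpace X] [AddAction (G n) X] : A_st n X :=
  a_pf sm_pf dr_pf (p_pf e1_pf dr_pf) pl1_pf pl2_pf g1_pf g2_pf fr_pf (z0_pf e1_pf)
    (gy2_pf (kl_pf fi_pf zc_pf bu_pf pe_pf) (m1_pf fi_pf))
    (gy3_pf (ht_pf dr_pf fi_pf bu_pf pe_pf) y3_pf fr_pf (z0_pf e1_pf)) (c0_pf dr_pf) (c1_pf dr_pf)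
    cov_pf

end Pool.Agent.MP_4d76c1_gt.Low
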