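import Pool.Agent.MP_4d76c1_gt.Low.St2

/-! The distance of a field of forms is a length metric. -/

set_option autoImplicit false

namespace Pool.Agent.MP_4d76c1_gt.Low

open Set MeasureTheory

theorem arc_LEN (Q : E3 → Bil) (hQ : Continuous Q) {γ : ℝ → E3}
    (hγ : ContDiffOn ℝ 1 γ (Icc 0 1)) : ∃ lam : ℝ → ℝ, lam 0 = 0 ∧ ContinuousOn lam (Icc 0 1) ∧
      ∀ a b, 0 ≤ a → a ≤ b → b ≤ 1 → lam a ≤ lam b ∧
        ∫⁻ t in Icc a b, ENNReal.ofReal (Real.sqrt (Q (γ t) (deriv γ t) (deriv γ t))) =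
          ENNReal.ofReal (lam b - lam a) := by
  have hd : ContinuousOn (derivWithin γ (Icc 0 1)) (Icc 0 1) :=
    hγ.continuousOn_derivWithin (uniqueDiffOn_Icc zero_lt_one) le_rfl
  obtain ⟨f, hf⟩ : ∃ f : ℝ → ℝ, f = fun t =>
    Real.sqrt (Q (γ t) (derivWithin γ (Icc 0 1) t) (derivWithin γ (Icc 0 1) t)) := ⟨_, rfl⟩
  have hc : ContinuousOn f (Icc 0 1) := by
    rw [hf]
    exact (((hQ.comp_continuousOn hγ.continuousOn).clm_apply hd).clm_apply hd).sqrt
  have h0 : ∀ t, 0 ≤ f t := fun t => by rw [hf]; exact Real.sqrt_nonneg _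
  have hi : ∀ a b, 0 ≤ a → a ≤ b → b ≤ 1 → IntervalIntegrable f volume a b := fun a b ha hab hb =>
    (hc.mono (by rw [uIcc_of_le hab]; exact Icc_subset_Icc ha hb)).intervalIntegrable
  refine ⟨fun s => ∫ t in (0 : ℝ)..s, f t, intervalIntegral.integral_same, ?_,
    fun a b ha hab hb => ?_⟩
  · have := intervalIntegral.continuousOn_primitive_interval' (hi 0 1 le_rfl zero_le_one le_rfl)
      left_mem_uIcc
    rwa [uIcc_of_le zero_le_one] at this
  have e := intervalIntegral.integral_interval_sub_left (hi 0 b le_rfl (ha.trans hab) hb)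
    (hi 0 a le_rfl ha (hab.trans hb))
  refine ⟨sub_nonneg.1 (e.ge.trans' (intervalIntegral.integral_nonneg hab fun t _ => h0 t)), ?_⟩
  rw [e, intervalIntegral.integral_of_le hab, ofReal_integral_eq_lintegral_ofReal
    (hi a b ha hab hb).1 (ae_of_all _ h0), ← setLIntegral_congr Ioo_ae_eq_Icc,
    ← setLIntegral_congr Ioo_ae_eq_Ioc]
  refine setLIntegral_congr_fun measurableSet_Ioo fun t ht => ?_
  rw [hf]
  beta_reduce
  rw [derivWithin_of_mem_nhds (Icc_mem_nhds (ha.trans_lt ht.1) (ht.2.trans_le hb))]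

theorem len_pf : LEN_st := by
  intro Q hQ x y L h
  simp only [riemDist, iInf_lt_iff] at h
  obtain ⟨γ, hγ, rfl, rfl, h⟩ := h
  obtain ⟨lam, l0, lc, hl⟩ := arc_LEN Q hQ hγ
  obtain ⟨l1, l2⟩ := hl 0 1 le_rfl zero_le_one le_rfl
  rw [l2, l0, sub_zero] at h
  rw [l0] at l1
  have hL : 0 < L - lam 1 := sub_pos.2 ((ENNReal.ofReal_lt_ofReal_iff_of_nonneg l1).1 h)
  have hc : ContinuousOn (fun s => lam s + s * (L - lam 1)) (Icc 0 1) :=
    lc.add (continuousOn_id.mul continuousOn_const)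
  have hex : ∀ t : ℝ, ∃ s ∈ Icc (0 : ℝ) 1, lam s + s * (L - lam 1) = max 0 (min t L) := fun t =>
    intermediate_value_Icc zero_le_one hc ⟨by simp [l0], by
      simp only [one_mul, add_sub_cancel]
      exact max_le (by linarith) (min_le_right _ _)⟩
  choose ψ hψ eψ using hex
  have key : ∀ s t, ψ s ≤ ψ t →
      riemDist Q (γ (ψ s)) (γ (ψ t)) ≤ ENNReal.ofReal |t - s| := fun s t hst => by
    refine (riemDist_le_path Q hst (hγ.mono (Icc_subset_Icc (hψ s).1 (hψ t).2))).trans ?_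
    rw [(hl _ _ (hψ s).1 hst (hψ t).2).2]
    refine ENNReal.ofReal_le_ofReal ?_
    have a1 := mul_le_mul_of_nonneg_right hst hL.le
    have a2 : |max 0 (min t L) - max 0 (min s L)| ≤ |t - s| := by
      rw [max_comm, max_comm 0]
      refine (abs_max_sub_max_le_abs _ _ _).trans ((abs_min_sub_min_le_max _ _ _ _).trans ?_)
      rw [sub_self, abs_zero]
      exact max_le le_rfl (abs_nonneg _)
    linarith [eψ s, eψ t, le_abs_self (max 0 (min t L) - max 0 (min s L))]
  refine ⟨fun t => γ (ψ t), congrArg γ ?_, congrArg γ ?_, fun s t => ?_⟩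
  · have a1 := eψ 0
    have a2 := (hl 0 _ le_rfl (hψ 0).1 (hψ 0).2).1
    rw [min_eq_left (by linarith), max_self] at a1
    refine le_antisymm (le_of_mul_le_mul_right ?_ hL) (hψ 0).1
    linarith
  · have a1 := eψ L
    have a2 := (hl _ 1 (hψ L).1 (hψ L).2 le_rfl).1
    rw [min_self, max_eq_right (by linarith)] at a1
    refine le_antisymm (hψ L).2 (le_of_mul_le_mul_right ?_ hL)
    linarith
  · rcases le_total (ψ s) (ψ t) with h | h
    · exact key s t h
    · rw [riemDist_comm, abs_sub_comm]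
      exact key t s h

end Pool.Agent.MP_4d76c1_gt.Low
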