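import Pool.Agent.MP_4d76c1_gt.Low.St

set_option autoImplicit false

namespace Pool.Agent.MP_4d76c1_gt.Low

open Filter Topology Set

variable {n : Nat} {X : Type} [MetricSpace X] [AddAction (G n) X]

theorem glue_PE {f g : ℝ → X} (hf : LipschitzWith 1 f) (hg : LipschitzWith 1 g) {a : ℝ}
    (h : f a = g a) : LipschitzWith 1 fun t => if t ≤ a then f t else g t := by
  have key : ∀ s t, s ≤ t →
      dist (if s ≤ a then f s else g s) (if t ≤ a then f t else g t) ≤ t - s := by
    intro s t hst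
    by_cases ht : t ≤ a
    · rw [if_pos ht, if_pos (hst.trans ht)]
      exact lip_path hf hst
    · rw [if_neg ht]
      by_cases hs : s ≤ a
      · rw [if_pos hs]
        have h1 := lip_path hf hs
        have h2 := lip_path hg (not_le.1 ht).le
        have h3 := dist_triangle (f s) (g a) (g t)
        rw [h] at h1
        linarith
      · rw [if_neg hs]
        exact lip_path hg hst
  refine LipschitzWith.of_dist_le_mul fun s t => ?_
  rw [NNReal.coe_one, one_mul, Real.dist_eq]
  rcases le_total s t with e | e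
  · exact (key s t e).trans (by rw [abs_sub_comm]; exact le_abs_self _)
  · rw [dist_comm]
    exact (key t s e).trans (le_abs_self _)

theorem bu_pf : BU_st X := by
  intro γ hγ
  have h0 : ∀ T t : ℝ, T + t ≤ dist (γ (-T)) (γ t) := fun T t => by
    rw [hγ.dist_eq, Real.dist_eq]
    linarith [neg_le_abs (-T - t)]
  have hb : ∀ x : X, BddBelow (range fun T : ℝ => dist (γ (-T)) x - T) := fun x => by
    refine ⟨-dist (γ 0) x, ?_⟩
    rintro _ ⟨T, rfl⟩
    have h1 := h0 T 0
    have h2 := dist_triangle_right (γ (-T)) (γ 0) x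
    simp only
    linarith
  refine ⟨fun x => ⨅ T : ℝ, (dist (γ (-T)) x - T), ?_, fun t => le_antisymm ?_ ?_,
    fun x ε hε => ?_⟩
  · refine LipschitzWith.of_le_add fun x y => ?_
    rw [← sub_le_iff_le_add]
    refine le_ciInf fun T => ?_
    have h1 := ciInf_le (hb x) T
    have h2 := dist_triangle (γ (-T)) y x
    rw [dist_comm y x] at h2
    linarith
  · have h1 := ciInf_le (hb (γ t)) (-t)
    simpa using h1
  · exact le_ciInf fun T => by linarith [h0 T t]
  · obtain ⟨T, hT⟩ := exists_lt_of_ciInf_lt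
      (lt_add_of_pos_right (⨅ T : ℝ, (dist (γ (-T)) x - T)) hε)
    exact ⟨T, by linarith⟩

theorem pe_pf : PE_st n X := by
  rintro h γ c b hγ hc ⟨hb1, hb2, hb3⟩ ⟨C, hC⟩ ε hε
  have hbd : BddBelow (range fun S : Ici (0 : ℝ) => b (c S) - S) :=
    ⟨-C, by rintro _ ⟨S, rfl⟩; exact hC S S.2⟩
  obtain ⟨⟨S, hS⟩, hS1⟩ := exists_lt_of_ciInf_lt
    (lt_add_of_pos_right (⨅ S : Ici (0 : ℝ), (b (c S) - S)) (half_pos hε))
  have hS0 : 0 ≤ S := hS
  have hS2 : ∀ S', 0 ≤ S' → b (c S) - S < b (c S') - S' + ε / 2 := fun S' h' => by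
    have := ciInf_le hbd ⟨S', h'⟩
    simp only at this hS1
    linarith
  obtain ⟨T, hT⟩ := hb3 (c S) _ (half_pos hε)
  obtain ⟨q, hq, hq0, hq1⟩ := h.len _ _ _ hT
  have hL : 0 < b (c S) + T + ε / 2 := dist_nonneg.trans_lt hT
  obtain ⟨a', ha'⟩ : ∃ a', a' = b (c S) + ε / 2 := ⟨_, rfl⟩
  have l1 : LipschitzWith 1 fun t => if t ≤ a' then q (t + T) else c (t + (S - a')) :=
    glue_PE (lip_shift hq T) (lip_shift hc (S - a')) (by
      rw [show a' + T = b (c S) + T + ε / 2 by linarith, hq1, add_sub_cancel])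
  have l2 := glue_PE (a := -T) hγ.lipschitz l1 (by
    rw [if_pos (by linarith), neg_add_cancel, hq0])
  obtain ⟨p, hp, e1, e2⟩ : ∃ p : ℝ → X, LipschitzWith 1 p ∧ (∀ t ≤ -T, p t = γ t) ∧
      ∀ t ≥ a', p t = c (S + t - a') := by
    refine ⟨_, l2, fun t ht => if_pos ht, fun t ht => ?_⟩
    have ht' : a' ≤ t := ht
    rw [if_neg (by linarith)]
    rcases ht'.eq_or_lt with e | e
    · rw [if_pos e.ge, ← e, show a' + T = b (c S) + T + ε / 2 by linarith, hq1,
        add_sub_cancel_right]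
    · rw [if_neg (not_le.2 e)]
      congr 1
      ring
  have hm : ∀ s t, s ≤ t → b (p t) - b (p s) ≤ t - s :=
    fun s t e => (lip_sub hb1 _ _).trans (lip_path hp e)
  refine ⟨p, -T, a', S, hp, hS0, e1, e2, fun t => ⟨?_, ?_⟩⟩
  · have k1 := hm t (max t a') (le_max_left _ _)
    have k2 := le_max_right t a'
    have k3 := hS2 (S + max t a' - a') (by linarith)
    rw [e2 _ k2] at k1
    linarith
  · have k1 := hm (min t (-T)) t (min_le_left _ _)
    rw [e1 _ (min_le_right _ _), hb2] at k1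
    linarith

end Pool.Agent.MP_4d76c1_gt.Low
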