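import Pool.Agent.MP_4d76c1_gt.Low.St2

set_option autoImplicit false

section

open Set Filter Topology Function
open scoped ContDiff ENNReal

namespace Pool.Agent.MP_4d76c1_gt

theorem MetData.finite_lines_SH {D : E3 → E3 → ℝ} {u : Sgn → E3 → ℝ} {m M : ℝ} {B : Type}
    {Γ : B → Set E3} (h : MetData D u m M Γ) : ∃ rep : B → ℝ → E3, ∀ c, IsLine D c →
    ∃ (b : B) (a b' : ℝ) (k : Z3), (a = 1 ∨ a = -1) ∧ ∀ t, c t = rep b (a * t + b') + cv k := by
  classical
  let rep : B → ℝ → E3 := fun b =>
    if hb : ∃ c, IsLine D c ∧ range c = Γ b then hb.choose else fun _ => 0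
  refine ⟨rep, fun c hc => ?_⟩
  obtain ⟨l, hl⟩ := h.calibrated hc
  obtain ⟨b, k, hb⟩ := h.cal l c hc hl
  have hc' : IsLine D fun t => c t - cv k := fun s t => by
    rw [← h.per _ _ k]; simp only [sub_add_cancel]; exact hc s t
  have hr : range (fun t => c t - cv k) = Γ b := by
    have : range (fun t => c t - cv k) = (fun x => x - cv k) '' range c := by
      rw [← range_comp]; rfl
    rw [this, hb, image_image]; simp
  have hex : ∃ c, IsLine D c ∧ range c = Γ b := ⟨_, hc', hr⟩
  have hrep : rep b = hex.choose := dif_pos hex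
  obtain ⟨a, b', ha, hab⟩ := MetData.reparam hc' hex.choose_spec.1 (by rw [hr, hex.choose_spec.2])
  refine ⟨b, a, b', k, ha, fun t => ?_⟩
  rw [hrep, ← hab t, sub_add_cancel]

namespace Chan

theorem main_SH {Λ : Type} [Finite Λ] (c : Chan Λ) : ∃ G : E3 → Bil, ContDiff ℝ ∞ G ∧
    (∀ x v w, G x v w = G x w v) ∧
    (∀ x v, v ≠ 0 → 0 < G x v v) ∧ (∀ x k, G (x + cv k) = G x) ∧
    ∃ rep : Λ ⊕ Fin 3 → ℝ → E3, ∀ f : ℝ → E3,
      (∀ s t, riemDist G (f s) (f t) = ENNReal.ofReal |t - s|) →
      ∃ (z : Λ ⊕ Fin 3) (a b : ℝ) (k : Z3), (a = 1 ∨ a = -1) ∧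
        ∀ t, f t = rep z (a * t + b) + cv k := by
  choose u hu hper hgerm using c.exists_u
  obtain ⟨G, hG, hGper, hGc⟩ := c.exists_G hu hper hgerm
  have hpos : ∀ x v, v ≠ 0 → 0 < G x v v := fun x => (hGc x).2.1
  obtain ⟨m, M, hm, hM, hmM⟩ := exists_bounds G hG.continuous hpos hGper
  have hup := riemDist_le_norm G hM.le fun x v => (hmM x v).2
  have hfin : ∀ x y, riemDist G x y ≠ ⊤ := fun x y => ne_top_of_le_ne_top ENNReal.ofReal_ne_top
    (hup x y)
  let D : E3 → E3 → ℝ := fun x y => (riemDist G x y).toReal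
  have hDle : ∀ {x y : E3} {r : ℝ}, 0 ≤ r → riemDist G x y ≤ ENNReal.ofReal r → D x y ≤ r :=
    fun hr h => ENNReal.toReal_le_of_le_ofReal hr h
  have hDge : ∀ {x y : E3} {r : ℝ}, ENNReal.ofReal r ≤ riemDist G x y → r ≤ D x y :=
    fun {x y r} h => (ENNReal.ofReal_le_iff_le_toReal (hfin x y)).1 h
  have hsymm : ∀ x y, D x y = D y x := fun x y => by simp only [D, riemDist_comm G x y]
  have htri : ∀ x y z, D x z ≤ D x y + D y z := fun x y z => by
    simp only [D]
    rw [← ENNReal.toReal_add (hfin _ _) (hfin _ _)]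
    exact ENNReal.toReal_mono (ENNReal.add_ne_top.2 ⟨hfin _ _, hfin _ _⟩)
      (riemDist_triangle G x y z)
  have hupper : ∀ x y, D x y ≤ M * ‖y - x‖ := fun x y => hDle (by positivity) (hup x y)
  have hlower : ∀ x y, m * ‖y - x‖ ≤ D x y := fun x y =>
    hDge (norm_le_riemDist G hm (fun x v => (hmM x v).1) x y)
  have hlip' : ∀ f : E3 → ℝ, ContDiff ℝ ∞ f → (∀ y v, fderiv ℝ f y v ^ 2 ≤ G y v v) →
      ∀ x y, f y - f x ≤ D x y := fun f hf h x y =>
    hDge (sub_le_riemDist G (hf.of_le (by simp)) h x y)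
  have hlip : ∀ l x y, u l y - u l x ≤ D x y := fun l =>
    hlip' (u l) (hu l) fun y v => (hGc y).2.2.1 l v
  have hchan : ∀ a, ∀ r ∈ Ioo (0 : ℝ) 1, ∀ r' ∈ Ioo (0 : ℝ) 1, r ≤ r' →
      D (c.γ a r) (c.γ a r') ≤ c.sig a (c.γ a r') - c.sig a (c.γ a r) := by
    intro a r hr r' hr' hrr
    have hsub : Icc r r' ⊆ Ioo 0 1 := fun t ht => ⟨hr.1.trans_le ht.1, ht.2.trans_lt hr'.2⟩
    have hS : ∀ t ∈ Icc r r', HasDerivAt (fun t => c.sig a (c.γ a t))
        (fderiv ℝ (c.sig a) (c.γ a t) (deriv (c.γ a) t)) t := fun t ht =>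
      (((c.sig_smooth a).differentiable (by simp)) _).hasFDerivAt.comp_hasDerivAt t
        ((c.γ_smooth a t (hsub ht)).differentiableAt (by simp)).hasDerivAt
    have hmono : c.sig a (c.γ a r) ≤ c.sig a (c.γ a r') := by
      refine (monotoneOn_of_deriv_nonneg (convex_Icc r r')
        (fun t ht => (hS t ht).continuousAt.continuousWithinAt)
        (fun t ht => (hS t (interior_subset ht)).differentiableAt.differentiableWithinAt)
        (fun t ht => ?_)) (left_mem_Icc.2 hrr) (right_mem_Icc.2 hrr) hrr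
      rw [(hS t (interior_subset ht)).deriv]
      exact (c.dS a t (hsub (interior_subset ht))).le
    refine hDle (sub_nonneg.2 hmono) (riemDist_le_of_deriv G hrr
      (fun t ht => ((c.γ_smooth a t (hsub ht)).of_le (by simp)).contDiffWithinAt) hS
      (fun t ht => ?_) (fun t ht => (c.dS a t (hsub ht)).le)
      fun t ht => (hGc _).2.2.2.2.1 a 0 t (hsub ht) (by simp))
    have h1 := c.γ_smooth a t (hsub ht)
    have h2 : ContDiffAt ℝ ∞ (deriv (c.γ a)) t := by
      have := (h1.fderiv_right (m := ∞) le_rfl).clm_apply (contDiffAt_const (c := (1 : ℝ)))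
      exact this
    exact ((((contDiff_fderiv (c.sig_smooth a)).contDiffAt).comp t h1).clm_apply
      h2).continuousAt.continuousWithinAt
  have huγ : ∀ l a, ∀ r ∈ Ioo (0 : ℝ) 1, u l (c.γ a r) = c.F a l (c.γ a r) := fun l a r hr => by
    have := (hgerm l (Sum.inl a) 0 (c.γ a r) (c.mem_Γ_inl.2 ⟨r, hr, by simp⟩)).eq_of_nhds
    simpa [Fm, dot] using this
  have hzc : ∀ l a σ, Cal (fun r => c.F a l (c.γ a r)) (fun r => c.sig a (c.γ a r)) σ →
      ∀ η > 0, ∃ τ τ' : ℤ, df D (u l) (bp (c.typ a (!σ)) + cv (c.κ a (!σ) + ev (c.typ a (!σ)) τ))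
        (bp (c.typ a σ) + cv (c.κ a σ + ev (c.typ a σ) τ')) < η := by
    rintro l a σ ⟨C, hC⟩ η hη
    have hη' : 0 < η / (8 * M) := by positivity
    have hQ : ∀ σ : Bool, ∀ᶠ r in lf σ, 0 < (sz σ : ℝ) * (r - 1 / 2) := fun σ => by
      cases σ
      · filter_upwards [Ioo_mem_nhdsGT (show (0 : ℝ) < 1 / 2 by norm_num)] with r hr
        simp only [sz]; push_cast; linarith [hr.2]
      · filter_upwards [Ioo_mem_nhdsLT (show (1 / 2 : ℝ) < 1 by norm_num)] with r hr
        simp only [sz]; push_cast; linarith [hr.1]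
    obtain ⟨n, r, hr, -, -, h1, -, h2, -⟩ := c.approach a (!σ) (hQ _) hη' 0
    obtain ⟨n', r', hr', -, -, h1', -, h2', -⟩ := c.approach a σ (hQ _) hη' 0
    refine ⟨n, n', ?_⟩
    have key : df D (u l) (c.γ a r) (c.γ a r') ≤ 0 := by
      unfold df
      rw [huγ l a r hr, huγ l a r' hr']
      have e1 := hC r hr
      have e2 := hC r' hr'
      simp only at e1 e2
      rw [e1, e2]
      cases σ
      · simp only [sz, Bool.not_false] at h1 h1' ⊢
        push_cast at h1 h1' ⊢
        have := hchan a r' hr' r hr (by linarith)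
        rw [hsymm]; linarith
      · simp only [sz, Bool.not_true] at h1 h1' ⊢
        push_cast at h1 h1' ⊢
        have := hchan a r hr r' hr' (by linarith)
        linarith
    set x := bp (c.typ a (!σ)) + cv (c.κ a (!σ) + ev (c.typ a (!σ)) n)
    set y := bp (c.typ a σ) + cv (c.κ a σ + ev (c.typ a σ) n')
    have t1 := htri x (c.γ a r) y
    have t2 := htri (c.γ a r) (c.γ a r') y
    have b1 := hupper x (c.γ a r)
    have b2 := hupper y (c.γ a r')
    have l1 := hlip l (c.γ a r) x
    have l2 := hlip l y (c.γ a r')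
    rw [hsymm] at l1
    rw [hsymm (c.γ a r') y] at t2
    have c1 := mul_lt_mul_of_pos_left h2 hM
    have c2 := mul_lt_mul_of_pos_left h2' hM
    have e : M * (η / (8 * M)) = η / 8 := by field_simp
    unfold df at key ⊢
    linarith
  have hD : MetData D u m M c.Γ :=
    { symm := hsymm
      tri := htri
      mpos := hm
      Mpos := hM
      lower := hlower
      upper := hupper
      per := fun x y k => by simp only [D, riemDist_translate G hGper]
      lip := hlip
      uper := hper
      axis := fun i n => by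
        obtain ⟨s, hs, hsn⟩ : ∃ s : ℝ, s ^ 2 = 1 ∧ |(n : ℝ)| * s = n := by
          rcases abs_cases (n : ℝ) with h | h
          · exact ⟨1, by norm_num, by linarith⟩
          · exact ⟨-1, by norm_num, by linarith⟩
        have hd : ∀ t : ℝ, HasDerivAt (fun t : ℝ => bp i + (t * s) • (Pi.single i 1 : E3))
            (s • (Pi.single i 1 : E3)) t := fun t => by
          simpa using (((hasDerivAt_id t).mul_const s).smul_const (Pi.single i 1 : E3)).const_add
            (bp i)
        have := riemDist_le_of_deriv G (γ := fun t : ℝ => bp i + (t * s) • (Pi.single i 1 : E3))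
          (abs_nonneg (n : ℝ)) (by fun_prop) (S := fun t => t) (S' := fun _ => 1)
          (fun t _ => hasDerivAt_id t) continuousOn_const (fun _ _ => zero_le_one)
          (fun t _ => by
            rw [(hd t).deriv]
            have h1 := (hGc (bp i + (t * s) • (Pi.single i 1 : E3))).2.2.2.2.2 i 0
              ⟨by simp [bp, fin3_ne1, fin3_ne3], by simp [bp, fin3_ne2]⟩
            simp only [map_smul, smul_apply, smul_eq_mul]
            rw [← mul_assoc, ← sq, hs]; linarith)
        refine hDle (abs_nonneg _) ?_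
        convert this using 2
        · simp
        · rw [hsn]; ext r; by_cases hr : r = i
          · subst hr; simp [ev]
          · simp [ev, hr]
        · simp
      hom := fun l i j hij η hη => by
        obtain ⟨a, σ, e1, e2, e3, hcal⟩ := c.hom l i j hij
        obtain ⟨τ, τ', h⟩ := hzc l a σ hcal η hη
        rw [e1, e2, e3] at h
        refine ⟨τ, τ', ?_⟩
        unfold df at h ⊢
        have e4 : bp i + cv (c.κ a (!σ) + ev i τ) = bp i + cv (ev i τ) + cv (c.κ a (!σ)) := by
          simp only [cv_add]; abel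
        have e5 : bp i + cv (c.κ a (!σ) + ev j (sz (l j)) + ev i τ') =
            bp i + cv (ev j (sz (l j)) + ev i τ') + cv (c.κ a (!σ)) := by
          simp only [cv_add]; abel
        rw [e4, e5, hper, hper l (bp i + cv (ev i τ))] at h
        simp only [D, riemDist_translate G hGper] at h ⊢
        linarith
      het := fun l i j hij η hη => by
        obtain ⟨a, σ, e1, e2, e3, hcal⟩ := c.het l i j hij
        obtain ⟨τ, τ', h⟩ := hzc l a σ hcal η hη
        rw [e1, e2, e3] at h
        refine ⟨τ, τ', ?_⟩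
        unfold df at h ⊢
        have e4 : bp i + cv (c.κ a (!σ) + ev i τ) = bp i + cv (ev i τ) + cv (c.κ a (!σ)) := by
          simp only [cv_add]; abel
        have e5 : bp j + cv (c.κ a (!σ) + ev j τ') = bp j + cv (ev j τ') + cv (c.κ a (!σ)) := by
          simp only [cv_add]; abel
        rw [e4, e5, hper, hper l (bp i + cv (ev i τ))] at h
        simp only [D, riemDist_translate G hGper] at h ⊢
        linarith
      cal := fun l f hf hcal => by
        have hcont : Continuous f := by
          refine (LipschitzWith.of_dist_le' (K := m⁻¹) fun s t => ?_).continuous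
          rw [dist_eq_norm, Real.dist_eq, ← hf t s, inv_mul_eq_div, le_div_iff₀ hm, mul_comm]
          exact hlower _ _
        have hp : ∀ s t, |t - s| ≤ M * ‖f t - f s‖ := fun s t => by
          rw [← hf s t]; exact hupper _ _
        refine c.range_eq hcont (fun s t hst => ?_) (fun t => by simpa using hp 0 t) hM fun t => ?_
        · have := hp s t
          rw [hst, sub_self, norm_zero, mul_zero, abs_nonpos_iff, sub_eq_zero] at this
          exact this.symm
        · by_contra hK
          obtain ⟨g, hg, hgG, hg1, hg2⟩ := exists_perturb hG.continuous (hu l)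
            (fun y v => (hGc y).2.2.1 l v) (x := f t) (by
              filter_upwards [c.loc_off hK] with y hy using (hGc y).2.2.2.1 hy l)
          have h1 := hp t (t - M)
          rw [sub_sub_cancel_left, abs_neg, abs_of_pos hM] at h1
          have h2 := hg2 (f (t - M)) (by nlinarith)
          have h3 := hlip' g hg hgG (f (t - M)) (f t)
          have h4 := hcal (t - M) t
          rw [hf, sub_sub_cancel, abs_of_pos hM] at h3
          linarith
      acc := fun b => by
        rcases b with a | i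
        · refine ⟨c.typ a false, fun η hη τ => ?_⟩
          obtain ⟨n, r, hr, r', hr', -, -, h1, h2⟩ := c.approach a false
            (Q := fun _ => True) (Eventually.of_forall fun _ => trivial) hη τ
          exact ⟨_, _, ⟨r, hr, rfl⟩, _, ⟨r', hr', rfl⟩, h1, h2⟩
        · refine ⟨i, fun η hη τ => ⟨0, bp i, ⟨?_, ?_⟩, bp i + cv (ev i τ), ⟨?_, ?_⟩, ?_, ?_⟩⟩
          · simp [bp, fin3_ne3]
          · simp [bp]
          · simp [bp, ev, fin3_ne1, fin3_ne3]
          · simp [bp, ev, fin3_ne2]
          · simpa using hη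
          · simpa using hη }
  obtain ⟨S, hSf⟩ := hD.finite_lines_SH
  refine ⟨G, hG, fun x => (hGc x).1, hpos, hGper, S, fun f hf => hSf f fun s t => ?_⟩
  simp only [D, hf, ENNReal.toReal_ofReal (abs_nonneg _)]

end Chan

end Pool.Agent.MP_4d76c1_gt

end

namespace Pool.Agent.MP_4d76c1_gt.Low

theorem sh_pf : SH_st := by
  classical
  obtain ⟨G, hG, hs, hp, hper, rep, hSf⟩ := chan.main_SH
  have hd : tensorDist (fun i j x => G x (Pi.single i 1) (Pi.single j 1)) = riemDist G := by
    ext x y
    simp only [tensorDist, riemDist, bil_expand]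
  refine ⟨fun i j x => G x (Pi.single i 1) (Pi.single j 1), fun i j n => ?_,
    fun i j => funext fun x => hs x _ _, fun x v hv => ?_, fun i j x k => ?_,
    Finset.univ.image (fun z t i => ((rep z t i : ℝ) : AddCircle (1 : ℝ))), ?_, fun c hc => ?_⟩
  · exact ((hG.clm_apply contDiff_const).clm_apply contDiff_const).of_le
      (by exact_mod_cast le_top)
  · rw [bil_expand]; exact hp x v hv
  · exact congrArg (fun Q : Bil => Q (Pi.single i 1) (Pi.single j 1)) (hper x k)
  · refine Finset.card_image_le.trans (le_of_eq ?_)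
    simp
  rw [hd] at hc
  obtain ⟨z, a, b, k, ha, hk⟩ := hSf c hc
  refine ⟨_, Finset.mem_image_of_mem _ (Finset.mem_univ z), a, b, ha, fun t i => ?_⟩
  rw [hk t]
  have : ((k i : ℝ) : AddCircle (1 : ℝ)) = 0 := by
    rw [AddCircle.coe_eq_zero_iff]
    exact ⟨k i, by simp⟩
  simp [this]

end Pool.Agent.MP_4d76c1_gt.Low
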