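import Mathlib

/-! Lower bound for the number of lines in a cocompact lattice cover: definitions, small lemmas,
statements of the steps. -/

set_option autoImplicit false

namespace Pool.Agent.MP_4d76c1_gt.Low

open Filter Topology Set

abbrev E (n : ℕ) : Type := Fin n → ℝ
abbrev G (n : ℕ) : Type := Fin n → ℤ

def cv {n : ℕ} (k : G n) : E n := fun i => k i

theorem cv_add {n : ℕ} (k k' : G n) : cv (k + k') = cv k + cv k' := by ext i; simp [cv]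
theorem cv_neg {n : ℕ} (k : G n) : cv (-k) = -cv k := by ext i; simp [cv]
theorem cv_zero {n : ℕ} : cv (0 : G n) = 0 := by ext i; simp [cv]

theorem abs_dot_le {n : ℕ} (l y : E n) : |l ⬝ᵥ y| ≤ n * ‖l‖ * ‖y‖ := by
  refine (Finset.abs_sum_le_sum_abs _ _).trans ?_
  calc ∑ i, |l i * y i| ≤ ∑ _i : Fin n, ‖l‖ * ‖y‖ := Finset.sum_le_sum fun i _ => by
        rw [abs_mul]
        exact mul_le_mul (norm_le_pi_norm l i) (norm_le_pi_norm y i) (abs_nonneg _) (norm_nonneg _)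
    _ = _ := by simp [mul_assoc]

theorem cont_dot {n : ℕ} (l : E n) : Continuous fun y : E n => l ⬝ᵥ y :=
  continuous_const.dotProduct continuous_id

/-- the ultrafilter along which limits are taken -/
noncomputable abbrev UU : Filter ℕ := (hyperfilter ℕ : Filter ℕ)

theorem UU_le : UU ≤ atTop := Nat.hyperfilter_le_atTop

theorem ulim {Y : Type} [TopologicalSpace Y] {K : Set Y} (hK : IsCompact K) {x : ℕ → Y}
    (hx : ∀ᶠ m in UU, x m ∈ K) : ∃ y ∈ K, Tendsto x UU (𝓝 y) :=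
  hK.ultrafilter_le_nhds ((hyperfilter ℕ).map x) (le_principal_iff.2 hx)

/-! ### Convex geometry -/

section pure
variable {n : ℕ} {T : Type}

/-- `v` is the normal of a facet of `Bs` and `l₀` is an inner point of this facet -/
def Exp (Bs : Set (E n)) (v l₀ : E n) : Prop := (∀ l ∈ Bs, l ⬝ᵥ v ≤ 1) ∧ l₀ ⬝ᵥ v = 1 ∧
  ∃ ρ : ℝ, 0 < ρ ∧ ∀ μ : E n, μ ⬝ᵥ v = 0 → ‖μ‖ ≤ ρ → l₀ + μ ∈ Bs

/-- every boundary point of the facet is seen by one of the vectors `y t` -/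
def Guard (Bs : Set (E n)) (v l₀ : E n) (S : Set T) (y : T → E n) : Prop :=
  (∀ t ∈ S, 0 < l₀ ⬝ᵥ y t) ∧ ∀ μ : E n, μ ⬝ᵥ v = 0 → l₀ + μ ∈ Bs →
    (∀ η : ℝ, 0 < η → l₀ + (1 + η) • μ ∉ Bs) → ∃ t ∈ S, (l₀ + μ) ⬝ᵥ y t ≤ 0

def Pos (Bs : Set (E n)) (v : E n) (S : Set T) (y : T → E n) : Prop :=
  ∀ t ∈ S, ∀ l ∈ Bs, l ⬝ᵥ v = 1 → 0 ≤ l ⬝ᵥ y t

/-- `Bs` is cut out by the facet normals `Q` -/
def Poly (Bs : Set (E n)) (Q : Finset (E n)) : Prop :=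
  (∀ q ∈ Q, ∃ l₀, Exp Bs q l₀) ∧ Bs = {l | ∀ q ∈ Q, l ⬝ᵥ q ≤ 1}

def Cube (Bs : Set (E n)) (v f : Fin n → E n) : Prop :=
  (∀ i j, f i ⬝ᵥ v j = if i = j then 1 else 0) ∧ Bs = {l | ∀ i, |l ⬝ᵥ v i| ≤ 1}

end pure

def PL1_st : Prop := ∀ (n : ℕ) (Bs P : Set (E n)), P.Finite → Bs = {l | ∀ p ∈ P, l ⬝ᵥ p ≤ 1} →
  ∃ Q, Poly Bs Q

def PL2_st : Prop := ∀ (n : ℕ) (Bs : Set (E n)) (Q : Finset (E n)), Poly Bs Q →
  Bornology.IsBounded Bs → (∀ l ∈ Bs, -l ∈ Bs) → (∃ v f, Cube Bs v f) ∨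
    ∃ V : Finset (E n), 2 * n + 2 ≤ V.card ∧ ∀ v ∈ V, ∃ l₀, Exp Bs v l₀

def G1_st : Prop := ∀ (n : ℕ) (T : Type) (Bs : Set (E n)) (v l₀ : E n) (S : Set T) (y : T → E n),
  2 ≤ n → Bornology.IsBounded Bs → IsClosed Bs → Exp Bs v l₀ → S.Finite → Guard Bs v l₀ S y →
  n ≤ S.ncard

def G2_st : Prop := ∀ (n : ℕ) (Bs : Set (E n)) (v f : Fin n → E n), Cube Bs v f →
  (∀ i j (σ σ' : ℝ), (σ = 1 ∨ σ = -1) → (σ' = 1 ∨ σ' = -1) → σ • v i = σ' • v j → i = j ∧ σ = σ') ∧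
  ∀ (i : Fin n) (σ : ℝ), (σ = 1 ∨ σ = -1) → Exp Bs (σ • v i) (σ • f i) ∧
    ∀ (T : Type) (S : Set T) (y : T → E n), S.Finite → Guard Bs (σ • v i) (σ • f i) S y →
      Pos Bs (σ • v i) S y → 2 * (n - 1) ≤ S.ncard

/-! ### The space -/

section space
variable (n : ℕ) (X : Type) [MetricSpace X] [AddAction (G n) X]

structure Sp : Prop where
  prop : ProperSpace X
  iso : ∀ (k : G n) (x y : X), dist (k +ᵥ x) (k +ᵥ y) = dist x y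
  pd : ∀ (x : X) (R : ℝ), {k : G n | dist x (k +ᵥ x) ≤ R}.Finite
  coc : ∃ (x₀ : X) (R : ℝ), ∀ x : X, ∃ k : G n, dist (k +ᵥ x) x₀ ≤ R
  len : ∀ (x y : X) (L : ℝ), dist x y < L → ∃ p : ℝ → X, LipschitzWith 1 p ∧ p 0 = x ∧ p L = y

/-- the dual unit ball -/
def B : Set (E n) := {l | ∀ (x : X) (k : G n), l ⬝ᵥ cv k ≤ dist x (k +ᵥ x)}

variable {X}

/-- equal up to a translation and a shift of time -/
def Rel (c c' : ℝ → X) : Prop := ∃ (k : G n) (b : ℝ), ∀ t, c' t = k +ᵥ c (t + b)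

/-- finitely many classes of oriented lines -/
structure Fint {T : Type} (τ : (ℝ → X) → T) : Prop where
  fin : (τ '' {c | Isometry c}).Finite
  rel : ∀ c c', Isometry c → Isometry c' → τ c = τ c' → Rel n c c'

variable {n}

def Eqv (F : X → E n) : Prop :=
  (∃ K, LipschitzWith K F) ∧ ∀ (k : G n) (x : X), F (k +ᵥ x) = F x + cv k

def Cal (l : E n) (u : X → ℝ) : Prop :=
  LipschitzWith 1 u ∧ ∀ (k : G n) (x : X), u (k +ᵥ x) = u x + l ⬝ᵥ cv k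

/-- backward direction -/
def Dir (F : X → E n) (c : ℝ → X) (w : E n) : Prop :=
  Tendsto (fun j : ℕ => (j : ℝ)⁻¹ • (F (c 0) - F (c (-j)))) UU (𝓝 w)

/-- bounded defect -/
def Bd (u : X → ℝ) (c : ℝ → X) : Prop :=
  ∃ M : ℝ, ∀ s t, s ≤ t → t - s - (u (c t) - u (c s)) ≤ M

structure Fr (v l₀ : E n) (Ψ : X → E n) (A : ℝ) : Prop where
  one : l₀ ⬝ᵥ v = 1
  pos : 0 < A
  eqv : ∀ (k : G n) (x : X), Ψ (k +ᵥ x) = Ψ x + cv k
  cone : ∀ (x y : X) (τ : ℝ), dist x y ≤ τ →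
    ‖τ • v - (Ψ y - Ψ x)‖ ≤ A * (τ - l₀ ⬝ᵥ (Ψ y - Ψ x))

def De (v : E n) (Ψ : X → E n) (c : ℝ → X) (t : ℝ) : E n := t • v - Ψ (c t)

/-- lines without defect -/
def Zer (v : E n) (Ψ : X → E n) (c : ℝ → X) : Prop :=
  Isometry c ∧ ∀ s t, De v Ψ c s = De v Ψ c t

/-- lines with finite defect `y` -/
def Fi (v : E n) (Ψ : X → E n) (c : ℝ → X) (y : E n) : Prop :=
  Isometry c ∧ ∃ a b, Tendsto (De v Ψ c) atBot (𝓝 a) ∧ Tendsto (De v Ψ c) atTop (𝓝 b) ∧ y = b - a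

/-- Busemann function of the backward ray -/
def Bus (γ : ℝ → X) (b : X → ℝ) : Prop := LipschitzWith 1 b ∧ (∀ t, b (γ t) = t) ∧
  ∀ (x : X) (ε : ℝ), 0 < ε → ∃ T, dist (γ (-T)) x < b x + T + ε

theorem lip_sub {u : X → ℝ} (hu : LipschitzWith 1 u) (x y : X) : u y - u x ≤ dist x y := by
  have := hu.dist_le_mul y x
  rw [NNReal.coe_one, one_mul, Real.dist_eq, dist_comm] at this
  exact (le_abs_self _).trans this

theorem lip_path {p : ℝ → X} (hp : LipschitzWith 1 p) {s t : ℝ} (h : s ≤ t) :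
    dist (p s) (p t) ≤ t - s := by
  have := hp.dist_le_mul t s
  rwa [NNReal.coe_one, one_mul, Real.dist_eq, abs_of_nonneg (sub_nonneg.2 h), dist_comm] at this

theorem isometry_of_le {c : ℝ → X} (hc : LipschitzWith 1 c)
    (h : ∀ s t, s ≤ t → t - s ≤ dist (c s) (c t)) : Isometry c := by
  refine Isometry.of_dist_eq fun s t => ?_
  rcases le_total s t with e | e
  · rw [Real.dist_eq, abs_sub_comm, abs_of_nonneg (sub_nonneg.2 e)]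
    exact le_antisymm (lip_path hc e) (h s t e)
  · rw [Real.dist_eq, abs_of_nonneg (sub_nonneg.2 e), dist_comm]
    exact le_antisymm (lip_path hc e) (h t s e)

theorem lip_shift {p : ℝ → X} (hp : LipschitzWith 1 p) (a : ℝ) :
    LipschitzWith 1 fun t => p (t + a) :=
  LipschitzWith.of_dist_le_mul fun s t => by simpa using hp.dist_le_mul (s + a) (t + a)

theorem Sp.cont (h : Sp n X) (k : G n) : Isometry fun x : X => k +ᵥ x :=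
  Isometry.of_dist_eq (h.iso k)

theorem Cal.mem {l : E n} {u : X → ℝ} (hu : Cal l u) : l ∈ B n X := fun x k => by
  have := lip_sub hu.1 x (k +ᵥ x)
  rw [hu.2] at this
  linarith

/-- a calibration exists as soon as the inequality holds at one point -/
theorem Sp.cal (h : Sp n X) {l : E n} {x₁ : X} (hl : ∀ k : G n, l ⬝ᵥ cv k ≤ dist x₁ (k +ᵥ x₁)) :
    ∃ u : X → ℝ, Cal l u := by
  have hb : ∀ x : X, BddBelow (range fun k : G n => dist (k +ᵥ x₁) x + l ⬝ᵥ cv k) := fun x => by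
    refine ⟨-dist x₁ x, ?_⟩
    rintro _ ⟨k, rfl⟩
    have h1 := hl (-k)
    rw [cv_neg, dotProduct_neg, ← h.iso k, vadd_neg_vadd] at h1
    have h2 := dist_triangle_right (k +ᵥ x₁) x₁ x
    simp only
    linarith
  refine ⟨fun x => ⨅ k : G n, (dist (k +ᵥ x₁) x + l ⬝ᵥ cv k), ?_, fun j x => ?_⟩
  · refine LipschitzWith.of_le_add fun x y => ?_
    rw [← sub_le_iff_le_add]
    refine le_ciInf fun k => ?_
    have h1 := ciInf_le (hb x) k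
    have h2 := dist_triangle (k +ᵥ x₁) y x
    rw [dist_comm y x] at h2
    linarith
  · simp only
    rw [← (Equiv.addLeft j).iInf_comp, ciInf_add (hb x)]
    refine iInf_congr fun k => ?_
    simp only [Equiv.coe_addLeft, add_vadd, h.iso, cv_add, dotProduct_add]
    ring

theorem Sp.cal' (h : Sp n X) {l : E n} (hl : l ∈ B n X) : ∃ u : X → ℝ, Cal l u := by
  obtain ⟨x₀, -⟩ := h.coc
  exact h.cal (hl x₀)

theorem B_neg (h : Sp n X) {l : E n} (hl : l ∈ B n X) : -l ∈ B n X := fun x k => by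
  have h1 := hl x (-k)
  rw [cv_neg, dotProduct_neg, ← h.iso k, vadd_neg_vadd, dist_comm] at h1
  rwa [neg_dotProduct]

theorem B_closed : IsClosed (B n X) := by
  have : B n X = ⋂ (x : X) (k : G n), {l : E n | l ⬝ᵥ cv k ≤ dist x (k +ᵥ x)} := by
    ext l; simp [B]
  rw [this]
  exact isClosed_iInter fun x => isClosed_iInter fun k =>
    isClosed_le (continuous_id.dotProduct continuous_const) continuous_const

theorem B_bounded (h : Sp n X) : Bornology.IsBounded (B n X) := by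
  obtain ⟨x₀, -⟩ := h.coc
  refine (isBounded_iff_forall_norm_le).2
    ⟨‖fun i : Fin n => dist x₀ ((Pi.single i 1 : G n) +ᵥ x₀)‖, fun l hl => ?_⟩
  refine (pi_norm_le_iff_of_nonneg (norm_nonneg _)).2 fun i => ?_
  have e : ∀ l : E n, l ⬝ᵥ cv (Pi.single i 1 : G n) = l i := fun l => by
    have : cv (Pi.single i 1 : G n) = Pi.single i 1 := by
      ext j; by_cases hj : j = i <;> simp [cv, hj]
    rw [this, dotProduct_single, mul_one]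
  have h1 := hl x₀ (Pi.single i 1)
  have h2 := B_neg h hl x₀ (Pi.single i 1)
  rw [e] at h1 h2
  refine le_trans ?_ (norm_le_pi_norm _ i)
  rw [Real.norm_eq_abs, Real.norm_eq_abs, abs_of_nonneg dist_nonneg, abs_le]
  exact ⟨by simpa [neg_le] using h2, h1⟩

/-- periodic Lipschitz maps are bounded -/
theorem Sp.bdd (h : Sp n X) {Y : Type} [SeminormedAddCommGroup Y] {f : X → Y} {K : NNReal}
    (hf : LipschitzWith K f) (hp : ∀ (k : G n) (x : X), f (k +ᵥ x) = f x) :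
    ∃ C : ℝ, 0 ≤ C ∧ ∀ x, ‖f x‖ ≤ C := by
  obtain ⟨x₀, R, hR⟩ := h.coc
  have key : ∀ x, ‖f x‖ ≤ ‖f x₀‖ + K * R := fun x => by
    obtain ⟨k, hk⟩ := hR x
    have h1 := hf.dist_le_mul (k +ᵥ x) x₀
    rw [hp, dist_eq_norm] at h1
    have h2 := norm_sub_norm_le (f x) (f x₀)
    have h3 := h1.trans (mul_le_mul_of_nonneg_left hk K.coe_nonneg)
    linarith
  exact ⟨_, (norm_nonneg _).trans (key x₀), key⟩

theorem Eqv.lip_dot {F : X → E n} (hF : Eqv F) (l : E n) :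
    ∃ K, LipschitzWith K fun x => l ⬝ᵥ F x := by
  obtain ⟨K, hK⟩ := hF.1
  refine ⟨⟨n * ‖l‖, by positivity⟩ * K, LipschitzWith.of_dist_le_mul fun x y => ?_⟩
  rw [Real.dist_eq, ← dotProduct_sub]
  refine (abs_dot_le _ _).trans ?_
  have := hK.dist_le_mul x y
  rw [dist_eq_norm] at this
  rw [NNReal.coe_mul, mul_assoc (_ : ℝ) (K : ℝ)]
  exact mul_le_mul_of_nonneg_left this (by positivity)

theorem Sp.bdd_cal (h : Sp n X) {F : X → E n} (hF : Eqv F) {l : E n} {u : X → ℝ} (hu : Cal l u) :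
    ∃ C : ℝ, 0 ≤ C ∧ ∀ x, |l ⬝ᵥ F x - u x| ≤ C := by
  obtain ⟨K, hK⟩ := hF.lip_dot l
  exact h.bdd (hK.sub hu.1) fun k x => by rw [hF.2, hu.2, dotProduct_add]; ring

theorem Sp.bdd_eqv (h : Sp n X) {F F' : X → E n} (hF : Eqv F) (hF' : Eqv F') :
    ∃ C : ℝ, 0 ≤ C ∧ ∀ x, ‖F x - F' x‖ ≤ C := by
  obtain ⟨K, hK⟩ := hF.1
  obtain ⟨K', hK'⟩ := hF'.1
  exact h.bdd (hK.sub hK') fun k x => by rw [hF.2, hF'.2]; abel

/-- limits of translated paths -/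
theorem Sp.lim (h : Sp n X) (p : ℕ → ℝ → X) (hp : ∀ m, LipschitzWith 1 (p m)) :
    ∃ (k : ℕ → G n) (c : ℝ → X), LipschitzWith 1 c ∧
      ∀ t, Tendsto (fun m => k m +ᵥ p m t) UU (𝓝 (c t)) := by
  obtain ⟨x₀, R, hR⟩ := h.coc
  have := h.prop
  choose k hk using fun m => hR (p m 0)
  have hex : ∀ t, ∃ y ∈ Metric.closedBall x₀ (|t| + R),
      Tendsto (fun m => k m +ᵥ p m t) UU (𝓝 y) := fun t =>
    ulim (isCompact_closedBall _ _) (Eventually.of_forall fun m => by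
      have h1 := (hp m).dist_le_mul t 0
      rw [NNReal.coe_one, one_mul, Real.dist_eq, sub_zero, ← h.iso (k m)] at h1
      exact (dist_triangle _ _ _).trans (add_le_add h1 (hk m)))
  choose c _ hc using hex
  refine ⟨k, c, LipschitzWith.of_dist_le_mul fun s t => ?_, hc⟩
  refine le_of_tendsto ((hc s).dist (hc t)) (Eventually.of_forall fun m => ?_)
  rw [h.iso]
  exact (hp m).dist_le_mul s t

theorem Rel.iso (h : Sp n X) {c c' : ℝ → X} (hr : Rel n c c') (hc : Isometry c) : Isometry c' := by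
  obtain ⟨k, b, e⟩ := hr
  refine Isometry.of_dist_eq fun s t => ?_
  rw [e, e, h.iso, hc.dist_eq, dist_add_right]

theorem Rel.symm {c c' : ℝ → X} (hr : Rel n c c') : Rel n c' c := by
  obtain ⟨k, b, e⟩ := hr
  exact ⟨-k, -b, fun t => by rw [e, neg_vadd_vadd, neg_add_cancel_right]⟩

/-- an invariant of lines takes finitely many values -/
theorem Fint.finite {T Z : Type} {τ : (ℝ → X) → T} (hτ : Fint n τ) (R : (ℝ → X) → Z → Prop)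
    (h1 : ∀ c z z', R c z → R c z' → z = z')
    (h2 : ∀ c c' z, Isometry c → Rel n c c' → R c z → R c' z) :
    {z | ∃ c, Isometry c ∧ R c z}.Finite := by
  refine (hτ.fin.biUnion (t := fun t => {z | ∃ c, Isometry c ∧ τ c = t ∧ R c z})
    fun t _ => Set.Subsingleton.finite ?_).subset ?_
  · rintro z ⟨c, hc, e, hz⟩ z' ⟨c', hc', e', hz'⟩
    exact h1 c' _ _ (h2 c c' z hc (hτ.rel c c' hc hc' (e.trans e'.symm)) hz) hz'
  · rintro z ⟨c, hc, hz⟩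
    exact mem_biUnion (mem_image_of_mem τ hc) ⟨c, hc, rfl, hz⟩

namespace Fr
variable {v l₀ : E n} {Ψ : X → E n} {A : ℝ} (f : Fr v l₀ Ψ A)
include f

theorem le (x y : X) : l₀ ⬝ᵥ Ψ y - l₀ ⬝ᵥ Ψ x ≤ dist x y := by
  have h := (norm_nonneg _).trans (f.cone x y _ le_rfl)
  rw [dotProduct_sub] at h
  have := (mul_nonneg_iff_of_pos_left f.pos).1 h
  linarith

theorem cal : Cal l₀ fun x => l₀ ⬝ᵥ Ψ x :=
  ⟨LipschitzWith.of_le_add fun x y => by linarith [f.le y x, dist_comm x y],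
    fun k x => by simp only [f.eqv, dotProduct_add]⟩

theorem isEqv : Eqv Ψ := by
  have hA := f.pos
  refine ⟨⟨⟨‖v‖ + 2 * A, by positivity⟩, LipschitzWith.of_dist_le_mul fun x y => ?_⟩, f.eqv⟩
  have h1 := f.cone y x _ le_rfl
  have h2 := f.le x y
  have h3 := norm_sub_norm_le (Ψ x - Ψ y) (dist y x • v)
  rw [norm_sub_rev _ (dist y x • v), norm_smul, Real.norm_of_nonneg dist_nonneg] at h3
  rw [dotProduct_sub, dist_comm y x] at h1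
  rw [dist_comm y x] at h3
  rw [dist_eq_norm]
  change _ ≤ (‖v‖ + 2 * A) * dist x y
  nlinarith

theorem dot_De {l : E n} (hl : l ⬝ᵥ v = 1) (c : ℝ → X) (t : ℝ) :
    l ⬝ᵥ De v Ψ c t = t - l ⬝ᵥ Ψ (c t) := by
  rw [De, dotProduct_sub, dotProduct_smul, hl, smul_eq_mul, mul_one]

theorem De_le {p : ℝ → X} (hp : LipschitzWith 1 p) {s t : ℝ} (h : s ≤ t) :
    ‖De v Ψ p t - De v Ψ p s‖ ≤ A * (l₀ ⬝ᵥ De v Ψ p t - l₀ ⬝ᵥ De v Ψ p s) := by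
  have := f.cone (p s) (p t) _ (lip_path hp h)
  rw [f.dot_De f.one, f.dot_De f.one]
  convert this using 2
  · simp only [De, sub_smul]; abel
  · rw [dotProduct_sub]; ring

theorem De_mono {p : ℝ → X} (hp : LipschitzWith 1 p) : Monotone fun t => l₀ ⬝ᵥ De v Ψ p t :=
  fun _ _ h => sub_nonneg.1
    ((mul_nonneg_iff_of_pos_left f.pos).1 ((norm_nonneg _).trans (f.De_le hp h)))

theorem De_rel {c c' : ℝ → X} {k : G n} {b : ℝ} (e : ∀ t, c' t = k +ᵥ c (t + b)) (t : ℝ) :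
    De v Ψ c' t = De v Ψ c (t + b) - (b • v + cv k) := by
  simp only [De, e, f.eqv, add_smul]; abel

theorem zer_rel (h : Sp n X) {c c' : ℝ → X} (hr : Rel n c c') (hc : Zer v Ψ c) : Zer v Ψ c' := by
  refine ⟨hr.iso h hc.1, fun s t => ?_⟩
  obtain ⟨k, b, e⟩ := hr
  rw [f.De_rel e, f.De_rel e, hc.2 (s + b) (t + b)]

theorem fi_rel (h : Sp n X) {c c' : ℝ → X} {y : E n} (hr : Rel n c c') (hc : Fi v Ψ c y) :
    Fi v Ψ c' y := by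
  refine ⟨hr.iso h hc.1, ?_⟩
  obtain ⟨k, b, e⟩ := hr
  obtain ⟨-, a₁, a₂, h1, h2, rfl⟩ := hc
  refine ⟨a₁ - (b • v + cv k), a₂ - (b • v + cv k), ?_, ?_, by abel⟩
  · exact ((h1.comp (tendsto_atBot_add_const_right _ b tendsto_id)).sub_const _).congr
      fun t => (f.De_rel e t).symm
  · exact ((h2.comp (tendsto_atTop_add_const_right _ b tendsto_id)).sub_const _).congr
      fun t => (f.De_rel e t).symm

/-- the mass of a piece is at most the whole mass -/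
theorem fi_le {c : ℝ → X} {y : E n} (hc : Fi v Ψ c y) (s t : ℝ) :
    l₀ ⬝ᵥ De v Ψ c t - l₀ ⬝ᵥ De v Ψ c s ≤ l₀ ⬝ᵥ y := by
  obtain ⟨hc, a, b, h1, h2, rfl⟩ := hc
  have hm := f.De_mono hc.lipschitz
  have e1 := hm.le_of_tendsto (((cont_dot l₀).tendsto _).comp h1) s
  have e2 := hm.ge_of_tendsto (((cont_dot l₀).tendsto _).comp h2) t
  rw [dotProduct_sub]
  linarith

theorem fi_bd {c : ℝ → X} {y : E n} (hc : Fi v Ψ c y) : Bd (fun x => l₀ ⬝ᵥ Ψ x) c :=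
  ⟨l₀ ⬝ᵥ y, fun s t _ => by
    have := f.fi_le hc s t
    rw [f.dot_De f.one, f.dot_De f.one] at this
    linarith⟩

theorem fi_zer {c : ℝ → X} {y : E n} (hc : Fi v Ψ c y) (hy : l₀ ⬝ᵥ y ≤ 0) : Zer v Ψ c := by
  have key : ∀ s t, s ≤ t → De v Ψ c s = De v Ψ c t := fun s t e => by
    have h1 := f.De_le hc.1.lipschitz e
    have h2 := mul_le_mul_of_nonneg_left ((f.fi_le hc s t).trans hy) f.pos.le
    rw [mul_zero] at h2
    exact (sub_eq_zero.1 (norm_le_zero_iff.1 (h1.trans h2))).symm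
  exact ⟨hc.1, fun s t => (le_total s t).elim (key s t) fun e => (key t s e).symm⟩

end Fr

theorem Zer.fi {v : E n} {Ψ : X → E n} {c : ℝ → X} (hc : Zer v Ψ c) : Fi v Ψ c 0 :=
  ⟨hc.1, De v Ψ c 0, De v Ψ c 0, tendsto_const_nhds.congr (hc.2 0),
    tendsto_const_nhds.congr (hc.2 0), (sub_self _).symm⟩

theorem Zer.eq {v : E n} {Ψ : X → E n} {c : ℝ → X} (hc : Zer v Ψ c) (t : ℝ) :
    Ψ (c t) = Ψ (c 0) + t • v := by
  have := hc.2 t 0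
  simp only [De, zero_smul, zero_sub] at this
  rw [← sub_eq_iff_eq_add, ← neg_inj, ← this]
  abel

theorem Fi.uniq {v : E n} {Ψ : X → E n} {c : ℝ → X} {y y' : E n} (h : Fi v Ψ c y)
    (h' : Fi v Ψ c y') : y = y' := by
  obtain ⟨-, a, b, h1, h2, rfl⟩ := h
  obtain ⟨-, a', b', h1', h2', rfl⟩ := h'
  rw [tendsto_nhds_unique h1 h1', tendsto_nhds_unique h2 h2']

theorem Cal.bd_rel {l : E n} {u : X → ℝ} (hu : Cal l u) {c c' : ℝ → X} (hr : Rel n c c')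
    (hc : Bd u c) : Bd u c' := by
  obtain ⟨k, b, e⟩ := hr
  obtain ⟨M, hM⟩ := hc
  refine ⟨M, fun s t h => ?_⟩
  have := hM (s + b) (t + b) (by linarith)
  rw [e, e, hu.2, hu.2]
  linarith

variable (n X)

/-- an equivariant Lipschitz map -/
def SM_st : Prop := Sp n X → ∃ F : X → E n, Eqv F

/-- calibrated lines at boundary points -/
def E1_st : Prop := Sp n X → ∀ (l : E n) (u : X → ℝ), Cal l u →
  (∀ η : ℝ, 0 < η → (1 + η) • l ∉ B n X) →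
  ∃ c : ℝ → X, Isometry c ∧ ∀ s t, u (c t) - u (c s) = t - s

/-- directions -/
def DR_st : Prop := Sp n X → ∀ F : X → E n, Eqv F → ∀ c : ℝ → X, LipschitzWith 1 c →
  (∃ w, Dir F c w) ∧ ∀ w, Dir F c w → (∀ c', Rel n c c' → Dir F c' w) ∧
    (∀ F', Eqv F' → Dir F' c w) ∧
    (∀ (l : E n) (a C : ℝ), (∀ t, 0 ≤ t → l ⬝ᵥ (F (c 0) - F (c (-t))) ≤ a * t + C) → l ⬝ᵥ w ≤ a) ∧
    ∀ (v : E n) (a C : ℝ), (∀ t, 0 ≤ t → ‖t • v - (F (c 0) - F (c (-t)))‖ ≤ a * t + C) →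
      ‖v - w‖ ≤ a

def P_st : Prop := Sp n X → ∀ F : X → E n, Eqv F →
  B n X = {l | ∀ w ∈ {w | ∃ c, Isometry c ∧ Dir F c w}, l ⬝ᵥ w ≤ 1}

def FR_st : Prop := Sp n X → ∀ v l₀ : E n, Exp (B n X) v l₀ → ∃ (Ψ : X → E n) (A : ℝ), Fr v l₀ Ψ A

/-- finite mass: limits and limit lines -/
def FI_st : Prop := Sp n X → ∀ (v l₀ : E n) (Ψ : X → E n) (A : ℝ), Fr v l₀ Ψ A → ∀ c : ℝ → X,
  (Isometry c → Bd (fun x => l₀ ⬝ᵥ Ψ x) c → ∃ y, Fi v Ψ c y) ∧ ∀ y, Fi v Ψ c y → ∀ ε T : ℝ, 0 < ε →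
    (∃ s ≤ T, ∃ c', Zer v Ψ c' ∧ dist (c s) (c' 0) < ε) ∧
    (∃ s ≥ T, ∃ c', Zer v Ψ c' ∧ dist (c s) (c' 0) < ε)

def BU_st : Prop := ∀ γ : ℝ → X, Isometry γ → ∃ b, Bus γ b

/-- almost calibrated paths from one curve to another -/
def PE_st : Prop := Sp n X → ∀ (γ c : ℝ → X) (b : X → ℝ), Isometry γ → LipschitzWith 1 c →
  Bus γ b → (∃ C : ℝ, ∀ S, 0 ≤ S → -C ≤ b (c S) - S) → ∀ ε : ℝ, 0 < ε →
  ∃ (p : ℝ → X) (a a' S : ℝ), LipschitzWith 1 p ∧ 0 ≤ S ∧ (∀ t ≤ a, p t = γ t) ∧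
    (∀ t ≥ a', p t = c (S + t - a')) ∧ ∀ t, t - ε ≤ b (p t) ∧ b (p t) ≤ t

/-- transverse positions of the lines without defect -/
def ZC_st : Prop := Sp n X → ∀ (v l₀ : E n) (Ψ : X → E n) (A : ℝ), Fr v l₀ Ψ A →
  ∀ (T : Type) (τ : (ℝ → X) → T), Fint n τ →
  {z | ∃ c, Zer v Ψ c ∧ z = Ψ (c 0) - (l₀ ⬝ᵥ Ψ (c 0)) • v}.Countable ∧
  ∀ (z : ℕ → E n) (z' : E n), (∀ m, ∃ c, Zer v Ψ c ∧ z m = Ψ (c 0) - (l₀ ⬝ᵥ Ψ (c 0)) • v) →
    Tendsto z UU (𝓝 z') → ∃ c, Zer v Ψ c ∧ z' = Ψ (c 0) - (l₀ ⬝ᵥ Ψ (c 0)) • v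

def KL_st : Prop := Sp n X → ∀ (v l₀ : E n) (Ψ : X → E n) (A : ℝ), Fr v l₀ Ψ A →
  ∀ (T : Type) (τ : (ℝ → X) → T), Fint n τ → ∀ γ, Zer v Ψ γ → ∀ l : E n, l ⬝ᵥ v = 1 →
  (∀ c y, Fi v Ψ c y → 0 ≤ l ⬝ᵥ y) → l ∈ B n X

def HT_st : Prop := Sp n X → ∀ (v l₀ : E n) (Ψ : X → E n) (A : ℝ), Fr v l₀ Ψ A →
  ∀ (T : Type) (τ : (ℝ → X) → T), Fint n τ → ∀ γ, Zer v Ψ γ → ∀ (l : E n) (u : X → ℝ), Cal l u →
  l ⬝ᵥ v = 1 → ∀ (w : E n) (γ' : ℝ → X), LipschitzWith 1 γ' →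
  (∃ C : ℝ, ∀ t, ‖Ψ (γ' t) - t • w‖ ≤ C) → l ⬝ᵥ w = 1 → l₀ ⬝ᵥ w < 1 →
  ∃ c, Isometry c ∧ Dir Ψ c v ∧ ¬ Bd (fun x => l₀ ⬝ᵥ Ψ x) c ∧ Bd u c

def Y3_st : Prop := Sp n X → ∀ (v l₀ : E n) (Ψ : X → E n) (A : ℝ), Fr v l₀ Ψ A →
  ∀ c : ℝ → X, Isometry c → ¬ Bd (fun x => l₀ ⬝ᵥ Ψ x) c → ∃ y : E n, l₀ ⬝ᵥ y = 1 ∧
    ∀ (l : E n) (u : X → ℝ), Cal l u → l ⬝ᵥ v = 1 → 0 ≤ l ⬝ᵥ y ∧ (Bd u c → l ⬝ᵥ y ≤ 0)

def M1_st : Prop := Sp n X → ∀ (v l₀ : E n) (Ψ : X → E n) (A : ℝ), Fr v l₀ Ψ A →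
  ∀ γ, Zer v Ψ γ → (∀ c, Zer v Ψ c → Rel n γ c) → ∀ c y, Fi v Ψ c y →
  ∀ (l : E n) (u : X → ℝ), Cal l u → l ⬝ᵥ v = 1 → 0 ≤ l ⬝ᵥ y

/-- a line without defect -/
def Z0_st : Prop := Sp n X → ∀ (v l₀ : E n) (Ψ : X → E n) (A : ℝ), Fr v l₀ Ψ A →
  Exp (B n X) v l₀ → ∃ γ, Zer v Ψ γ

def GY2_st : Prop := Sp n X → ∀ (v l₀ : E n) (Ψ : X → E n) (A : ℝ), Fr v l₀ Ψ A →
  ∀ (T : Type) (τ : (ℝ → X) → T), Fint n τ → (∃ γ, Zer v Ψ γ) → ∃ y : T → E n,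
    Guard (B n X) v l₀ (τ '' {c | ∃ y, y ≠ 0 ∧ Fi v Ψ c y}) y ∧
    ((τ '' {c | Zer v Ψ c}).ncard ≤ 1 → Pos (B n X) v (τ '' {c | ∃ y, y ≠ 0 ∧ Fi v Ψ c y}) y)

def GY3_st : Prop := Sp n X → ∀ (v l₀ : E n) (Ψ : X → E n) (A : ℝ), Fr v l₀ Ψ A →
  ∀ (T : Type) (τ : (ℝ → X) → T), Fint n τ → (∃ γ, Zer v Ψ γ) → ∀ Q, Poly (B n X) Q →
  ∃ y : T → E n,
    Guard (B n X) v l₀ (τ '' {c | Isometry c ∧ Dir Ψ c v ∧ ¬ Bd (fun x => l₀ ⬝ᵥ Ψ x) c}) y ∧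
    Pos (B n X) v (τ '' {c | Isometry c ∧ Dir Ψ c v ∧ ¬ Bd (fun x => l₀ ⬝ᵥ Ψ x) c}) y

def C0_st : Prop := Sp n X → ∀ (v l₀ : E n) (Ψ : X → E n) (A : ℝ), Fr v l₀ Ψ A →
  ∀ (T : Type) (τ : (ℝ → X) → T), Fint n τ → ∀ F : X → E n, Eqv F →
  (τ '' {c | Zer v Ψ c}).ncard + (τ '' {c | ∃ y, y ≠ 0 ∧ Fi v Ψ c y}).ncard +
    (τ '' {c | Isometry c ∧ Dir Ψ c v ∧ ¬ Bd (fun x => l₀ ⬝ᵥ Ψ x) c}).ncard ≤
      (τ '' {c | Isometry c ∧ Dir F c v}).ncard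

/-- sum over the directions -/
def C1_st : Prop := Sp n X → ∀ (T : Type) (τ : (ℝ → X) → T), Fint n τ → ∀ F : X → E n, Eqv F →
  ∀ (V : Finset (E n)) (N : ℕ), (∀ v ∈ V, N ≤ (τ '' {c | Isometry c ∧ Dir F c v}).ncard) →
  V.card * N ≤ (τ '' {c | Isometry c}).ncard

def COV_st : Prop := Sp n X → (∀ (k : G n) (x : X), k +ᵥ x = x → k = 0) →
  ∀ (M : Type) (π : X → M), (∀ x y, π x = π y → ∃ k : G n, y = k +ᵥ x) → ∀ S : Finset (ℝ → M),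
  (∀ c : ℝ → X, Isometry c → ∃ c₀ ∈ S, ∃ a b : ℝ, (a = 1 ∨ a = -1) ∧
    ∀ t, π (c t) = c₀ (a * t + b)) →
  ∃ (T : Type) (τ : (ℝ → X) → T), Fint n τ ∧ (τ '' {c | Isometry c}).ncard ≤ 2 * S.card

/-- the theorem for a lattice cover -/
def A_st : Prop := 2 ≤ n → Sp n X → (∀ (k : G n) (x : X), k +ᵥ x = x → k = 0) →
  ∀ (M : Type) (π : X → M), (∀ x y, π x = π y → ∃ k : G n, y = k +ᵥ x) → ∀ S : Finset (ℝ → M),
  (∀ c : ℝ → X, Isometry c → ∃ c₀ ∈ S, ∃ a b : ℝ, (a = 1 ∨ a = -1) ∧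
    ∀ t, π (c t) = c₀ (a * t + b)) →
  min (n * min (3 * n) (4 * n - 3)) ((n + 1) * (2 * n + 1)) ≤ S.card

end space

end Pool.Agent.MP_4d76c1_gt.Low
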