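import Pool.Agent.Mg.F4d76c1.G19288f
import Pool.Agent.MP_4d76c1_gt.Low.St

/-! Statements about the three dimensional torus. -/

set_option autoImplicit false

namespace Pool.Agent.MP_4d76c1_gt.Low

/-- every line of the cover is a member of `S` up to the parameter -/
def Cover (g : Fin 3 → Fin 3 → (Fin 3 → ℝ) → ℝ) (S : Finset (ℝ → Fin 3 → AddCircle (1 : ℝ))) :
    Prop :=
  ∀ c : ℝ → Fin 3 → ℝ, (∀ s t, tensorDist g (c s) (c t) = ENNReal.ofReal |t - s|) →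
    ∃ c₀ ∈ S, ∃ a b : ℝ, (a = 1 ∨ a = -1) ∧
      ∀ t i, ((c t i : ℝ) : AddCircle (1 : ℝ)) = c₀ (a * t + b) i

/-- the distance of a field of forms is a length metric -/
def LEN_st : Prop := ∀ Q : E3 → Bil, Continuous Q → ∀ (x y : E3) (L : ℝ),
  riemDist Q x y < ENNReal.ofReal L → ∃ p : ℝ → E3, p 0 = x ∧ p L = y ∧
    ∀ s t, riemDist Q (p s) (p t) ≤ ENNReal.ofReal |t - s|

def TN_st : Prop := ∀ g : Fin 3 → Fin 3 → (Fin 3 → ℝ) → ℝ, (∀ i j, Continuous (g i j)) →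
  (∀ x v : Fin 3 → ℝ, v ≠ 0 → 0 < ∑ i, ∑ j, g i j x * v i * v j) →
  (∀ (i j : Fin 3) (x : Fin 3 → ℝ) (k : Fin 3 → ℤ), g i j (fun r => x r + (k r : ℝ)) = g i j x) →
  ∀ S, Cover g S → 27 ≤ S.card

def SH_st : Prop := ∃ g : Fin 3 → Fin 3 → (Fin 3 → ℝ) → ℝ,
  (∀ (i j : Fin 3) (n : ℕ), ContDiff ℝ n (g i j)) ∧ (∀ i j, g i j = g j i) ∧
  (∀ x v : Fin 3 → ℝ, v ≠ 0 → 0 < ∑ i, ∑ j, g i j x * v i * v j) ∧
  (∀ (i j : Fin 3) (x : Fin 3 → ℝ) (k : Fin 3 → ℤ), g i j (fun r => x r + (k r : ℝ)) = g i j x) ∧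
  ∃ S, S.card ≤ 27 ∧ Cover g S

end Pool.Agent.MP_4d76c1_gt.Low
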