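import Pool.Agent.MP_4d76c1_gt.Low.St2

/-! The lower bound for the three dimensional torus from the bound for lattice covers. -/

set_option autoImplicit false

namespace Pool.Agent.MP_4d76c1_gt.Low

/-- a copy of the space without its norm -/
structure XT_TN : Type where
  v : E3

/-- translations -/
@[reducible] def act_TN : AddAction (G 3) XT_TN where
  vadd k x := ⟨x.v + cv k⟩
  zero_vadd x := congrArg XT_TN.mk (show x.v + cv 0 = x.v by rw [cv_zero, add_zero])
  add_vadd k l x := congrArg XT_TN.mk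
    (show x.v + cv (k + l) = x.v + cv l + cv k by rw [cv_add]; abel)

/-- the metric given by `D` -/
@[reducible] noncomputable def met_TN (D : E3 → E3 → ℝ) {m M : ℝ} (hm : 0 < m)
    (hs : ∀ x y, D x y = D y x) (ht : ∀ x y z, D x z ≤ D x y + D y z)
    (hu : ∀ x y, D x y ≤ M * ‖y - x‖) (hl : ∀ x y, m * ‖y - x‖ ≤ D x y) : MetricSpace XT_TN where
  dist x y := D x.v y.v
  dist_self x := le_antisymm (by simpa using hu x.v x.v) (by simpa using hl x.v x.v)
  dist_comm x y := hs _ _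
  dist_triangle x y z := ht _ _ _
  eq_of_dist_eq_zero {x y} h := by
    have h1 := hl x.v y.v
    rw [show D x.v y.v = 0 from h] at h1
    have h2 : ‖y.v - x.v‖ ≤ 0 := by
      by_contra hc
      exact absurd (mul_pos hm (not_le.1 hc)) (not_lt.2 h1)
    exact congrArg XT_TN.mk (sub_eq_zero.1 (norm_le_zero_iff.1 h2)).symm

theorem gen_TN (hA : ∀ (X : Type) [MetricSpace X] [AddAction (G 3) X], A_st 3 X)
    (D : E3 → E3 → ℝ) {m M : ℝ} (hm : 0 < m) (hM : 0 < M)
    (hs : ∀ x y, D x y = D y x) (ht : ∀ x y z, D x z ≤ D x y + D y z)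
    (hu : ∀ x y, D x y ≤ M * ‖y - x‖) (hl : ∀ x y, m * ‖y - x‖ ≤ D x y)
    (hp : ∀ (k : G 3) x y, D (x + cv k) (y + cv k) = D x y)
    (hlen : ∀ x y L, D x y < L → ∃ p : ℝ → E3, p 0 = x ∧ p L = y ∧ ∀ s t, D (p s) (p t) ≤ |t - s|)
    (S : Finset (ℝ → Fin 3 → AddCircle (1 : ℝ)))
    (hS : ∀ c : ℝ → E3, (∀ s t, D (c s) (c t) = |t - s|) → ∃ c₀ ∈ S, ∃ a b : ℝ,
      (a = 1 ∨ a = -1) ∧ ∀ t i, ((c t i : ℝ) : AddCircle (1 : ℝ)) = c₀ (a * t + b) i) :
    27 ≤ S.card := by
  let _ := met_TN D hm hs ht hu hl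
  let _ := act_TN
  have hd : ∀ x y : XT_TN, dist x y = D x.v y.v := fun _ _ => rfl
  have hv : ∀ (k : G 3) (x : XT_TN), (k +ᵥ x).v = x.v + cv k := fun _ _ => rfl
  have hc : Continuous XT_TN.mk :=
    (LipschitzWith.of_dist_le_mul (K := ⟨M, hM.le⟩) (f := XT_TN.mk) fun x y => by
      rw [hd, dist_comm, dist_eq_norm]
      exact hu x y).continuous
  have hsp : Sp 3 XT_TN := by
    refine ⟨⟨fun x r => ?_⟩, fun k x y => hp k _ _, fun x R => ?_, ⟨⟨0⟩, M, fun x => ?_⟩,
      fun x y L h => ?_⟩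
    · refine ((isCompact_closedBall x.v (r / m)).image hc).of_isClosed_subset
        Metric.isClosed_closedBall fun y hy => ⟨y.v, ?_, rfl⟩
      rw [Metric.mem_closedBall, dist_comm, hd] at hy
      rw [Metric.mem_closedBall, dist_eq_norm, le_div_iff₀ hm, mul_comm]
      exact (hl _ _).trans hy
    · refine (finite_cv_norm_le (R / m)).subset fun k hk => ?_
      have h1 := (hl x.v (x.v + cv k)).trans hk
      rw [add_sub_cancel_left] at h1
      rw [Set.mem_ofPred_eq, le_div_iff₀ hm, mul_comm]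
      exact h1
    · refine ⟨-fl x.v, ?_⟩
      rw [hd, hv, hs, cv_neg]
      refine (hu _ _).trans ?_
      have h1 : ‖x.v + -cv (fl x.v) - 0‖ ≤ 1 := by
        rw [sub_zero, ← sub_eq_add_neg]
        exact norm_sub_fl x.v
      exact mul_le_of_le_one_right hM.le h1
    · obtain ⟨p, h0, h1, h2⟩ := hlen x.v y.v L h
      refine ⟨fun t => ⟨p t⟩, LipschitzWith.of_dist_le_mul fun s t => ?_,
        congrArg XT_TN.mk h0, congrArg XT_TN.mk h1⟩
      rw [hd, NNReal.coe_one, one_mul, Real.dist_eq, abs_sub_comm]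
      exact h2 s t
  have key := hA XT_TN (by norm_num) hsp (fun k x h => ?_) (Fin 3 → AddCircle (1 : ℝ))
    (fun x i => ((x.v i : ℝ) : AddCircle (1 : ℝ))) (fun x y h => ?_) S (fun c hc => ?_)
  · exact le_trans (by norm_num) key
  · have h1 := congrArg XT_TN.v h
    rw [hv, add_eq_left] at h1
    ext i
    have h2 : ((k i : ℤ) : ℝ) = 0 := congrFun h1 i
    exact_mod_cast h2
  · have h1 : ∀ i, ∃ n : ℤ, (n : ℝ) = y.v i - x.v i := fun i => by
      have h2 : ((y.v i - x.v i : ℝ) : AddCircle (1 : ℝ)) = 0 := by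
        rw [AddCircle.coe_sub, sub_eq_zero]
        exact (congrFun h i).symm
      obtain ⟨n, hn⟩ := (AddCircle.coe_eq_zero_iff _).1 h2
      exact ⟨n, by simpa using hn⟩
    choose k hk using h1
    refine ⟨k, congrArg XT_TN.mk (funext fun i => ?_)⟩
    change y.v i = x.v i + (k i : ℝ)
    rw [hk, add_sub_cancel]
  · obtain ⟨c₀, h0, a, b, ha, h1⟩ := hS (fun t => (c t).v) fun s t => by
      rw [← hd, hc.dist_eq, Real.dist_eq, abs_sub_comm]
    exact ⟨c₀, h0, a, b, ha, fun t => funext (h1 t)⟩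

theorem tn_pf (hL : LEN_st) (hA : ∀ (X : Type) [MetricSpace X] [AddAction (G 3) X], A_st 3 X) :
    TN_st := by
  intro g hg hpos hper S hS
  obtain ⟨Q, hQc, hQ, hQp⟩ : ∃ Q : E3 → Bil, Continuous Q ∧
      (∀ x v, Q x v v = ∑ i, ∑ j, g i j x * v i * v j) ∧ ∀ x (k : G 3), Q (x + cv k) = Q x := by
    refine ⟨fun x => ∑ i, ∑ j, g i j x • (pr i).smulRight (pr j), ?_, fun x v => ?_,
      fun x k => ?_⟩
    · refine continuous_clm_apply.2 fun v => continuous_clm_apply.2 fun w => ?_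
      simp
      fun_prop
    · simp [mul_assoc]
    · exact Finset.sum_congr rfl fun i _ => Finset.sum_congr rfl fun j _ =>
        congrArg (· • (pr i).smulRight (pr j)) (hper i j x k)
  have hd : tensorDist g = riemDist Q := by
    ext x y
    simp only [tensorDist, riemDist, hQ]
  obtain ⟨m, M, hm, hM, hmM⟩ := exists_bounds Q hQc (fun x v hv => hQ x v ▸ hpos x v hv) hQp
  have hup := riemDist_le_norm Q hM.le fun x v => (hmM x v).2
  have hfin : ∀ x y, riemDist Q x y ≠ ⊤ := fun x y =>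
    ne_top_of_le_ne_top ENNReal.ofReal_ne_top (hup x y)
  refine gen_TN hA (fun x y => (riemDist Q x y).toReal) hm hM
    (fun x y => by rw [riemDist_comm]) (fun x y z => ?_)
    (fun x y => ENNReal.toReal_le_of_le_ofReal (by positivity) (hup x y))
    (fun x y => (ENNReal.ofReal_le_iff_le_toReal (hfin x y)).1
      (norm_le_riemDist Q hm (fun x v => (hmM x v).1) x y))
    (fun k x y => congrArg ENNReal.toReal (riemDist_translate Q hQp k x y))
    (fun x y L h => ?_) S fun c hc => hS c fun s t => ?_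
  · rw [← ENNReal.toReal_add (hfin _ _) (hfin _ _)]
    exact ENNReal.toReal_mono (ENNReal.add_ne_top.2 ⟨hfin _ _, hfin _ _⟩)
      (riemDist_triangle Q x y z)
  · obtain ⟨p, h0, h1, h2⟩ := hL Q hQc x y L ((ENNReal.lt_ofReal_iff_toReal_lt (hfin x y)).2 h)
    exact ⟨p, h0, h1, fun s t => ENNReal.toReal_le_of_le_ofReal (abs_nonneg _) (h2 s t)⟩
  · rw [hd, ← hc s t, ENNReal.ofReal_toReal (hfin _ _)]

end Pool.Agent.MP_4d76c1_gt.Low
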