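import Pool.Agent.MP_4d76c1_gt.Low.Fin
import Pool.Agent.MP_4d76c1_gt.Low.LEN
import Pool.Agent.MP_4d76c1_gt.Low.TN
import Pool.Agent.MP_4d76c1_gt.Low.SH

set_option autoImplicit false

namespace Pool.Agent.MP_4d76c1_gt.Low

/-- On the three dimensional torus the least number of minimal geodesics is 27. -/
theorem exact27 : IsLeast {N : ℕ | ∃ g : Fin 3 → Fin 3 → (Fin 3 → ℝ) → ℝ,
    (∀ (i j : Fin 3) (n : ℕ), ContDiff ℝ n (g i j)) ∧ (∀ i j, g i j = g j i) ∧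
    (∀ x v : Fin 3 → ℝ, v ≠ 0 → 0 < ∑ i, ∑ j, g i j x * v i * v j) ∧
    (∀ (i j : Fin 3) (x : Fin 3 → ℝ) (k : Fin 3 → ℤ), g i j (fun r => x r + (k r : ℝ)) = g i j x) ∧
    ∃ S : Finset (ℝ → Fin 3 → AddCircle (1 : ℝ)), S.card = N ∧
      ∀ c : ℝ → Fin 3 → ℝ, (∀ s t, tensorDist g (c s) (c t) = ENNReal.ofReal |t - s|) →
        ∃ c₀ ∈ S, ∃ a b : ℝ, (a = 1 ∨ a = -1) ∧
          ∀ t i, ((c t i : ℝ) : AddCircle (1 : ℝ)) = c₀ (a * t + b) i} 27 := by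
  have low := tn_pf len_pf (a_main 3)
  refine ⟨?_, fun N ⟨g, h1, _, h3, h4, S, e, hS⟩ =>
    e ▸ low g (fun i j => (h1 i j 0).continuous) h3 h4 S hS⟩
  obtain ⟨g, h1, h2, h3, h4, S, e, hS⟩ := sh_pf
  exact ⟨g, h1, h2, h3, h4, S,
    le_antisymm e (low g (fun i j => (h1 i j 0).continuous) h3 h4 S hS), hS⟩

end Pool.Agent.MP_4d76c1_gt.Low
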